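import Mathlib

/-!
# An abstract Riccati argument

`H` a complex Hilbert space, `G`, `χ`, `S` bounded operators.  We perturb the eigenvectors `g n` of
`S g = (1+μ) G χ G g` to an exactly invariant subspace of
`T₀ g = G u`, `T₀ = S - G² - i G (1-χ) G`.
-/

namespace Pool.Agent.H3R2.ES

open scoped InnerProductSpace NNReal ENNReal

variable {H : Type*} [NormedAddCommGroup H] [InnerProductSpace ℂ H] [CompleteSpace H]

/-- a bilinear fixed point problem -/
theorem fixed_point {N : ℕ} (R : Fin N → H →L[ℂ] H) (K : ℝ) (hK : 0 ≤ K)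
    (hR : ∀ n x, ‖R n x‖ ≤ K * ‖x‖) (b : Fin N → H) (β : ℝ) (hβ : 0 ≤ β) (hb : ∀ n, ‖b n‖ ≤ β)
    (Q : H → (Fin N → H) → H) (q : ℝ) (hq0 : 0 ≤ q) (hq : ∀ a h, ‖Q a h‖ ≤ q * ‖a‖ * ‖h‖)
    (hQ1 : ∀ a a' h, Q (a - a') h = Q a h - Q a' h)
    (hQ2 : ∀ a h h', Q a (h - h') = Q a h - Q a h')
    (hsmall : 8 * K * q * (K * β) ≤ 1) :
    ∃ h : Fin N → H, (∀ n, h n = R n (b n - Q (h n) h)) ∧ ‖h‖ ≤ 2 * K * β := by
  set ρ : ℝ := 2 * K * β with hρ
  have hρ0 : 0 ≤ ρ := by positivity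
  have hKq : 4 * (K * q * ρ) ≤ 1 := by rw [hρ]; linarith
  have hKq0 : 0 ≤ K * q * ρ := by positivity
  let f : (Fin N → H) → (Fin N → H) := fun h n => R n (b n - Q (h n) h)
  have hmaps : Set.MapsTo f (Metric.closedBall 0 ρ) (Metric.closedBall 0 ρ) := by
    intro h hh
    rw [mem_closedBall_zero_iff] at hh ⊢
    rw [pi_norm_le_iff_of_nonneg hρ0]
    intro n
    have h1 : ‖h n‖ ≤ ρ := (norm_le_pi_norm h n).trans hh
    have h2 : ‖Q (h n) h‖ ≤ q * ρ * ρ := by
      refine (hq _ _).trans ?_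
      gcongr
    calc ‖f h n‖ ≤ K * ‖b n - Q (h n) h‖ := hR _ _
      _ ≤ K * (β + q * ρ * ρ) := by
          gcongr
          exact (norm_sub_le _ _).trans (add_le_add (hb n) h2)
      _ = ρ / 2 + (K * q * ρ) * ρ := by rw [hρ]; ring
      _ ≤ ρ := by nlinarith
  have hcontr : ContractingWith (1 / 2) (hmaps.restrict f _ _) := by
    refine ⟨by norm_num, LipschitzWith.of_dist_le_mul ?_⟩
    rintro ⟨h, hh⟩ ⟨h', hh'⟩
    rw [Subtype.dist_eq, Subtype.dist_eq, Set.MapsTo.val_restrict_apply,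
      Set.MapsTo.val_restrict_apply]
    simp only
    rw [mem_closedBall_zero_iff] at hh hh'
    rw [dist_pi_le_iff (by positivity)]
    intro n
    have e1 : f h n - f h' n = R n (-(Q (h n - h' n) h + Q (h' n) (h - h'))) := by
      simp only [f]
      rw [← map_sub, hQ1, hQ2]
      congr 1
      abel
    rw [dist_eq_norm, e1]
    have h3 : ‖h n - h' n‖ ≤ dist h h' := by
      rw [← dist_eq_norm]; exact dist_le_pi_dist h h' n
    have h4 : ‖Q (h n - h' n) h‖ ≤ q * ρ * dist h h' := by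
      refine (hq _ _).trans ?_
      calc q * ‖h n - h' n‖ * ‖h‖ ≤ q * dist h h' * ρ := by gcongr
        _ = q * ρ * dist h h' := by ring
    have h5 : ‖Q (h' n) (h - h')‖ ≤ q * ρ * dist h h' := by
      refine (hq _ _).trans ?_
      rw [← dist_eq_norm h h']
      have : ‖h' n‖ ≤ ρ := (norm_le_pi_norm h' n).trans hh'
      gcongr
    calc ‖R n (-(Q (h n - h' n) h + Q (h' n) (h - h')))‖
        ≤ K * ‖-(Q (h n - h' n) h + Q (h' n) (h - h'))‖ := hR _ _
      _ ≤ K * (q * ρ * dist h h' + q * ρ * dist h h') := by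
          rw [norm_neg]
          gcongr
          exact (norm_add_le _ _).trans (add_le_add h4 h5)
      _ = (2 * (K * q * ρ)) * dist h h' := by ring
      _ ≤ ((1 / 2 : ℝ≥0) : ℝ) * dist h h' := by
          have : 0 ≤ dist h h' := dist_nonneg
          push_cast
          nlinarith
  obtain ⟨y, hy, hfy, -⟩ := hcontr.exists_fixedPoint' (Metric.isClosed_closedBall.isComplete)
    hmaps (x := 0) (by simpa using hρ0) (edist_ne_top _ _)
  refine ⟨y, fun n => ?_, by simpa using hy⟩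
  exact (congrFun hfy n).symm

end Pool.Agent.H3R2.ES
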