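import Mathlib
import Pool.Agent.Helper209.CX.DDefs
import Pool.Agent.Helper209.CX.K01
import Pool.Agent.Helper209.CX.K31

namespace Pool.Agent.H3R2.ES

open MeasureTheory ENNReal FourierTransform Pool.Agent.Helper209.CX
open scoped InnerProductSpace

/-- an operator given by a pointwise formula -/
theorem exists_op {d : ℕ} (A : L2d d →L[ℂ] L2d d) (m : Ed d → ℂ) (hm : Measurable m) (C : ℝ)
    (hC : 0 ≤ C) (h : ∀ f : L2d d, MemLp (fun x => m x * (A f) x) 2 volume ∧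
      eLpNorm (fun x => m x * (A f) x) 2 volume ≤ ENNReal.ofReal (C * ‖f‖)) :
    ∃ T : L2d d →L[ℂ] L2d d, (∀ f : L2d d, (T f : Ed d → ℂ) =ᵐ[volume] fun x => m x * (A f) x) ∧
      ∀ f, ‖T f‖ ≤ C * ‖f‖ := by
  let T0 : L2d d →ₗ[ℂ] L2d d :=
    { toFun := fun f => (h f).1.toLp _
      map_add' := by
        intro f g
        apply Lp.ext
        filter_upwards [(h (f + g)).1.coeFn_toLp, (h f).1.coeFn_toLp, (h g).1.coeFn_toLp,
          Lp.coeFn_add ((h f).1.toLp _) ((h g).1.toLp _), Lp.coeFn_add (A f) (A g)] with x h1 h2 h3 h4 h5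
        rw [h1, h4, Pi.add_apply, h2, h3, map_add, h5, Pi.add_apply, mul_add]
      map_smul' := by
        intro c f
        apply Lp.ext
        filter_upwards [(h (c • f)).1.coeFn_toLp, (h f).1.coeFn_toLp,
          Lp.coeFn_smul c ((h f).1.toLp _), Lp.coeFn_smul c (A f)] with x h1 h2 h3 h4
        rw [h1, RingHom.id_apply, h3, Pi.smul_apply, h2, map_smul, h4, Pi.smul_apply, smul_eq_mul,
          smul_eq_mul]
        ring }
  have hn : ∀ f, ‖T0 f‖ ≤ C * ‖f‖ := by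
    intro f
    show ‖(h f).1.toLp _‖ ≤ C * ‖f‖
    rw [Lp.norm_toLp]
    exact ENNReal.toReal_le_of_le_ofReal (by positivity) (h f).2
  exact ⟨T0.mkContinuous C hn, fun f => (h f).1.coeFn_toLp, hn⟩

theorem eLpNorm_lp {d : ℕ} (f : L2d d) : eLpNorm (f : Ed d → ℂ) 2 volume = ENNReal.ofReal ‖f‖ := by
  rw [Lp.norm_def, ENNReal.ofReal_toReal (Lp.eLpNorm_ne_top f)]

theorem exists_mulOp {d : ℕ} (m : Ed d → ℂ) (hm : Measurable m) (C : ℝ)
    (hC : 0 ≤ C) (hmC : ∀ x, ‖m x‖ ≤ C) :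
    ∃ T : L2d d →L[ℂ] L2d d, (∀ f : L2d d, (T f : Ed d → ℂ) =ᵐ[volume] fun x => m x * f x) ∧
      ∀ f, ‖T f‖ ≤ C * ‖f‖ := by
  refine exists_op (ContinuousLinearMap.id ℂ (L2d d)) m hm C hC fun f => ?_
  have hb : ∀ᵐ x ∂(volume : Measure (Ed d)), ‖m x * f x‖ ≤ C * ‖f x‖ :=
    Filter.Eventually.of_forall fun x => by
      rw [norm_mul]
      exact mul_le_mul_of_nonneg_right (hmC x) (norm_nonneg _)
  refine ⟨MemLp.of_le_mul (Lp.memLp f) (hm.aestronglyMeasurable.mul (Lp.aestronglyMeasurable f)) hb,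
    ?_⟩
  refine (eLpNorm_le_mul_eLpNorm_of_ae_le_mul hb 2).trans ?_
  rw [eLpNorm_lp, ENNReal.ofReal_mul hC]

/-- the weight -/
noncomputable def wt {d : ℕ} (ξ : Ed d) : ℝ := (√(1 + (2 * Real.pi * ‖ξ‖) ^ 2))⁻¹

theorem wt_pos {d : ℕ} (ξ : Ed d) : 0 < wt ξ := by unfold wt; positivity

theorem wt_meas {d : ℕ} : Measurable (wt : Ed d → ℝ) := by unfold wt; fun_prop

theorem wt_le_one {d : ℕ} (ξ : Ed d) : wt ξ ≤ 1 := by
  unfold wt
  apply inv_le_one_of_one_le₀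
  rw [Real.one_le_sqrt]
  nlinarith [sq_nonneg (2 * Real.pi * ‖ξ‖)]

theorem wt_sq {d : ℕ} (ξ : Ed d) : wt ξ ^ 2 * (1 + (2 * Real.pi * ‖ξ‖) ^ 2) = 1 := by
  unfold wt
  rw [inv_pow, Real.sq_sqrt (by positivity)]
  exact inv_mul_cancel₀ (by positivity)

theorem wt_norm_le {d : ℕ} (ξ : Ed d) : ‖ξ‖ * wt ξ ≤ 1 := by
  have h1 := wt_sq ξ
  have h2 := wt_pos ξ
  have h3 : ‖ξ‖ ^ 2 ≤ (2 * Real.pi * ‖ξ‖) ^ 2 := by
    have := Real.pi_gt_three
    have h4 : ‖ξ‖ ≤ 2 * Real.pi * ‖ξ‖ := by nlinarith [norm_nonneg ξ]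
    exact pow_le_pow_left₀ (norm_nonneg _) h4 2
  have h5 : (‖ξ‖ * wt ξ) ^ 2 ≤ 1 ^ 2 := by nlinarith [sq_nonneg (wt ξ)]
  exact le_of_sq_le_sq h5 zero_le_one

theorem exists_G (d : ℕ) : ∃ G : L2d d →L[ℂ] L2d d,
    ∀ x, ((𝓕 (G x) : L2d d) : Ed d → ℂ) =ᵐ[volume] fun ξ => (wt ξ : ℂ) * (𝓕 x : L2d d) ξ := by
  obtain ⟨T, hT, -⟩ := exists_mulOp (d := d) (fun ξ => (wt ξ : ℂ))
    (Complex.measurable_ofReal.comp wt_meas) 1 zero_le_one (fun ξ => by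
      rw [Complex.norm_real, Real.norm_of_nonneg (wt_pos ξ).le]
      exact wt_le_one ξ)
  let F := Lp.fourierTransformₗᵢ (Ed d) ℂ
  refine ⟨(F.symm.toContinuousLinearEquiv : L2d d →L[ℂ] L2d d) ∘L T ∘L
    (F.toContinuousLinearEquiv : L2d d →L[ℂ] L2d d), fun x => ?_⟩
  have h1 : (𝓕 ((F.symm.toContinuousLinearEquiv : L2d d →L[ℂ] L2d d) (T (F x))) : L2d d) =
      T (F x) := F.apply_symm_apply _
  have h2 := hT (F x)
  rw [← h1] at h2
  exact h2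

section G
variable {d : ℕ} (G : L2d d →L[ℂ] L2d d)
  (hG : ∀ x, ((𝓕 (G x) : L2d d) : Ed d → ℂ) =ᵐ[volume] fun ξ => (wt ξ : ℂ) * (𝓕 x : L2d d) ξ)
include hG

theorem G_symm (x y : L2d d) : ⟪G x, y⟫_ℂ = ⟪x, G y⟫_ℂ := by
  rw [← Lp.inner_fourier_eq, ← Lp.inner_fourier_eq x, L2.inner_def, L2.inner_def]
  refine integral_congr_ae ?_
  filter_upwards [hG x, hG y] with ξ h1 h2
  rw [h1, h2, RCLike.inner_apply, RCLike.inner_apply, map_mul, Complex.conj_ofReal]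
  ring

theorem G_norm (x : L2d d) : ‖G x‖ ≤ ‖x‖ := by
  rw [← Lp.norm_fourier_eq (G x), ← Lp.norm_fourier_eq x]
  apply Lp.norm_le_norm_of_ae_le
  filter_upwards [hG x] with ξ h1
  rw [h1, norm_mul, Complex.norm_real, Real.norm_of_nonneg (wt_pos ξ).le]
  exact mul_le_of_le_one_left (norm_nonneg _) (wt_le_one ξ)

theorem G_inH1 (x : L2d d) : InH1 (G x) := by
  unfold InH1
  refine MemLp.of_le_mul (c := 1) (Lp.memLp (𝓕 x : L2d d)) ?_ ?_
  · exact ((Complex.continuous_ofReal.comp continuous_norm).aestronglyMeasurable).mul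
      (Lp.aestronglyMeasurable _)
  · filter_upwards [hG x] with ξ h1
    rw [h1, norm_mul, norm_mul, Complex.norm_real, Complex.norm_real, norm_norm,
      Real.norm_of_nonneg (wt_pos ξ).le, ← mul_assoc]
    exact mul_le_mul_of_nonneg_right (wt_norm_le ξ) (norm_nonneg _)

theorem G_surj (u : L2d d) (hu : InH1 u) : ∃ x, G x = u := by
  have hmem : MemLp (fun ξ : Ed d => (((wt ξ)⁻¹ : ℝ) : ℂ) * (𝓕 u : L2d d) ξ) 2 volume := by
    have h1 : MemLp (fun ξ : Ed d => ‖(𝓕 u : L2d d) ξ‖ + (2 * Real.pi) * ‖(‖ξ‖ : ℂ) * (𝓕 u : L2d d) ξ‖)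
        2 volume := (Lp.memLp (𝓕 u : L2d d)).norm.add (hu.norm.const_mul _)
    refine MemLp.of_le_mul (c := 1) h1 ?_ ?_
    · exact ((Complex.measurable_ofReal.comp (wt_meas.inv)).aestronglyMeasurable).mul
        (Lp.aestronglyMeasurable _)
    · refine Filter.Eventually.of_forall fun ξ => ?_
      rw [norm_mul, Complex.norm_real, Real.norm_of_nonneg (inv_pos.2 (wt_pos ξ)).le, one_mul,
        Real.norm_of_nonneg (by positivity), norm_mul, Complex.norm_real, norm_norm]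
      have h2 : (wt ξ)⁻¹ ≤ 1 + 2 * Real.pi * ‖ξ‖ := by
        unfold wt
        rw [inv_inv]
        have h3 : 0 ≤ 2 * Real.pi * ‖ξ‖ := by positivity
        rw [Real.sqrt_le_left (by positivity)]
        nlinarith
      calc (wt ξ)⁻¹ * ‖(𝓕 u : L2d d) ξ‖ ≤ (1 + 2 * Real.pi * ‖ξ‖) * ‖(𝓕 u : L2d d) ξ‖ := by
            gcongr
        _ = _ := by ring
  refine ⟨𝓕⁻ (hmem.toLp _), ?_⟩
  have h1 : (𝓕 (G (𝓕⁻ (hmem.toLp _) : L2d d)) : L2d d) = 𝓕 u := by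
    apply Lp.ext
    have h2 := hG (𝓕⁻ (hmem.toLp _) : L2d d)
    have h3 : (𝓕 (𝓕⁻ (hmem.toLp _) : L2d d) : L2d d) = hmem.toLp _ :=
      FourierInvPair.fourier_fourierInv_eq _
    rw [h3] at h2
    filter_upwards [h2, hmem.coeFn_toLp] with ξ h4 h5
    rw [h4, h5, ← mul_assoc, ← Complex.ofReal_mul, mul_inv_cancel₀ (wt_pos ξ).ne',
      Complex.ofReal_one, one_mul]
  exact (Lp.fourierTransformₗᵢ (Ed d) ℂ).injective h1

theorem G_dir (x y : L2d d) : dirichlet (G x) (G y) = ⟪y, x⟫_ℂ - ⟪G y, G x⟫_ℂ := by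
  rw [← Lp.inner_fourier_eq, ← Lp.inner_fourier_eq (G y), L2.inner_def, L2.inner_def,
    ← integral_sub (L2.integrable_inner _ _) (L2.integrable_inner _ _)]
  unfold dirichlet
  refine integral_congr_ae ?_
  filter_upwards [hG x, hG y] with ξ h1 h2
  rw [h1, h2, RCLike.inner_apply, RCLike.inner_apply, map_mul, Complex.conj_ofReal]
  have h3 : ((wt ξ : ℝ) : ℂ) ^ 2 * (1 + (((2 * Real.pi * ‖ξ‖) ^ 2 : ℝ) : ℂ)) = 1 := by
    exact_mod_cast wt_sq ξ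
  linear_combination (-(𝓕 x : L2d d) ξ * (starRingEnd ℂ) ((𝓕 y : L2d d) ξ)) *
    (1 - h3) + 0 * h3

end G

end Pool.Agent.H3R2.ES
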