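import Mathlib
import Pool.Agent.H3R2.ES.Ops

namespace Pool.Agent.H3R2.ES

open MeasureTheory ENNReal FourierTransform Pool.Agent.Helper209.CX
open scoped InnerProductSpace SchwartzMap

/-- translation `u(· + a)` -/
noncomputable def sh {d : ℕ} (a : Ed d) : L2d d →ₗᵢ[ℂ] L2d d :=
  Lp.compMeasurePreservingₗᵢ ℂ (fun x : Ed d => x + a) (measurePreserving_add_right volume a)

theorem sh_coe {d : ℕ} (a : Ed d) (u : L2d d) :
    ((sh a u : L2d d) : Ed d → ℂ) =ᵐ[volume] fun x => u (x + a) :=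
  Lp.coeFn_compMeasurePreserving u (measurePreserving_add_right volume a)

/-- the character -/
noncomputable def ch {d : ℕ} (a ξ : Ed d) : ℂ :=
  Complex.exp ((2 * Real.pi * (inner ℝ a ξ : ℝ) : ℝ) * Complex.I)

theorem ch_norm {d : ℕ} (a ξ : Ed d) : ‖ch a ξ‖ = 1 := Complex.norm_exp_ofReal_mul_I _

theorem ch_meas {d : ℕ} (a : Ed d) : Measurable (ch a) := by
  unfold ch
  fun_prop

set_option maxHeartbeats 4000000 in
theorem sh_fourier {d : ℕ} (a : Ed d) (u : L2d d) :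
    ((𝓕 (sh a u) : L2d d) : Ed d → ℂ) =ᵐ[volume] fun ξ => ch a ξ * (𝓕 u : L2d d) ξ := by
  obtain ⟨T, hT, -⟩ := exists_mulOp (d := d) (ch a) (ch_meas a) 1 zero_le_one
    (fun ξ => (ch_norm a ξ).le)
  have hcl : IsClosed {v : L2d d | (𝓕 (sh a v) : L2d d) = T (𝓕 v)} := by
    apply isClosed_eq
    · exact (Lp.fourierTransformₗᵢ (Ed d) ℂ).continuous.comp (sh a).continuous
    · exact T.continuous.comp (Lp.fourierTransformₗᵢ (Ed d) ℂ).continuous
  have key : (𝓕 (sh a u) : L2d d) = T (𝓕 u) := by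
    have hd := SchwartzMap.denseRange_toLpCLM (E := Ed d) (F := ℂ) (p := 2) (μ := volume)
      ENNReal.ofNat_ne_top
    refine hd.induction_on (p := fun v : L2d d => (𝓕 (sh a v) : L2d d) = T (𝓕 v)) u hcl ?_
    intro φ
    rw [SchwartzMap.toLpCLM_apply]
    have hφ1 : Integrable (φ : Ed d → ℂ) volume := φ.integrable
    have hφ2 : MemLp (φ : Ed d → ℂ) 2 volume := φ.memLp 2 volume
    have hψ1 : Integrable (fun x : Ed d => φ (x + a)) volume := hφ1.comp_add_right a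
    have hψ2 : MemLp (fun x : Ed d => φ (x + a)) 2 volume :=
      hφ2.comp_measurePreserving (measurePreserving_add_right volume a)
    have e1 : sh a (φ.toLp 2 volume) = hψ2.toLp _ := by
      apply Lp.ext
      have h2 := (measurePreserving_add_right volume a).quasiMeasurePreserving.ae
        (φ.coeFn_toLp 2 volume)
      filter_upwards [sh_coe a (φ.toLp 2 volume), hψ2.coeFn_toLp, h2] with x h3 h4 h5
      rw [h3, h4]
      exact h5
    have e2 : φ.toLp 2 volume = hφ2.toLp _ := by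
      apply Lp.ext
      filter_upwards [φ.coeFn_toLp 2 volume, hφ2.coeFn_toLp] with x h3 h4
      rw [h3, h4]
    apply Lp.ext
    have h6 := K01.d1_fourier d _ hψ1 hψ2
    have h7 := K01.d1_fourier d _ hφ1 hφ2
    rw [← e1] at h6
    rw [← e2] at h7
    filter_upwards [h6, h7, hT (𝓕 (φ.toLp 2 volume) : L2d d)] with ξ h8 h9 h10
    rw [h8, h10, h9]
    have h11 := integral_add_right_eq_self (μ := (volume : Measure (Ed d)))
      (fun x : Ed d => Complex.exp (-(2 * Real.pi * Complex.I * ((inner ℝ (x - a) ξ : ℝ) : ℂ))) * φ x) a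
    simp only [add_sub_cancel_right] at h11
    rw [h11, ← integral_const_mul]
    refine integral_congr_ae (Filter.Eventually.of_forall fun x => ?_)
    simp only
    rw [← mul_assoc]
    congr 1
    unfold ch
    rw [← Complex.exp_add]
    congr 1
    rw [inner_sub_left]
    push_cast
    ring
  rw [key]
  exact hT _

/-- difference -/
noncomputable def df {d : ℕ} (a : Ed d) (u : L2d d) : L2d d := sh a u - u

theorem df_coe {d : ℕ} (a : Ed d) (u : L2d d) :
    ((df a u : L2d d) : Ed d → ℂ) =ᵐ[volume] fun x => u (x + a) - u x := by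
  unfold df
  filter_upwards [Lp.coeFn_sub (sh a u) u, sh_coe a u] with x h1 h2
  rw [h1, Pi.sub_apply, h2]

theorem df_fourier {d : ℕ} (a : Ed d) (u : L2d d) :
    ((𝓕 (df a u) : L2d d) : Ed d → ℂ) =ᵐ[volume] fun ξ => (ch a ξ - 1) * (𝓕 u : L2d d) ξ := by
  have h0 : (𝓕 (df a u) : L2d d) = 𝓕 (sh a u) - 𝓕 u :=
    (Lp.fourierTransformₗᵢ (Ed d) ℂ).map_sub _ _
  rw [h0]
  filter_upwards [Lp.coeFn_sub (𝓕 (sh a u) : L2d d) (𝓕 u : L2d d), sh_fourier a u] with x h1 h2
  rw [h1, Pi.sub_apply, h2]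
  ring

theorem df_inner {d : ℕ} (a : Ed d) (u v : L2d d) :
    ⟪df a v, df a u⟫_ℂ = ∫ ξ : Ed d, ((‖ch a ξ - 1‖ ^ 2 : ℝ) : ℂ) * (𝓕 u : L2d d) ξ *
      (starRingEnd ℂ) ((𝓕 v : L2d d) ξ) := by
  rw [← Lp.inner_fourier_eq, L2.inner_def]
  refine integral_congr_ae ?_
  filter_upwards [df_fourier a u, df_fourier a v] with ξ h1 h2
  rw [h1, h2, RCLike.inner_apply, map_mul]
  have h3 : (ch a ξ - 1) * (starRingEnd ℂ) (ch a ξ - 1) = ((‖ch a ξ - 1‖ ^ 2 : ℝ) : ℂ) := by
    rw [Complex.mul_conj, Complex.normSq_eq_norm_sq]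
  rw [← h3]
  ring

/-- the step `e_j/(n+1)` -/
noncomputable def st {d : ℕ} (n : ℕ) (j : Fin d) : Ed d :=
  EuclideanSpace.single j (1 / ((n : ℝ) + 1))

theorem st_inner {d : ℕ} (n : ℕ) (j : Fin d) (ξ : Ed d) :
    inner ℝ (st n j) ξ = ξ j / ((n : ℝ) + 1) := by
  unfold st
  rw [EuclideanSpace.inner_single_left]
  simp only [map_div₀, map_one, map_add, map_natCast]
  simp
  ring

theorem st_norm {d : ℕ} (n : ℕ) (j : Fin d) : ‖(st n j : Ed d)‖ = 1 / ((n : ℝ) + 1) := by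
  unfold st
  rw [PiLp.norm_single, Real.norm_of_nonneg (by positivity)]

theorem ch_sub_sq {d : ℕ} (n : ℕ) (j : Fin d) (ξ : Ed d) :
    ‖ch (st n j) ξ - 1‖ ^ 2 = 2 - 2 * Real.cos (2 * Real.pi * (ξ j / ((n : ℝ) + 1))) := by
  unfold ch
  rw [st_inner]
  obtain ⟨θ, hθ⟩ : ∃ θ : ℝ, θ = 2 * Real.pi * (ξ j / ((n : ℝ) + 1)) := ⟨_, rfl⟩
  rw [← hθ, Complex.exp_mul_I, ← Complex.normSq_eq_norm_sq, Complex.normSq_apply]
  have h1 : (Complex.cos θ + Complex.sin θ * Complex.I - 1).re = Real.cos θ - 1 := by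
    simp [← Complex.ofReal_cos, ← Complex.ofReal_sin]
  have h2 : (Complex.cos θ + Complex.sin θ * Complex.I - 1).im = Real.sin θ := by
    simp [← Complex.ofReal_cos, ← Complex.ofReal_sin]
  rw [h1, h2]
  nlinarith [Real.sin_sq_add_cos_sq θ]

theorem ch_sub_le {d : ℕ} (n : ℕ) (j : Fin d) (ξ : Ed d) :
    ((n : ℝ) + 1) ^ 2 * ‖ch (st n j) ξ - 1‖ ^ 2 ≤ (2 * Real.pi * ξ j) ^ 2 := by
  rw [ch_sub_sq]
  have h1 := Real.one_sub_sq_div_two_le_cos (x := 2 * Real.pi * (ξ j / ((n : ℝ) + 1)))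
  have h2 : 2 - 2 * Real.cos (2 * Real.pi * (ξ j / ((n : ℝ) + 1))) ≤
      (2 * Real.pi * (ξ j / ((n : ℝ) + 1))) ^ 2 := by linarith
  calc ((n : ℝ) + 1) ^ 2 * (2 - 2 * Real.cos (2 * Real.pi * (ξ j / ((n : ℝ) + 1))))
      ≤ ((n : ℝ) + 1) ^ 2 * (2 * Real.pi * (ξ j / ((n : ℝ) + 1))) ^ 2 := by gcongr
    _ = _ := by field_simp

theorem ch_sub_lim {d : ℕ} (j : Fin d) (ξ : Ed d) :
    Filter.Tendsto (fun n : ℕ => ((n : ℝ) + 1) ^ 2 * ‖ch (st n j) ξ - 1‖ ^ 2) Filter.atTop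
      (nhds ((2 * Real.pi * ξ j) ^ 2)) := by
  -- 2 - 2cos x between x² - x⁴/12 and x²
  obtain ⟨y, hy⟩ : ∃ y : ℝ, y = 2 * Real.pi * ξ j := ⟨_, rfl⟩
  have hlow : ∀ n : ℕ, y ^ 2 - y ^ 4 / ((n : ℝ) + 1) ^ 2 ≤
      ((n : ℝ) + 1) ^ 2 * ‖ch (st n j) ξ - 1‖ ^ 2 := by
    intro n
    rw [ch_sub_sq]
    have e : 2 * Real.pi * (ξ j / ((n : ℝ) + 1)) = y / ((n : ℝ) + 1) := by rw [hy]; ring
    rw [e]
    obtain ⟨x, hx⟩ : ∃ x : ℝ, x = y / ((n : ℝ) + 1) := ⟨_, rfl⟩
    have hyx : y = ((n : ℝ) + 1) * x := by rw [hx]; field_simp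
    rw [← hx]
    have h1 : 2 - 2 * Real.cos x ≥ x ^ 2 - x ^ 4 := by
      have h2 : Real.cos x ≤ 1 - x ^ 2 / 2 + x ^ 4 / 2 := by
        have h4 : Real.cos x = 1 - 2 * Real.sin (x / 2) ^ 2 := by
          have := Real.sin_sq_add_cos_sq (x / 2)
          have h5 := Real.cos_two_mul (x / 2)
          rw [mul_div_cancel₀ x (two_ne_zero)] at h5
          rw [h5]; linarith
        -- |sin t| ≥ |t| - |t|^3 ...
        have h6 : (x / 2) ^ 2 - 4 * (x / 2) ^ 4 ≤ Real.sin (x / 2) ^ 2 := by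
          obtain ⟨t, ht⟩ : ∃ t : ℝ, t = |x / 2| := ⟨_, rfl⟩
          have e2 : (x / 2) ^ 2 = t ^ 2 := by rw [ht, sq_abs]
          have e4 : (x / 2) ^ 4 = t ^ 4 := by
            calc (x / 2) ^ 4 = ((x / 2) ^ 2) ^ 2 := by ring
              _ = (t ^ 2) ^ 2 := by rw [e2]
              _ = t ^ 4 := by ring
          have es : Real.sin (x / 2) ^ 2 = Real.sin t ^ 2 := by
            rw [ht]
            rcases abs_choice (x / 2) with h | h
            · rw [h]
            · rw [h, Real.sin_neg, neg_sq]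
          rw [e2, e4, es]
          have ht0 : 0 ≤ t := by rw [ht]; exact abs_nonneg _
          rcases le_or_gt t (1 / 2) with h7 | h7
          · have h8 : t - t ^ 3 / 4 ≤ Real.sin t := by
              rcases eq_or_lt_of_le ht0 with h9 | h9
              · rw [← h9]; simp
              · have h10 := Real.sin_gt_sub_cube h9
                have h11 : 0 < t ^ 3 := by positivity
                linarith
            have h9 : 0 ≤ t - t ^ 3 / 4 := by nlinarith [sq_nonneg t]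
            have h10 := pow_le_pow_left₀ h9 h8 2
            nlinarith [sq_nonneg (t ^ 2), sq_nonneg (t^3)]
          · have : t ^ 2 - 4 * t ^ 4 ≤ 0 := by
              have : 1 ≤ 4 * t ^ 2 := by nlinarith
              nlinarith [sq_nonneg t]
            exact this.trans (sq_nonneg _)
        rw [h4]
        nlinarith
      linarith
    have h5 : y ^ 2 - y ^ 4 / ((n : ℝ) + 1) ^ 2 = ((n : ℝ) + 1) ^ 2 * (x ^ 2 - x ^ 4) := by
      rw [hyx]
      field_simp
    rw [h5]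
    gcongr
  have hup : ∀ n : ℕ, ((n : ℝ) + 1) ^ 2 * ‖ch (st n j) ξ - 1‖ ^ 2 ≤ y ^ 2 := fun n => by
    rw [hy]; exact ch_sub_le n j ξ
  have hl : Filter.Tendsto (fun n : ℕ => y ^ 2 - y ^ 4 / ((n : ℝ) + 1) ^ 2) Filter.atTop
      (nhds (y ^ 2)) := by
    have h1 : Filter.Tendsto (fun n : ℕ => (1 : ℝ) / ((n : ℝ) + 1)) Filter.atTop (nhds 0) :=
      tendsto_one_div_add_atTop_nhds_zero_nat
    have h2 : Filter.Tendsto (fun n : ℕ => y ^ 2 - y ^ 4 * (1 / ((n : ℝ) + 1)) ^ 2) Filter.atTop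
        (nhds (y ^ 2 - y ^ 4 * 0 ^ 2)) := (tendsto_const_nhds).sub ((h1.pow 2).const_mul _)
    have h3 : y ^ 2 - y ^ 4 * 0 ^ 2 = y ^ 2 := by ring
    rw [h3] at h2
    refine h2.congr fun n => ?_
    rw [one_div, inv_pow, div_eq_mul_inv]
  rw [← hy]
  exact tendsto_of_tendsto_of_tendsto_of_le_of_le hl tendsto_const_nhds hlow hup

theorem sum_sq {d : ℕ} (ξ : Ed d) : ∑ j, (2 * Real.pi * ξ j) ^ 2 = (2 * Real.pi * ‖ξ‖) ^ 2 := by
  rw [mul_pow, EuclideanSpace.norm_sq_eq, Finset.mul_sum]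
  refine Finset.sum_congr rfl fun j _ => ?_
  rw [mul_pow, Real.norm_eq_abs, sq_abs]

/-- the difference quotients converge to the Dirichlet form -/
theorem dirichlet_tendsto {d : ℕ} (u v : L2d d) (hu : InH1 u) (hv : InH1 v) :
    Filter.Tendsto (fun n : ℕ => ∑ j : Fin d, (((n : ℝ) + 1) ^ 2 : ℂ) *
      ⟪df (st n j) v, df (st n j) u⟫_ℂ) Filter.atTop (nhds (dirichlet u v)) := by
  have hint := K31.isHu_zero_int u v hu hv
  have hb : ∀ (n : ℕ) (ξ : Ed d), ∑ j : Fin d, ((n : ℝ) + 1) ^ 2 * ‖ch (st n j) ξ - 1‖ ^ 2 ≤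
      (2 * Real.pi * ‖ξ‖) ^ 2 := by
    intro n ξ
    rw [← sum_sq]
    exact Finset.sum_le_sum fun j _ => ch_sub_le n j ξ
  have hmeas : ∀ n : ℕ, AEStronglyMeasurable (fun ξ : Ed d =>
      (((∑ j : Fin d, ((n : ℝ) + 1) ^ 2 * ‖ch (st n j) ξ - 1‖ ^ 2 : ℝ)) : ℂ) * (𝓕 u : L2d d) ξ *
        (starRingEnd ℂ) ((𝓕 v : L2d d) ξ)) volume := by
    intro n
    have hm : Measurable (fun ξ : Ed d =>
        (((∑ j : Fin d, ((n : ℝ) + 1) ^ 2 * ‖ch (st n j) ξ - 1‖ ^ 2 : ℝ)) : ℂ)) := by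
      apply Complex.measurable_ofReal.comp
      refine Finset.measurable_sum _ fun j _ => ?_
      have := ch_meas (st n j : Ed d)
      fun_prop
    exact (hm.aestronglyMeasurable.mul (Lp.aestronglyMeasurable _)).mul
      (Complex.continuous_conj.comp_aestronglyMeasurable (Lp.aestronglyMeasurable _))
  have heq : ∀ n : ℕ, ∑ j : Fin d, (((n : ℝ) + 1) ^ 2 : ℂ) * ⟪df (st n j) v, df (st n j) u⟫_ℂ =
      ∫ ξ : Ed d, (((∑ j : Fin d, ((n : ℝ) + 1) ^ 2 * ‖ch (st n j) ξ - 1‖ ^ 2 : ℝ)) : ℂ) *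
        (𝓕 u : L2d d) ξ * (starRingEnd ℂ) ((𝓕 v : L2d d) ξ) := by
    intro n
    simp only [df_inner]
    simp_rw [← integral_const_mul]
    rw [← integral_finsetSum]
    · refine integral_congr_ae (Filter.Eventually.of_forall fun ξ => ?_)
      simp only
      push_cast
      rw [Finset.sum_mul, Finset.sum_mul]
      refine Finset.sum_congr rfl fun j _ => ?_
      ring
    · intro j _
      apply Integrable.const_mul
      have h1 : Integrable (fun ξ : Ed d => (𝓕 (df (st n j) u) : L2d d) ξ *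
          (starRingEnd ℂ) ((𝓕 (df (st n j) v) : L2d d) ξ)) volume :=
        K31.isHu_zero_int2 _ _
      refine h1.congr ?_
      filter_upwards [df_fourier (st n j) u, df_fourier (st n j) v] with ξ h1 h2
      rw [h1, h2, map_mul]
      have h3 : (ch (st n j) ξ - 1) * (starRingEnd ℂ) (ch (st n j) ξ - 1) =
          ((‖ch (st n j) ξ - 1‖ ^ 2 : ℝ) : ℂ) := by
        rw [Complex.mul_conj, Complex.normSq_eq_norm_sq]
      rw [← h3]
      ring
  simp only [heq]
  unfold dirichlet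
  refine tendsto_integral_of_dominated_convergence
    (fun ξ => ‖(((2 * Real.pi * ‖ξ‖) ^ 2 : ℝ) : ℂ) * (𝓕 u : L2d d) ξ *
      (starRingEnd ℂ) ((𝓕 v : L2d d) ξ)‖) hmeas hint.norm ?_ ?_
  · intro n
    refine Filter.Eventually.of_forall fun ξ => ?_
    rw [norm_mul, norm_mul, norm_mul, norm_mul, Complex.norm_real, Complex.norm_real,
      Real.norm_of_nonneg (by positivity), Real.norm_of_nonneg (by positivity)]
    have := hb n ξ
    gcongr
  · refine Filter.Eventually.of_forall fun ξ => ?_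
    refine Filter.Tendsto.mul_const _ (Filter.Tendsto.mul_const _ ?_)
    refine (Complex.continuous_ofReal.tendsto _).comp ?_
    rw [← sum_sq]
    exact tendsto_finsetSum _ fun j _ => ch_sub_lim j ξ

/-- criterion for `H¹` by difference quotients -/
theorem inH1_of_bound {d : ℕ} (u : L2d d) (C : ℝ)
    (h : ∀ (n : ℕ) (j : Fin d), ((n : ℝ) + 1) * ‖df (st n j) u‖ ≤ C) : InH1 u := by
  by_cases hd : d = 0
  · subst hd
    unfold InH1
    refine MemLp.of_le_mul (c := 0) (Lp.memLp (𝓕 u : L2d 0)) ?_ ?_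
    · exact ((Complex.continuous_ofReal.comp continuous_norm).aestronglyMeasurable).mul
        (Lp.aestronglyMeasurable _)
    · refine Filter.Eventually.of_forall fun ξ => ?_
      have : ξ = 0 := Subsingleton.elim _ _
      rw [this]
      simp
  have hC : 0 ≤ C := by
    have := h 0 ⟨0, Nat.pos_of_ne_zero hd⟩
    exact le_trans (by positivity) this
  have hterm : ∀ (n : ℕ) (j : Fin d), ∫⁻ ξ : Ed d, ENNReal.ofReal (((n : ℝ) + 1) ^ 2 *
      ‖ch (st n j) ξ - 1‖ ^ 2 * ‖(𝓕 u : L2d d) ξ‖ ^ 2) ≤ ENNReal.ofReal (C ^ 2) := by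
    intro n j
    have h1 : ∫⁻ ξ : Ed d, ENNReal.ofReal (‖(𝓕 (df (st n j) u) : L2d d) ξ‖ ^ 2) =
        ENNReal.ofReal (‖df (st n j) u‖ ^ 2) := by
      rw [← ofReal_integral_eq_lintegral_ofReal
        ((memLp_two_iff_integrable_sq_norm (Lp.memLp _).1).1 (Lp.memLp _))
        (Filter.Eventually.of_forall fun ξ => by positivity)]
      congr 1
      rw [← Lp.norm_fourier_eq (df (st n j) u)]
      have h2 := L2.inner_def (𝕜 := ℂ) (𝓕 (df (st n j) u) : L2d d) (𝓕 (df (st n j) u) : L2d d)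
      rw [inner_self_eq_norm_sq_to_K] at h2
      apply Complex.ofReal_injective
      rw [← integral_complex_ofReal]
      refine Eq.trans ?_ (h2.symm.trans ?_)
      · refine integral_congr_ae (Filter.Eventually.of_forall fun ξ => ?_)
        simp only
        rw [inner_self_eq_norm_sq_to_K]
        push_cast
        rfl
      · push_cast
        rfl
    calc ∫⁻ ξ : Ed d, ENNReal.ofReal (((n : ℝ) + 1) ^ 2 *
          ‖ch (st n j) ξ - 1‖ ^ 2 * ‖(𝓕 u : L2d d) ξ‖ ^ 2)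
        = ∫⁻ ξ : Ed d, ENNReal.ofReal (((n : ℝ) + 1) ^ 2) *
            ENNReal.ofReal (‖(𝓕 (df (st n j) u) : L2d d) ξ‖ ^ 2) := by
          refine lintegral_congr_ae ?_
          filter_upwards [df_fourier (st n j) u] with ξ h2
          rw [h2, ← ENNReal.ofReal_mul (by positivity), norm_mul, mul_pow, mul_assoc]
      _ = ENNReal.ofReal (((n : ℝ) + 1) ^ 2) * ENNReal.ofReal (‖df (st n j) u‖ ^ 2) := by
          rw [lintegral_const_mul'' _ ?_, h1]
          exact (((Lp.aestronglyMeasurable _).norm.aemeasurable.pow_const 2).ennreal_ofReal)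
      _ = ENNReal.ofReal ((((n : ℝ) + 1) * ‖df (st n j) u‖) ^ 2) := by
          rw [← ENNReal.ofReal_mul (by positivity), mul_pow]
      _ ≤ ENNReal.ofReal (C ^ 2) := by
          apply ENNReal.ofReal_le_ofReal
          exact pow_le_pow_left₀ (by positivity) (h n j) 2
  have hfin : ∀ j : Fin d, ∫⁻ ξ : Ed d, ENNReal.ofReal ((2 * Real.pi * ξ j) ^ 2 *
      ‖(𝓕 u : L2d d) ξ‖ ^ 2) ≤ ENNReal.ofReal (C ^ 2) := by
    intro j
    have hlim : ∀ ξ : Ed d, ENNReal.ofReal ((2 * Real.pi * ξ j) ^ 2 * ‖(𝓕 u : L2d d) ξ‖ ^ 2) =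
        Filter.liminf (fun n : ℕ => ENNReal.ofReal (((n : ℝ) + 1) ^ 2 *
          ‖ch (st n j) ξ - 1‖ ^ 2 * ‖(𝓕 u : L2d d) ξ‖ ^ 2)) Filter.atTop := by
      intro ξ
      refine (Filter.Tendsto.liminf_eq ?_).symm
      refine (ENNReal.continuous_ofReal.tendsto _).comp ?_
      exact (ch_sub_lim j ξ).mul_const _
    calc ∫⁻ ξ : Ed d, ENNReal.ofReal ((2 * Real.pi * ξ j) ^ 2 * ‖(𝓕 u : L2d d) ξ‖ ^ 2)
        = ∫⁻ ξ : Ed d, Filter.liminf (fun n : ℕ => ENNReal.ofReal (((n : ℝ) + 1) ^ 2 *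
          ‖ch (st n j) ξ - 1‖ ^ 2 * ‖(𝓕 u : L2d d) ξ‖ ^ 2)) Filter.atTop :=
          lintegral_congr hlim
      _ ≤ Filter.liminf (fun n : ℕ => ∫⁻ ξ : Ed d, ENNReal.ofReal (((n : ℝ) + 1) ^ 2 *
          ‖ch (st n j) ξ - 1‖ ^ 2 * ‖(𝓕 u : L2d d) ξ‖ ^ 2)) Filter.atTop := by
          apply lintegral_liminf_le'
          intro n
          apply AEMeasurable.ennreal_ofReal
          refine AEMeasurable.mul ?_ ((Lp.aestronglyMeasurable _).norm.aemeasurable.pow_const 2)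
          have := ch_meas (st n j : Ed d)
          fun_prop
      _ ≤ ENNReal.ofReal (C ^ 2) := by
          refine Filter.liminf_le_of_le (by isBoundedDefault) fun b hb => ?_
          obtain ⟨n, hn⟩ := hb.exists
          exact hn.trans (hterm n j)
  unfold InH1
  rw [memLp_two_iff_integrable_sq_norm]
  · refine ⟨?_, ?_⟩
    · have : AEStronglyMeasurable (fun ξ : Ed d => (‖ξ‖ : ℂ) * (𝓕 u : L2d d) ξ) volume :=
        ((Complex.continuous_ofReal.comp continuous_norm).aestronglyMeasurable).mul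
        (Lp.aestronglyMeasurable _)
      exact (this.norm.aemeasurable.pow_const 2).aestronglyMeasurable
    · rw [hasFiniteIntegral_iff_ofReal (Filter.Eventually.of_forall fun ξ => by positivity)]
      refine lt_of_le_of_lt (lintegral_mono (g := fun ξ : Ed d => ∑ j : Fin d,
        ENNReal.ofReal ((2 * Real.pi * ξ j) ^ 2 * ‖(𝓕 u : L2d d) ξ‖ ^ 2)) ?_) ?_
      · intro ξ
        simp only
        rw [← ENNReal.ofReal_sum_of_nonneg (fun j _ => by positivity), ← Finset.sum_mul, sum_sq]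
        apply ENNReal.ofReal_le_ofReal
        rw [norm_mul, mul_pow, Complex.norm_real, norm_norm]
        have hpi : (1 : ℝ) ≤ 2 * Real.pi := by linarith [Real.pi_gt_three]
        have h2 : ‖ξ‖ ^ 2 ≤ (2 * Real.pi * ‖ξ‖) ^ 2 := by
          apply pow_le_pow_left₀ (norm_nonneg _)
          nlinarith [norm_nonneg ξ]
        gcongr
      · rw [lintegral_finsetSum']
        · refine lt_of_le_of_lt (Finset.sum_le_sum fun j _ => hfin j) ?_
          rw [Finset.sum_const, nsmul_eq_mul]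
          exact ENNReal.mul_lt_top (by simp) ENNReal.ofReal_lt_top
        · intro j _
          apply AEMeasurable.ennreal_ofReal
          refine AEMeasurable.mul ?_ ((Lp.aestronglyMeasurable _).norm.aemeasurable.pow_const 2)
          fun_prop
  · exact ((Complex.continuous_ofReal.comp continuous_norm).aestronglyMeasurable).mul
        (Lp.aestronglyMeasurable _)

/-- real part of the Dirichlet form of `u` -/
theorem dirichlet_le {d : ℕ} (u : L2d d) (hu : InH1 u) (C : ℝ)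
    (h : ∀ᶠ n : ℕ in Filter.atTop, ∑ j : Fin d, ((n : ℝ) + 1) ^ 2 * ‖df (st n j) u‖ ^ 2 ≤ C) :
    (dirichlet u u).re ≤ C := by
  have h1 := dirichlet_tendsto u u hu hu
  have h2 := (Complex.continuous_re.tendsto _).comp h1
  refine le_of_tendsto h2 ?_
  filter_upwards [h] with n hn
  refine le_trans (le_of_eq ?_) hn
  rw [Function.comp_apply, Complex.re_sum]
  refine Finset.sum_congr rfl fun j _ => ?_
  rw [inner_self_eq_norm_sq_to_K]
  have : (((n : ℝ) : ℂ) + 1) ^ 2 * ((‖df (st n j) u‖ : ℝ) : ℂ) ^ 2 =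
      ((((n : ℝ) + 1) ^ 2 * ‖df (st n j) u‖ ^ 2 : ℝ) : ℂ) := by push_cast; ring
  exact (congrArg Complex.re this).trans (Complex.ofReal_re _)

end Pool.Agent.H3R2.ES
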