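import Mathlib
import Pool.Agent.H3R2.ES.Diff

namespace Pool.Agent.H3R2.ES

open MeasureTheory ENNReal FourierTransform Pool.Agent.Helper209.CX
open scoped InnerProductSpace SchwartzMap

theorem norm_sq_int {d : ℕ} (u : L2d d) : ‖u‖ ^ 2 = ∫ x : Ed d, ‖u x‖ ^ 2 := by
  have h2 := L2.inner_def (𝕜 := ℂ) u u
  rw [inner_self_eq_norm_sq_to_K] at h2
  apply Complex.ofReal_injective
  rw [← integral_complex_ofReal]
  refine Eq.trans ?_ (h2.trans ?_)
  · push_cast
    rfl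
  · refine integral_congr_ae (Filter.Eventually.of_forall fun ξ => ?_)
    simp only
    rw [inner_self_eq_norm_sq_to_K]
    push_cast
    rfl

theorem int_sq {d : ℕ} (u : L2d d) : Integrable (fun x : Ed d => ‖u x‖ ^ 2) volume :=
  (memLp_two_iff_integrable_sq_norm (Lp.memLp _).1).1 (Lp.memLp _)

/-- difference quotients of `H¹` functions are bounded -/
theorem df_bound {d : ℕ} (u : L2d d) (hu : InH1 u) (n : ℕ) (j : Fin d) :
    (((n : ℝ) + 1) * ‖df (st n j) u‖) ^ 2 ≤ (dirichlet u u).re := by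
  have hint := K31.isHu_zero_int u u hu hu
  have h1 : (dirichlet u u).re = ∫ ξ : Ed d, (2 * Real.pi * ‖ξ‖) ^ 2 * ‖(𝓕 u : L2d d) ξ‖ ^ 2 := by
    unfold dirichlet
    rw [← RCLike.re_eq_complex_re, ← integral_re hint]
    refine integral_congr_ae (Filter.Eventually.of_forall fun ξ => ?_)
    simp only
    rw [mul_assoc, Complex.mul_conj, Complex.normSq_eq_norm_sq, ← Complex.ofReal_mul]
    exact Complex.ofReal_re _
  have hint2 : Integrable (fun ξ : Ed d => (2 * Real.pi * ‖ξ‖) ^ 2 * ‖(𝓕 u : L2d d) ξ‖ ^ 2) volume := by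
    refine hint.norm.congr (Filter.Eventually.of_forall fun ξ => ?_)
    simp only
    rw [norm_mul, norm_mul, Complex.norm_real, RCLike.norm_conj, Real.norm_of_nonneg (by positivity)]
    ring
  rw [h1, mul_pow, ← Lp.norm_fourier_eq (df (st n j) u), norm_sq_int, ← integral_const_mul]
  refine integral_mono_ae ((int_sq _).const_mul _) hint2 ?_
  filter_upwards [df_fourier (st n j) u] with ξ h2
  rw [h2, norm_mul, mul_pow, ← mul_assoc]
  have h3 := ch_sub_le n j ξ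
  have h4 : (2 * Real.pi * ξ j) ^ 2 ≤ (2 * Real.pi * ‖ξ‖) ^ 2 := by
    rw [← sum_sq]
    exact Finset.single_le_sum (f := fun j => (2 * Real.pi * ξ j) ^ 2) (fun i _ => sq_nonneg _)
      (Finset.mem_univ j)
  have := h3.trans h4
  gcongr

/-- multiplication by a bounded Lipschitz function preserves `H¹` -/
theorem inH1_mul {d : ℕ} (u : L2d d) (hu : InH1 u) (ψ : Ed d → ℝ) (C K : ℝ) (hC : 0 ≤ C)
    (hK0 : 0 ≤ K) (hψC : ∀ x, |ψ x| ≤ C) (hK : ∀ x y, |ψ y - ψ x| ≤ K * ‖y - x‖) (w : L2d d)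
    (hw : (w : Ed d → ℂ) =ᵐ[volume] fun x => (ψ x : ℂ) * u x) : InH1 w := by
  apply inH1_of_bound w (C * √((dirichlet u u).re) + K * ‖u‖)
  intro n j
  have h1 : ‖df (st n j) w‖ ≤ C * ‖df (st n j) u‖ + K / ((n : ℝ) + 1) * ‖u‖ := by
    obtain ⟨T, hT, hTn⟩ := exists_mulOp (d := d) (fun _ => (1 : ℂ)) measurable_const 1 zero_le_one
      (by simp)
    -- use the triangle inequality for eLpNorm
    have h2 : eLpNorm (fun x : Ed d => C * ‖df (st n j) u x‖ + K / ((n : ℝ) + 1) * ‖u x‖) 2 volume ≤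
        ENNReal.ofReal (C * ‖df (st n j) u‖ + K / ((n : ℝ) + 1) * ‖u‖) := by
      have h3 : (fun x : Ed d => C * ‖df (st n j) u x‖ + K / ((n : ℝ) + 1) * ‖u x‖) =
          (fun x : Ed d => C * ‖df (st n j) u x‖) + fun x => K / ((n : ℝ) + 1) * ‖u x‖ := rfl
      rw [h3]
      refine (eLpNorm_add_le ((Lp.aestronglyMeasurable _).norm.const_mul _)
        ((Lp.aestronglyMeasurable _).norm.const_mul _) (by norm_num)).trans ?_
      rw [ENNReal.ofReal_add (by positivity) (by positivity)]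
      refine add_le_add ?_ ?_
      · have h4 := eLpNorm_const_smul (μ := (volume : Measure (Ed d))) C (fun x : Ed d => ‖df (st n j) u x‖) 2
        have h5 : (fun x : Ed d => C * ‖df (st n j) u x‖) = C • fun x : Ed d => ‖df (st n j) u x‖ := rfl
        rw [h5, h4, eLpNorm_norm, eLpNorm_lp, ENNReal.ofReal_mul hC, Real.enorm_of_nonneg hC]
      · have hc : 0 ≤ K / ((n : ℝ) + 1) := by positivity
        have h4 := eLpNorm_const_smul (μ := (volume : Measure (Ed d))) (K / ((n : ℝ) + 1)) (fun x : Ed d => ‖u x‖) 2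
        have h5 : (fun x : Ed d => K / ((n : ℝ) + 1) * ‖u x‖) = (K / ((n : ℝ) + 1)) • fun x : Ed d => ‖u x‖ := rfl
        rw [h5, h4, eLpNorm_norm, eLpNorm_lp, ENNReal.ofReal_mul hc, Real.enorm_of_nonneg hc]
    rw [Lp.norm_def]
    refine ENNReal.toReal_le_of_le_ofReal (by positivity) (le_trans ?_ h2)
    apply eLpNorm_mono_ae
    have h6 := (measurePreserving_add_right volume (st n j : Ed d)).quasiMeasurePreserving.ae hw
    filter_upwards [df_coe (st n j) w, df_coe (st n j) u, hw, h6] with x h7 h8 h9 h10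
    rw [h7, h8, h9, h10, Real.norm_of_nonneg (by positivity)]
    have h11 : (ψ (x + st n j) : ℂ) * u (x + st n j) - (ψ x : ℂ) * u x =
        (ψ (x + st n j) : ℂ) * (u (x + st n j) - u x) + ((ψ (x + st n j) - ψ x : ℝ) : ℂ) * u x := by
      push_cast; ring
    rw [h11]
    refine (norm_add_le _ _).trans ?_
    rw [norm_mul, norm_mul, Complex.norm_real, Complex.norm_real, Real.norm_eq_abs,
      Real.norm_eq_abs]
    have h12 := hK x (x + st n j)
    rw [add_sub_cancel_left, st_norm, mul_one_div] at h12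
    have h13 := hψC (x + st n j)
    gcongr
  have h2 : ((n : ℝ) + 1) * ‖df (st n j) u‖ ≤ √((dirichlet u u).re) := by
    apply Real.le_sqrt_of_sq_le
    exact df_bound u hu n j
  calc ((n : ℝ) + 1) * ‖df (st n j) w‖
      ≤ ((n : ℝ) + 1) * (C * ‖df (st n j) u‖ + K / ((n : ℝ) + 1) * ‖u‖) := by gcongr
    _ = C * (((n : ℝ) + 1) * ‖df (st n j) u‖) + K * ‖u‖ := by field_simp
    _ ≤ _ := by gcongr

theorem agmon_pt (a b : ℂ) (p q : ℝ) :
    -((q - p) ^ 2 * ((‖a‖ ^ 2 + ‖b‖ ^ 2) / 2)) ≤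
      ((b - a) * (starRingEnd ℂ) (((q ^ 2 : ℝ) : ℂ) * b - ((p ^ 2 : ℝ) : ℂ) * a)).re := by
  have h1 : ‖a‖ ^ 2 = a.re ^ 2 + a.im ^ 2 := by
    rw [← Complex.normSq_eq_norm_sq, Complex.normSq_apply]; ring
  have h2 : ‖b‖ ^ 2 = b.re ^ 2 + b.im ^ 2 := by
    rw [← Complex.normSq_eq_norm_sq, Complex.normSq_apply]; ring
  rw [h1, h2, Complex.mul_re, Complex.conj_re, Complex.conj_im]
  simp only [Complex.sub_re, Complex.sub_im, Complex.mul_re, Complex.mul_im, Complex.ofReal_re,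
    Complex.ofReal_im, zero_mul, sub_zero, add_zero]
  nlinarith [sq_nonneg (q * b.re - p * a.re), sq_nonneg (q * b.im - p * a.im),
    mul_nonneg (sq_nonneg (q - p)) (sq_nonneg (a.re - b.re)),
    mul_nonneg (sq_nonneg (q - p)) (sq_nonneg (a.im - b.im))]

/-- the quadratic form inequality behind Agmon estimates -/
theorem agmon_form {d : ℕ} (u : L2d d) (hu : InH1 u) (φ : Ed d → ℝ) (C K : ℝ) (hC : 0 ≤ C)
    (hK0 : 0 ≤ K) (hφ0 : ∀ x, 0 ≤ φ x)
    (hφC : ∀ x, φ x ≤ C) (hK : ∀ x y, |φ y - φ x| ≤ K * ‖y - x‖) (Z : Set (Ed d))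
    (L t0 : ℝ) (ht0 : 0 < t0)
    (hloc : ∀ x y, ‖y - x‖ ≤ t0 → φ y = φ x ∨ (x ∈ Z ∧ y ∈ Z ∧
      |φ y - φ x| ≤ 2 * L * ‖y - x‖ * φ x ∧ |φ y - φ x| ≤ 2 * L * ‖y - x‖ * φ y))
    (w z : L2d d) (hw : (w : Ed d → ℂ) =ᵐ[volume] fun x => ((φ x ^ 2 : ℝ) : ℂ) * u x)
    (hz : (z : Ed d → ℂ) =ᵐ[volume] fun x => Z.indicator (fun x => ((φ x : ℝ) : ℂ) * u x) x) :
    InH1 w ∧ -(4 * d * L ^ 2) * ‖z‖ ^ 2 ≤ (dirichlet u w).re := by
  have hwH : InH1 w := by
    refine inH1_mul u hu (fun x => φ x ^ 2) (C ^ 2) (2 * C * K) (by positivity) (by positivity)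
      (fun x => ?_) (fun x y => ?_) w hw
    · rw [abs_of_nonneg (sq_nonneg _)]
      exact pow_le_pow_left₀ (hφ0 x) (hφC x) 2
    · have h1 : φ y ^ 2 - φ x ^ 2 = (φ y + φ x) * (φ y - φ x) := by ring
      rw [h1, abs_mul, abs_of_nonneg (add_nonneg (hφ0 y) (hφ0 x))]
      have h2 := hφC x
      have h3 := hφC y
      calc (φ y + φ x) * |φ y - φ x| ≤ (2 * C) * (K * ‖y - x‖) := by
            refine mul_le_mul (by linarith) (hK x y) (abs_nonneg _) (by positivity)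
        _ = _ := by ring
  refine ⟨hwH, ?_⟩
  have h1 := dirichlet_tendsto u w hu hwH
  have h2 := (Complex.continuous_re.tendsto _).comp h1
  refine ge_of_tendsto h2 ?_
  have hev : ∀ᶠ n : ℕ in Filter.atTop, 1 / ((n : ℝ) + 1) ≤ t0 :=
    (tendsto_one_div_add_atTop_nhds_zero_nat (𝕜 := ℝ)).eventually_le_const ht0
  filter_upwards [hev] with n hn
  rw [Function.comp_apply, Complex.re_sum]
  have hterm : ∀ j : Fin d, -(4 * L ^ 2) * ‖z‖ ^ 2 ≤
      ((((n : ℝ) : ℂ) + 1) ^ 2 * ⟪df (st n j) w, df (st n j) u⟫_ℂ).re := by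
    intro j
    have e1 : ((((n : ℝ) : ℂ) + 1) ^ 2 * ⟪df (st n j) w, df (st n j) u⟫_ℂ).re =
        ((n : ℝ) + 1) ^ 2 * (⟪df (st n j) w, df (st n j) u⟫_ℂ).re := by
      have : (((n : ℝ) : ℂ) + 1) ^ 2 = ((((n : ℝ) + 1) ^ 2 : ℝ) : ℂ) := by push_cast; ring
      rw [this, Complex.re_ofReal_mul]
    have e2 : -(4 * L ^ 2 * (1 / ((n : ℝ) + 1)) ^ 2) * ‖z‖ ^ 2 ≤
        (⟪df (st n j) w, df (st n j) u⟫_ℂ).re := by
      have hi := K31.isHu_zero_int2 (df (st n j) u) (df (st n j) w)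
      have e3 : (⟪df (st n j) w, df (st n j) u⟫_ℂ).re =
          ∫ x : Ed d, (df (st n j) u x * (starRingEnd ℂ) (df (st n j) w x)).re := by
        rw [L2.inner_def]
        have e4 : (fun x : Ed d => ⟪df (st n j) w x, df (st n j) u x⟫_ℂ) =
            fun x => df (st n j) u x * (starRingEnd ℂ) (df (st n j) w x) := by
          funext x
          rw [RCLike.inner_apply]
        rw [e4, ← RCLike.re_eq_complex_re, ← integral_re hi]
      have e5 : ‖z‖ ^ 2 = ∫ x : Ed d, ‖sh (st n j) z x‖ ^ 2 := by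
        rw [← norm_sq_int, LinearIsometry.norm_map]
      have e6 : -(4 * L ^ 2 * (1 / ((n : ℝ) + 1)) ^ 2) * ‖z‖ ^ 2 =
          ∫ x : Ed d, -(2 * L ^ 2 * (1 / ((n : ℝ) + 1)) ^ 2) * (‖z x‖ ^ 2 + ‖sh (st n j) z x‖ ^ 2) := by
        rw [integral_const_mul, integral_add (int_sq _) (int_sq _), ← e5, ← norm_sq_int]
        ring
      rw [e3, e6]
      refine integral_mono_ae (((int_sq _).add (int_sq _)).const_mul _) hi.re ?_
      have h6 := (measurePreserving_add_right volume (st n j : Ed d)).quasiMeasurePreserving.ae hw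
      have h7 := (measurePreserving_add_right volume (st n j : Ed d)).quasiMeasurePreserving.ae hz
      filter_upwards [df_coe (st n j) w, df_coe (st n j) u, hw, h6, hz, h7, sh_coe (st n j) z]
        with x h8 h9 h10 h11 h12 h13 h14
      rw [h8, h9, h10, h11, h14, h12, h13]
      have h15 := agmon_pt (u x) (u (x + st n j)) (φ x) (φ (x + st n j))
      refine le_trans ?_ h15
      have hst : ‖(x + st n j) - x‖ = 1 / ((n : ℝ) + 1) := by
        rw [add_sub_cancel_left, st_norm]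
      rcases hloc x (x + st n j) (by rw [hst]; exact hn) with h | ⟨hx, hy, h16, h17⟩
      · rw [h, sub_self]
        have : 0 ≤ (2 * L ^ 2 * (1 / ((n : ℝ) + 1)) ^ 2) *
          (‖Z.indicator (fun x => ((φ x : ℝ) : ℂ) * u x) x‖ ^ 2 +
          ‖Z.indicator (fun x => ((φ x : ℝ) : ℂ) * u x) (x + st n j)‖ ^ 2) := by positivity
        nlinarith
      · rw [Set.indicator_of_mem hx, Set.indicator_of_mem hy, norm_mul, norm_mul,
          Complex.norm_real, Complex.norm_real, Real.norm_of_nonneg (hφ0 x),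
          Real.norm_of_nonneg (hφ0 _), hst] at *
        obtain ⟨t, ht⟩ : ∃ t : ℝ, t = 1 / ((n : ℝ) + 1) := ⟨_, rfl⟩
        rw [← ht] at h16 h17 ⊢
        obtain ⟨p, hp⟩ : ∃ p, p = φ x := ⟨_, rfl⟩
        obtain ⟨q, hq⟩ : ∃ q, q = φ (x + st n j) := ⟨_, rfl⟩
        rw [← hp, ← hq] at h16 h17 ⊢
        have h18 : (q - p) ^ 2 ≤ (2 * L * t * p) ^ 2 := by
          rw [← sq_abs (q - p)]
          exact pow_le_pow_left₀ (abs_nonneg _) h16 2
        have h19 : (q - p) ^ 2 ≤ (2 * L * t * q) ^ 2 := by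
          rw [← sq_abs (q - p)]
          exact pow_le_pow_left₀ (abs_nonneg _) h17 2
        have h20 : (q - p) ^ 2 * ‖u x‖ ^ 2 ≤ (2 * L * t * p) ^ 2 * ‖u x‖ ^ 2 := by gcongr
        have h21 : (q - p) ^ 2 * ‖u (x + st n j)‖ ^ 2 ≤ (2 * L * t * q) ^ 2 * ‖u (x + st n j)‖ ^ 2 := by
          gcongr
        nlinarith
    rw [e1]
    calc -(4 * L ^ 2) * ‖z‖ ^ 2
        = ((n : ℝ) + 1) ^ 2 * (-(4 * L ^ 2 * (1 / ((n : ℝ) + 1)) ^ 2) * ‖z‖ ^ 2) := by
          field_simp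
      _ ≤ _ := by gcongr
  calc -(4 * d * L ^ 2) * ‖z‖ ^ 2 = ∑ j : Fin d, -(4 * L ^ 2) * ‖z‖ ^ 2 := by
        rw [Finset.sum_const, Finset.card_univ, Fintype.card_fin, nsmul_eq_mul]
        ring
    _ ≤ _ := Finset.sum_le_sum fun j _ => hterm j

end Pool.Agent.H3R2.ES
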