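import Mathlib
import Pool.Agent.H3R2.ES.Agmon

namespace Pool.Agent.H3R2.ES

open MeasureTheory ENNReal FourierTransform Pool.Agent.Helper209.CX
open scoped InnerProductSpace SchwartzMap

theorem exp_diff (s t : ℝ) (h : |t - s| ≤ 1) :
    |Real.exp t - Real.exp s| ≤ 2 * |t - s| * Real.exp s := by
  have h1 : Real.exp t - Real.exp s = Real.exp s * (Real.exp (t - s) - 1) := by
    rw [mul_sub, ← Real.exp_add]; ring_nf
  rw [h1, abs_mul, abs_of_pos (Real.exp_pos s)]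
  have h2 : |Real.exp (t - s) - 1| ≤ 2 * |t - s| := by
    have := Real.abs_exp_sub_one_le h
    exact this
  nlinarith [Real.exp_pos s]

/-- the weight exponent -/
noncomputable def Fw {d : ℕ} (β r1 r2 : ℝ) (x : Ed d) : ℝ :=
  β * max 0 (min 1 ((‖x‖ - r1) / (r2 - r1)))

theorem Fw_lip {d : ℕ} (β r1 r2 : ℝ) (hβ : 0 ≤ β) (h12 : r1 < r2) (x y : Ed d) :
    |Fw β r1 r2 y - Fw β r1 r2 x| ≤ β / (r2 - r1) * ‖y - x‖ := by
  have h0 : 0 < r2 - r1 := by linarith
  unfold Fw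
  rw [← mul_sub, abs_mul, abs_of_nonneg hβ]
  have h1 : |max 0 (min 1 ((‖y‖ - r1) / (r2 - r1))) - max 0 (min 1 ((‖x‖ - r1) / (r2 - r1)))| ≤
      |(‖y‖ - r1) / (r2 - r1) - (‖x‖ - r1) / (r2 - r1)| := by
    refine (abs_max_sub_max_le_max _ _ _ _).trans ?_
    rw [sub_self, abs_zero, max_eq_right (abs_nonneg _)]
    refine (abs_min_sub_min_le_max _ _ _ _).trans ?_
    rw [sub_self, abs_zero, max_eq_right (abs_nonneg _)]
  have h2 : |(‖y‖ - r1) / (r2 - r1) - (‖x‖ - r1) / (r2 - r1)| ≤ ‖y - x‖ / (r2 - r1) := by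
    rw [← sub_div, abs_div, abs_of_pos h0]
    have : ‖y‖ - r1 - (‖x‖ - r1) = ‖y‖ - ‖x‖ := by ring
    rw [this]
    gcongr
    exact abs_norm_sub_norm_le y x
  calc β * _ ≤ β * (‖y - x‖ / (r2 - r1)) := by gcongr; exact h1.trans h2
    _ = _ := by ring

theorem Fw_low {d : ℕ} (β r1 r2 : ℝ) (h12 : r1 < r2) (x : Ed d) (hx : ‖x‖ ≤ r1) :
    Fw β r1 r2 x = 0 := by
  have h0 : 0 < r2 - r1 := by linarith
  unfold Fw
  have h1 : (‖x‖ - r1) / (r2 - r1) ≤ 0 := div_nonpos_of_nonpos_of_nonneg (by linarith) h0.le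
  rw [max_eq_left ((min_le_right _ _).trans h1), mul_zero]

theorem Fw_high {d : ℕ} (β r1 r2 : ℝ) (h12 : r1 < r2) (x : Ed d) (hx : r2 ≤ ‖x‖) :
    Fw β r1 r2 x = β := by
  have h0 : 0 < r2 - r1 := by linarith
  unfold Fw
  have h1 : 1 ≤ (‖x‖ - r1) / (r2 - r1) := by rw [one_le_div h0]; linarith
  rw [min_eq_left h1, max_eq_right zero_le_one, mul_one]

theorem Fw_nonneg {d : ℕ} (β r1 r2 : ℝ) (hβ : 0 ≤ β) (x : Ed d) : 0 ≤ Fw β r1 r2 x :=
  mul_nonneg hβ (le_max_left _ _)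

theorem Fw_le {d : ℕ} (β r1 r2 : ℝ) (hβ : 0 ≤ β) (x : Ed d) : Fw β r1 r2 x ≤ β := by
  unfold Fw
  have : max 0 (min 1 ((‖x‖ - r1) / (r2 - r1))) ≤ 1 := max_le zero_le_one (min_le_left _ _)
  nlinarith

theorem Fw_meas {d : ℕ} (β r1 r2 : ℝ) : Measurable (Fw β r1 r2 : Ed d → ℝ) := by
  unfold Fw; fun_prop

set_option maxHeartbeats 4000000 in
theorem agmon_est {d : ℕ} (U : Ed d → ℝ) (hU0 : ∀ x, 0 ≤ U x)
    (G χ M S : L2d d →L[ℂ] L2d d)
    (hG : ∀ x, ((𝓕 (G x) : L2d d) : Ed d → ℂ) =ᵐ[volume] fun ξ => (wt ξ : ℂ) * (𝓕 x : L2d d) ξ)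
    (hχ : ∀ f : L2d d, (χ f : Ed d → ℂ) =ᵐ[volume]
      fun x => (Metric.ball (0 : Ed d) 1).indicator (fun _ => (1 : ℂ)) x * f x)
    (hM : ∀ f : L2d d, (M f : Ed d → ℂ) =ᵐ[volume] fun x => ((√(U x) : ℝ) : ℂ) * (G f) x)
    (h : ℝ) (hh : 0 < h)
    (hS : ∀ x y, ⟪y, S x⟫_ℂ = ((h ^ 2 : ℝ) : ℂ) * (⟪y, x⟫_ℂ - ⟪G y, G x⟫_ℂ) + ⟪M y, M x⟫_ℂ +
      ⟪G y, G x⟫_ℂ)
    (r0 r1 r2 α Λ μ : ℝ) (h01 : r0 < r1) (h12 : r1 < r2) (h23 : r2 < 1)
    (hα0 : 0 ≤ α) (hα : 4 * d * α ^ 2 ≤ (r2 - r1) ^ 2) (hμ0 : 0 ≤ μ) (hμΛ : μ ≤ Λ)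
    (hU : ∀ x : Ed d, r0 ≤ ‖x‖ → ‖x‖ < 1 → Λ + 1 ≤ U x) (g : L2d d)
    (hg : S g = (((1 + μ : ℝ)) : ℂ) • G (χ (G g))) (hg1 : ‖χ (G g)‖ = 1) :
    ‖G g - χ (G g)‖ ^ 2 ≤ Λ * Real.exp (-(2 * α / h)) := by
  classical
  obtain ⟨u, hu⟩ : ∃ u, u = G g := ⟨_, rfl⟩
  have huH : InH1 u := by rw [hu]; exact G_inH1 G hG g
  have h0 : 0 < r2 - r1 := by linarith
  obtain ⟨β, hβ⟩ : ∃ β, β = α / h := ⟨_, rfl⟩
  have hβ0 : 0 ≤ β := by rw [hβ]; positivity
  obtain ⟨L, hL⟩ : ∃ L, L = β / (r2 - r1) := ⟨_, rfl⟩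
  have hL0 : 0 ≤ L := by rw [hL]; positivity
  obtain ⟨C, hC⟩ : ∃ C, C = Real.exp β := ⟨_, rfl⟩
  have hC0 : 0 < C := by rw [hC]; exact Real.exp_pos _
  let φ : Ed d → ℝ := fun x => Real.exp (Fw β r1 r2 x)
  have hφdef : ∀ x, φ x = Real.exp (Fw β r1 r2 x) := fun x => rfl
  have hφpos : ∀ x, 0 < φ x := fun x => Real.exp_pos _
  have hφC : ∀ x, φ x ≤ C := fun x => by
    rw [hC]; exact Real.exp_le_exp.2 (Fw_le β r1 r2 hβ0 x)
  have hφm : Measurable φ := Real.measurable_exp.comp (Fw_meas β r1 r2)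
  have hlip : ∀ x y : Ed d, |φ y - φ x| ≤ C * L * ‖y - x‖ := by
    intro x y
    have h1 := Fw_lip (d := d) β r1 r2 hβ0 h12 x y
    rw [← hL] at h1
    -- mean value
    have h2 : |φ y - φ x| ≤ C * |Fw β r1 r2 y - Fw β r1 r2 x| := by
      have h3 : ∀ s t : ℝ, s ≤ t → t ≤ β → Real.exp t - Real.exp s ≤ C * (t - s) := by
        intro s t hst ht
        have h4 : Real.exp t - Real.exp s ≤ Real.exp t * (t - s) := by
          have h5 := Real.add_one_le_exp (s - t)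
          have h6 : Real.exp s = Real.exp t * Real.exp (s - t) := by
            rw [← Real.exp_add]; ring_nf
          rw [h6]
          nlinarith [Real.exp_pos t]
        refine h4.trans ?_
        have : Real.exp t ≤ C := by rw [hC]; exact Real.exp_le_exp.2 ht
        have h7 : 0 ≤ t - s := by linarith
        gcongr
      rcases le_total (Fw β r1 r2 x) (Fw β r1 r2 y) with h4 | h4
      · rw [abs_of_nonneg (sub_nonneg.2 h4), abs_of_nonneg (sub_nonneg.2 (Real.exp_le_exp.2 h4))]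
        exact h3 _ _ h4 (Fw_le β r1 r2 hβ0 y)
      · rw [abs_sub_comm, abs_sub_comm (Fw β r1 r2 y), abs_of_nonneg (sub_nonneg.2 h4),
          abs_of_nonneg (sub_nonneg.2 (Real.exp_le_exp.2 h4))]
        exact h3 _ _ h4 (Fw_le β r1 r2 hβ0 x)
    calc |φ y - φ x| ≤ C * |Fw β r1 r2 y - Fw β r1 r2 x| := h2
      _ ≤ C * (L * ‖y - x‖) := by gcongr
      _ = _ := by ring
  let Z : Set (Ed d) := {x | r0 ≤ ‖x‖ ∧ ‖x‖ < 1}
  have hZm : MeasurableSet Z :=
    (measurableSet_le measurable_const measurable_norm).inter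
      (measurableSet_lt measurable_norm measurable_const)
  obtain ⟨t0, ht0⟩ : ∃ t0, t0 = min (min (r1 - r0) (1 - r2)) (1 / (L + 1)) := ⟨_, rfl⟩
  have ht0p : 0 < t0 := by
    rw [ht0]
    exact lt_min (lt_min (by linarith) (by linarith)) (by positivity)
  have ht1 : t0 ≤ r1 - r0 := by rw [ht0]; exact (min_le_left _ _).trans (min_le_left _ _)
  have ht2 : t0 ≤ 1 - r2 := by rw [ht0]; exact (min_le_left _ _).trans (min_le_right _ _)
  have ht3 : L * t0 ≤ 1 := by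
    have : t0 ≤ 1 / (L + 1) := by rw [ht0]; exact min_le_right _ _
    calc L * t0 ≤ L * (1 / (L + 1)) := by gcongr
      _ ≤ 1 := by rw [mul_one_div, div_le_one (by linarith)]; linarith
  have hmemZ : ∀ x y : Ed d, ‖y - x‖ ≤ t0 → φ y ≠ φ x → x ∈ Z := by
    intro x y hxy hne
    have h1 : |‖y‖ - ‖x‖| ≤ t0 := (abs_norm_sub_norm_le y x).trans hxy
    rw [abs_le] at h1
    refine ⟨?_, ?_⟩
    · by_contra hcon
      push Not at hcon
      apply hne
      rw [hφdef, hφdef, Fw_low β r1 r2 h12 x (by linarith), Fw_low β r1 r2 h12 y (by linarith)]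
    · by_contra hcon
      push Not at hcon
      apply hne
      rw [hφdef, hφdef, Fw_high β r1 r2 h12 x (by linarith), Fw_high β r1 r2 h12 y (by linarith)]
  have hloc1 : ∀ x y : Ed d, ‖y - x‖ ≤ t0 → |φ y - φ x| ≤ 2 * L * ‖y - x‖ * φ x := by
    intro x y hxy
    have h1 := Fw_lip (d := d) β r1 r2 hβ0 h12 x y
    rw [← hL] at h1
    have h2 : |Fw β r1 r2 y - Fw β r1 r2 x| ≤ 1 :=
      h1.trans ((mul_le_mul_of_nonneg_left hxy hL0).trans ht3)
    have h3 := exp_diff _ _ h2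
    refine h3.trans ?_
    have := hφpos x
    rw [hφdef] at this ⊢
    calc 2 * |Fw β r1 r2 y - Fw β r1 r2 x| * Real.exp (Fw β r1 r2 x)
        ≤ 2 * (L * ‖y - x‖) * Real.exp (Fw β r1 r2 x) := by gcongr
      _ = _ := by ring
  obtain ⟨Φ2, hΦ2, -⟩ := exists_mulOp (d := d) (fun x => ((φ x ^ 2 : ℝ) : ℂ))
    (Complex.measurable_ofReal.comp (hφm.pow_const 2)) (C ^ 2) (by positivity) (fun x => by
      rw [Complex.norm_real, Real.norm_of_nonneg (sq_nonneg _)]
      exact pow_le_pow_left₀ (hφpos x).le (hφC x) 2)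
  obtain ⟨ΦZ, hΦZ, -⟩ := exists_mulOp (d := d) (fun x => Z.indicator (fun x => ((φ x : ℝ) : ℂ)) x)
    ((Complex.measurable_ofReal.comp hφm).indicator hZm) C hC0.le (fun x => by
      by_cases hx : x ∈ Z
      · rw [Set.indicator_of_mem hx, Complex.norm_real, Real.norm_of_nonneg (hφpos x).le]
        exact hφC x
      · rw [Set.indicator_of_notMem hx, norm_zero]; exact hC0.le)
  have hz : (ΦZ u : Ed d → ℂ) =ᵐ[volume]
      fun x => Z.indicator (fun x => ((φ x : ℝ) : ℂ) * u x) x := by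
    filter_upwards [hΦZ u] with x hx
    rw [hx]
    by_cases hxZ : x ∈ Z
    · rw [Set.indicator_of_mem hxZ, Set.indicator_of_mem hxZ]
    · rw [Set.indicator_of_notMem hxZ, Set.indicator_of_notMem hxZ, zero_mul]
  obtain ⟨hwH, hform⟩ := agmon_form u huH φ C (C * L) hC0.le (by positivity)
    (fun x => (hφpos x).le) hφC hlip Z L t0 ht0p (fun x y hxy => by
      by_cases hne : φ y = φ x
      · exact Or.inl hne
      · refine Or.inr ⟨hmemZ x y hxy hne, hmemZ y x (by rw [norm_sub_rev]; exact hxy)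
          (fun h => hne h.symm), hloc1 x y hxy, ?_⟩
        have := hloc1 y x (by rw [norm_sub_rev]; exact hxy)
        rw [abs_sub_comm, norm_sub_rev]
        exact this) (Φ2 u) (ΦZ u) (hΦ2 u) hz
  obtain ⟨y, hy⟩ := G_surj G hG (Φ2 u) hwH
  -- the real function p
  obtain ⟨p, hp⟩ : ∃ p : Ed d → ℝ, p = fun x => φ x ^ 2 * ‖u x‖ ^ 2 := ⟨_, rfl⟩
  have hp0 : ∀ x, 0 ≤ p x := fun x => by rw [hp]; positivity
  have hpw : (fun x => (starRingEnd ℂ) ((Φ2 u) x) * u x) =ᵐ[volume] fun x => ((p x : ℝ) : ℂ) := by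
    filter_upwards [hΦ2 u] with x hx
    rw [hx, hp, map_mul, Complex.conj_ofReal, mul_assoc, mul_comm ((starRingEnd ℂ) (u x)),
      Complex.mul_conj, Complex.normSq_eq_norm_sq]
    push_cast
    ring
  have hpi : Integrable p volume := by
    have h1 := K31.isHu_zero_int2 u (Φ2 u)
    have h2 : Integrable (fun x => ((p x : ℝ) : ℂ)) volume := by
      refine h1.congr ?_
      filter_upwards [hpw] with x hx
      rw [← hx]; ring
    refine h2.re.congr (Filter.Eventually.of_forall fun x => ?_)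
    exact Complex.ofReal_re _
  obtain ⟨B, hB⟩ : ∃ B, B = Metric.ball (0 : Ed d) 1 := ⟨_, rfl⟩
  have hBm : MeasurableSet B := by rw [hB]; exact measurableSet_ball
  rw [← hB] at hχ
  have hyn : ∀ f : L2d d, ⟪y, G f⟫_ℂ = ⟪Φ2 u, f⟫_ℂ := by
    intro f
    rw [← G_symm G hG, hy]
  -- pairing with χ u
  have hBp : Integrable (fun x => B.indicator p x) volume := hpi.indicator hBm
  have e1 : ⟪y, S g⟫_ℂ = ((1 + μ : ℝ) : ℂ) * ((∫ x, B.indicator p x : ℝ) : ℂ) := by
    rw [hg, inner_smul_right, hyn, ← hu, L2.inner_def, ← integral_complex_ofReal]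
    congr 1
    refine integral_congr_ae ?_
    filter_upwards [hpw, hχ u] with x h1 h2
    rw [RCLike.inner_apply, h2]
    by_cases hx : x ∈ B
    · rw [Set.indicator_of_mem hx, Set.indicator_of_mem hx, one_mul, mul_comm, h1]
    · rw [Set.indicator_of_notMem hx, Set.indicator_of_notMem hx]
      simp
  have e2 : ⟪G y, G g⟫_ℂ = ((∫ x, p x : ℝ) : ℂ) := by
    rw [hy, ← hu, L2.inner_def, ← integral_complex_ofReal]
    refine integral_congr_ae ?_
    filter_upwards [hpw] with x h1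
    rw [RCLike.inner_apply, mul_comm, h1]
  have hMyg : (fun x => ⟪M y x, M g x⟫_ℂ) =ᵐ[volume] fun x => ((U x * p x : ℝ) : ℂ) := by
    have h3 := hM y
    rw [hy] at h3
    have h4 := hM g
    rw [← hu] at h4
    filter_upwards [hpw, h3, h4] with x h1 h5 h6
    rw [RCLike.inner_apply, h5, h6, map_mul, Complex.conj_ofReal]
    have h7 : ((√(U x) : ℝ) : ℂ) * ((√(U x) : ℝ) : ℂ) = ((U x : ℝ) : ℂ) := by
      rw [← Complex.ofReal_mul, Real.mul_self_sqrt (hU0 x)]
    rw [Complex.ofReal_mul, ← h1, ← h7]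
    ring
  have hUpi : Integrable (fun x => U x * p x) volume := by
    have h1 := (L2.integrable_inner (𝕜 := ℂ) (M y) (M g)).congr hMyg
    refine h1.re.congr (Filter.Eventually.of_forall fun x => ?_)
    exact Complex.ofReal_re _
  have e3 : ⟪M y, M g⟫_ℂ = ((∫ x, U x * p x : ℝ) : ℂ) := by
    rw [L2.inner_def, ← integral_complex_ofReal]
    exact integral_congr_ae hMyg
  have e4 := hS g y
  rw [e1, e2, e3] at e4
  have e5 : ⟪y, g⟫_ℂ - ((∫ x, p x : ℝ) : ℂ) = dirichlet u (Φ2 u) := by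
    rw [← e2, ← G_dir G hG g y, hy, hu]
  rw [e5] at e4
  have e6 := congrArg Complex.re e4
  rw [Complex.re_ofReal_mul, Complex.ofReal_re, Complex.add_re, Complex.add_re,
    Complex.re_ofReal_mul, Complex.ofReal_re, Complex.ofReal_re] at e6
  -- norm of ΦZ u
  have hZp : Integrable (fun x => Z.indicator p x) volume := hpi.indicator hZm
  have e7 : ‖ΦZ u‖ ^ 2 = ∫ x, Z.indicator p x := by
    rw [norm_sq_int]
    refine integral_congr_ae ?_
    filter_upwards [hz] with x h1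
    rw [h1]
    by_cases hx : x ∈ Z
    · rw [Set.indicator_of_mem hx, Set.indicator_of_mem hx, norm_mul, Complex.norm_real,
        Real.norm_of_nonneg (hφpos x).le, hp]
      ring
    · rw [Set.indicator_of_notMem hx, Set.indicator_of_notMem hx]
      simp
  have e8 : ∫ x, Z.indicator p x * (Λ + 1) ≤ ∫ x, U x * p x := by
    refine integral_mono (hZp.mul_const _) hUpi fun x => ?_
    simp only
    by_cases hx : x ∈ Z
    · rw [Set.indicator_of_mem hx, mul_comm]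
      exact mul_le_mul_of_nonneg_right (hU x hx.1 hx.2) (hp0 x)
    · rw [Set.indicator_of_notMem hx, zero_mul]
      exact mul_nonneg (hU0 x) (hp0 x)
  rw [integral_mul_const] at e8
  have hκ : h ^ 2 * (4 * d * L ^ 2) ≤ 1 := by
    rw [hL, hβ]
    have : h ^ 2 * (4 * d * (α / h / (r2 - r1)) ^ 2) = 4 * d * α ^ 2 / (r2 - r1) ^ 2 := by
      field_simp
    rw [this, div_le_one (by positivity)]
    exact hα
  have hZ0 : 0 ≤ ∫ x, Z.indicator p x :=
    integral_nonneg fun x => Set.indicator_nonneg (fun x _ => hp0 x) x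
  have e9 : -(∫ x, Z.indicator p x) ≤ h ^ 2 * (dirichlet u (Φ2 u)).re := by
    rw [e7] at hform
    calc -(∫ x, Z.indicator p x) ≤ -(h ^ 2 * (4 * d * L ^ 2) * ∫ x, Z.indicator p x) := by
          rw [neg_le_neg_iff]
          nlinarith
      _ = h ^ 2 * (-(4 * d * L ^ 2) * ∫ x, Z.indicator p x) := by ring
      _ ≤ _ := by gcongr
  -- outside
  have e10 : ∫ x, (p x - B.indicator p x) ≤ Λ * ∫ x, (B.indicator p x - Z.indicator p x) := by
    rw [integral_sub hpi hBp, integral_sub hBp hZp]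
    have hZB : ∫ x, Z.indicator p x ≤ ∫ x, B.indicator p x := by
      refine integral_mono hZp hBp fun x => ?_
      simp only
      refine Set.indicator_le_indicator_of_subset ?_ hp0 x
      intro x hx
      rw [hB, mem_ball_zero_iff]
      exact hx.2
    nlinarith
  have e11 : ∫ x, (B.indicator p x - Z.indicator p x) ≤ ‖χ u‖ ^ 2 := by
    rw [norm_sq_int]
    refine integral_mono_ae (hBp.sub hZp) (int_sq _) ?_
    filter_upwards [hχ u] with x h1
    rw [h1]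
    by_cases hx : x ∈ B
    · rw [Set.indicator_of_mem hx, Set.indicator_of_mem hx, one_mul]
      by_cases hxZ : x ∈ Z
      · rw [Set.indicator_of_mem hxZ, sub_self]; positivity
      · rw [Set.indicator_of_notMem hxZ, sub_zero, hp]
        have hx1 : ‖x‖ < 1 := by rw [hB, mem_ball_zero_iff] at hx; exact hx
        have hx2 : ‖x‖ ≤ r1 := by
          have : ¬ (r0 ≤ ‖x‖ ∧ ‖x‖ < 1) := hxZ
          push Not at this
          by_contra hcon
          push Not at hcon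
          exact absurd (this (by linarith)) (not_le.2 hx1)
        simp only
        rw [hφdef, Fw_low β r1 r2 h12 x hx2, Real.exp_zero]
        norm_num
    · have hxZ : x ∉ Z := fun hxZ => hx (by rw [hB, mem_ball_zero_iff]; exact hxZ.2)
      rw [Set.indicator_of_notMem hx, Set.indicator_of_notMem hxZ, sub_self]
      positivity
  have e12 : C ^ 2 * ‖u - χ u‖ ^ 2 ≤ ∫ x, (p x - B.indicator p x) := by
    rw [norm_sq_int, ← integral_const_mul]
    refine integral_mono_ae ((int_sq _).const_mul _) (hpi.sub hBp) ?_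
    filter_upwards [hχ u, Lp.coeFn_sub u (χ u)] with x h1 h2
    rw [h2, Pi.sub_apply, h1]
    by_cases hx : x ∈ B
    · rw [Set.indicator_of_mem hx, Set.indicator_of_mem hx, one_mul, sub_self, sub_self,
        norm_zero]
      simp
    · rw [Set.indicator_of_notMem hx, Set.indicator_of_notMem hx, zero_mul, sub_zero, sub_zero, hp]
      have hx1 : r2 ≤ ‖x‖ := by
        rw [hB, mem_ball_zero_iff] at hx
        linarith
      simp only
      rw [hφdef, Fw_high β r1 r2 h12 x hx1, hC]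
  rw [← hu] at hg1 ⊢
  rw [hg1] at e11
  have hΛ0 : 0 ≤ Λ := hμ0.trans hμΛ
  have e13 : C ^ 2 * ‖u - χ u‖ ^ 2 ≤ Λ := by
    refine e12.trans (e10.trans ?_)
    calc Λ * _ ≤ Λ * 1 ^ 2 := by gcongr
      _ = Λ := by ring
  have e14 : Real.exp (-(2 * α / h)) * C ^ 2 = 1 := by
    rw [hC, hβ, ← Real.exp_nat_mul, ← Real.exp_add]
    have : -(2 * α / h) + ((2 : ℕ) : ℝ) * (α / h) = 0 := by push_cast; ring
    rw [this, Real.exp_zero]
  calc ‖u - χ u‖ ^ 2 = Real.exp (-(2 * α / h)) * (C ^ 2 * ‖u - χ u‖ ^ 2) := by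
        rw [← mul_assoc, e14, one_mul]
    _ ≤ Real.exp (-(2 * α / h)) * Λ := by gcongr
    _ = _ := mul_comm _ _

end Pool.Agent.H3R2.ES
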