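import Mathlib

namespace Pool.Agent.H3R2.ES

open scoped InnerProductSpace Topology

universe u
variable {H : Type u} [NormedAddCommGroup H] [InnerProductSpace ℂ H] [CompleteSpace H]

/-- a Hilbert-Schmidt operator is compact -/
theorem compact_of_hs (T : H →L[ℂ] H) (C : ℝ)
    (h : ∀ (ι : Type u) (s : Finset ι) (e : ι → H), Orthonormal ℂ e → ∑ i ∈ s, ‖T (e i)‖ ^ 2 ≤ C) :
    IsCompactOperator T := by
  classical
  obtain ⟨w, b, -⟩ := exists_hilbertBasis (𝕜 := ℂ) (E := H)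
  have hb := b.orthonormal
  have hsum : Summable (fun i => ‖T (b i)‖ ^ 2) :=
    summable_of_sum_le (fun i => sq_nonneg _) (c := C) (fun s => h _ s b hb)
  obtain ⟨S, hS⟩ : ∃ S, S = ∑' i, ‖T (b i)‖ ^ 2 := ⟨_, rfl⟩
  let F : Finset w → H →L[ℂ] H := fun s => ∑ i ∈ s, (innerSL ℂ (b i)).smulRight (T (b i))
  have hF : ∀ s x, F s x = ∑ i ∈ s, ⟪b i, x⟫_ℂ • T (b i) := by
    intro s x
    simp only [F, sum_apply, ContinuousLinearMap.smulRight_apply, innerSL_apply_apply]
  have hcs : ∀ (t : Finset w) (x : H), ‖∑ i ∈ t, ⟪b i, x⟫_ℂ • T (b i)‖ ≤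
      √(∑ i ∈ t, ‖T (b i)‖ ^ 2) * ‖x‖ := by
    intro t x
    have h1 : ‖∑ i ∈ t, ⟪b i, x⟫_ℂ • T (b i)‖ ≤ ∑ i ∈ t, ‖⟪b i, x⟫_ℂ‖ * ‖T (b i)‖ := by
      refine (norm_sum_le _ _).trans (le_of_eq ?_)
      exact Finset.sum_congr rfl fun i _ => norm_smul _ _
    have h2 : (∑ i ∈ t, ‖⟪b i, x⟫_ℂ‖ * ‖T (b i)‖) ^ 2 ≤
        (∑ i ∈ t, ‖⟪b i, x⟫_ℂ‖ ^ 2) * (∑ i ∈ t, ‖T (b i)‖ ^ 2) :=
      Finset.sum_mul_sq_le_sq_mul_sq _ _ _
    have h3 := hb.sum_inner_products_le x (s := t)
    have h4 : 0 ≤ ∑ i ∈ t, ‖T (b i)‖ ^ 2 := Finset.sum_nonneg fun i _ => sq_nonneg _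
    refine h1.trans ?_
    apply le_of_sq_le_sq _ (by positivity)
    rw [mul_pow, Real.sq_sqrt h4, mul_comm _ (‖x‖ ^ 2)]
    exact h2.trans (by gcongr)
  have htend : Filter.Tendsto F Filter.atTop (𝓝 T) := by
    rw [Metric.tendsto_atTop]
    intro ε hε
    have hs2 := hsum.hasSum
    rw [← hS] at hs2
    have hδ : 0 < (ε / 2) ^ 2 := by positivity
    obtain ⟨s0, hs0⟩ := Metric.tendsto_atTop.1 hs2 ((ε / 2) ^ 2) hδ
    refine ⟨s0, fun s hs => ?_⟩
    have htail : ∀ t : Finset w, s ⊆ t → ∑ i ∈ t \ s, ‖T (b i)‖ ^ 2 ≤ (ε / 2) ^ 2 := by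
      intro t hst
      have h1 := hs0 s hs
      rw [Real.dist_eq, abs_sub_comm] at h1
      have h2 : ∑ i ∈ t, ‖T (b i)‖ ^ 2 ≤ S := by
        rw [hS]
        exact hsum.sum_le_tsum t (fun i _ => sq_nonneg _)
      have h3 := Finset.sum_sdiff hst (f := fun i => ‖T (b i)‖ ^ 2)
      have h4 := (abs_lt.1 h1).2
      linarith
    rw [dist_eq_norm]
    refine lt_of_le_of_lt (b := ε / 2) ?_ (by linarith)
    refine ContinuousLinearMap.opNorm_le_bound _ (by positivity) fun x => ?_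
    have hx : HasSum (fun i => ⟪b i, x⟫_ℂ • b i) x := by
      have := b.hasSum_repr x
      simpa only [b.repr_apply_apply] using this
    have hTx : HasSum (fun i => ⟪b i, x⟫_ℂ • T (b i)) (T x) := by
      have := T.hasSum hx
      simpa only [map_smul] using this
    have hlim : Filter.Tendsto (fun t : Finset w => ‖F s x - ∑ i ∈ t, ⟪b i, x⟫_ℂ • T (b i)‖)
        Filter.atTop (𝓝 ‖F s x - T x‖) := (tendsto_const_nhds.sub hTx).norm
    have e0 : (F s - T) x = F s x - T x := rfl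
    rw [e0]
    refine le_of_tendsto hlim ?_
    filter_upwards [Filter.eventually_ge_atTop s] with t ht
    rw [hF, ← Finset.sum_sdiff ht, sub_add_cancel_right, norm_neg]
    refine (hcs _ x).trans ?_
    gcongr
    rw [Real.sqrt_le_left (by positivity)]
    exact htail t ht
  refine isCompactOperator_of_tendsto htend (Filter.Eventually.of_forall fun s => ?_)
  have h1 : ∀ s : Finset w, IsCompactOperator (F s) := by
    intro s
    induction s using Finset.induction_on with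
    | empty =>
      have : F ∅ = 0 := by simp [F]
      rw [this]
      exact isCompactOperator_zero
    | insert i s hi ih =>
      have : F (insert i s) = (innerSL ℂ (b i)).smulRight (T (b i)) + F s := by
        simp only [F]
        rw [Finset.sum_insert hi]
      rw [this]
      have h2 : IsCompactOperator ((innerSL ℂ (b i)).smulRight (T (b i)) : H →L[ℂ] H) := by
        have h3 : IsCompactOperator (innerSL ℂ (b i) : H →L[ℂ] ℂ) :=
          isCompactOperator_of_locallyCompactSpace_dom _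
        exact h3.clm_comp (ContinuousLinearMap.toSpanSingleton ℂ (T (b i)))
      exact h2.add ih
  exact h1 s

end Pool.Agent.H3R2.ES
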