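import Mathlib
import Pool.Agent.H3R2.ES.Hs
import Pool.Agent.H3R2.ES.Agmon

namespace Pool.Agent.H3R2.ES

open MeasureTheory ENNReal FourierTransform Pool.Agent.Helper209.CX
open scoped InnerProductSpace SchwartzMap Topology

/-- the unit ball -/
abbrev UB (d : ℕ) : Set (Ed d) := Metric.ball (0 : Ed d) 1

instance finUB (d : ℕ) : IsFiniteMeasure ((volume : Measure (Ed d)).restrict (UB d)) :=
  ⟨by rw [Measure.restrict_apply_univ]; exact measure_ball_lt_top⟩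

theorem kappa_mem {d : ℕ} (ξ : Ed d) : MemLp (fun x : Ed d => (UB d).indicator
    (fun x => Complex.exp (2 * Real.pi * Complex.I * ((inner ℝ x ξ : ℝ) : ℂ))) x) 2 volume := by
  rw [memLp_indicator_iff_restrict measurableSet_ball]
  refine MemLp.of_bound ?_ 1 ?_
  · have : Continuous (fun x : Ed d => Complex.exp (2 * Real.pi * Complex.I * ((inner ℝ x ξ : ℝ) : ℂ))) := by
      fun_prop
    exact this.aestronglyMeasurable
  · refine Filter.Eventually.of_forall fun x => ?_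
    have : 2 * (Real.pi : ℂ) * Complex.I * ((inner ℝ x ξ : ℝ) : ℂ) =
        ((2 * Real.pi * (inner ℝ x ξ : ℝ) : ℝ) : ℂ) * Complex.I := by push_cast; ring
    rw [this, Complex.norm_exp_ofReal_mul_I]

theorem kappa_norm {d : ℕ} (ξ : Ed d) : ‖(kappa_mem ξ).toLp _‖ ^ 2 = (volume (UB d)).toReal := by
  rw [norm_sq_int]
  have h1 : (fun x : Ed d => ‖((kappa_mem ξ).toLp _ : L2d d) x‖ ^ 2) =ᵐ[volume]
      (UB d).indicator (fun _ => (1 : ℝ)) := by
    filter_upwards [(kappa_mem ξ).coeFn_toLp] with x hx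
    rw [hx]
    by_cases h : x ∈ UB d
    · rw [Set.indicator_of_mem h, Set.indicator_of_mem h]
      have : 2 * (Real.pi : ℂ) * Complex.I * ((inner ℝ x ξ : ℝ) : ℂ) =
        ((2 * Real.pi * (inner ℝ x ξ : ℝ) : ℝ) : ℂ) * Complex.I := by push_cast; ring
      rw [this, Complex.norm_exp_ofReal_mul_I, one_pow]
    · rw [Set.indicator_of_notMem h, Set.indicator_of_notMem h, norm_zero]
      norm_num
  rw [integral_congr_ae h1, integral_indicator measurableSet_ball]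
  simp [Measure.real]

theorem chi_fourier {d : ℕ} (χ : L2d d →L[ℂ] L2d d)
    (hχ : ∀ f : L2d d, (χ f : Ed d → ℂ) =ᵐ[volume]
      fun x => (UB d).indicator (fun _ => (1 : ℂ)) x * f x) (f : L2d d) :
    ((𝓕 (χ f) : L2d d) : Ed d → ℂ) =ᵐ[volume] fun ξ => ⟪((kappa_mem ξ).toLp _ : L2d d), f⟫_ℂ := by
  have hm2 : MemLp (fun x : Ed d => (UB d).indicator (fun _ => (1 : ℂ)) x * f x) 2 volume :=
    (Lp.memLp (χ f)).ae_eq (hχ f)
  have hm1 : Integrable (fun x : Ed d => (UB d).indicator (fun _ => (1 : ℂ)) x * f x) volume := by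
    have h1 : MemLp (fun x : Ed d => (UB d).indicator (fun _ => (1 : ℂ)) x) 2 volume := by
      rw [memLp_indicator_iff_restrict measurableSet_ball]
      exact memLp_const _
    exact h1.integrable_mul (Lp.memLp f)
  have e1 : χ f = hm2.toLp _ := by
    apply Lp.ext
    filter_upwards [hχ f, hm2.coeFn_toLp] with x h1 h2
    rw [h1, h2]
  have h3 := K01.d1_fourier d _ hm1 hm2
  rw [← e1] at h3
  filter_upwards [h3] with ξ h4
  rw [h4, L2.inner_def]
  refine integral_congr_ae ?_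
  filter_upwards [(kappa_mem ξ).coeFn_toLp] with x hx
  rw [hx, RCLike.inner_apply]
  by_cases h : x ∈ UB d
  · rw [Set.indicator_of_mem h, Set.indicator_of_mem h, one_mul, ← Complex.exp_conj, mul_comm]
    congr 2
    simp only [map_mul, Complex.conj_I, Complex.conj_ofReal, map_ofNat]
    ring
  · rw [Set.indicator_of_notMem h, Set.indicator_of_notMem h]
    simp

/-- Bessel inequality in the low frequencies -/
theorem bessel_low {d : ℕ} (χ : L2d d →L[ℂ] L2d d)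
    (hχ : ∀ f : L2d d, (χ f : Ed d → ℂ) =ᵐ[volume]
      fun x => (UB d).indicator (fun _ => (1 : ℂ)) x * f x) {ι : Type*} (s : Finset ι)
    (e : ι → L2d d) (he : Orthonormal ℂ e) (ρ : ℝ) :
    ∑ i ∈ s, ∫ ξ in Metric.closedBall (0 : Ed d) ρ, ‖(𝓕 (χ (e i)) : L2d d) ξ‖ ^ 2 ≤
      (volume (Metric.closedBall (0 : Ed d) ρ)).toReal * (volume (UB d)).toReal := by
  rw [← integral_finsetSum s (fun i _ => (int_sq _).integrableOn)]
  have h1 : ∫ ξ in Metric.closedBall (0 : Ed d) ρ, (∑ i ∈ s, ‖(𝓕 (χ (e i)) : L2d d) ξ‖ ^ 2) ≤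
      ∫ ξ in Metric.closedBall (0 : Ed d) ρ, (volume (UB d)).toReal := by
    refine integral_mono_ae ?_ ?_ ?_
    · exact integrable_finsetSum s (fun i _ => (int_sq _).integrableOn)
    · exact integrableOn_const (by exact measure_closedBall_lt_top.ne) (by simp)
    · apply ae_restrict_of_ae
      have h2 : ∀ᵐ ξ ∂(volume : Measure (Ed d)), ∀ i ∈ s, (𝓕 (χ (e i)) : L2d d) ξ =
          ⟪((kappa_mem ξ).toLp _ : L2d d), e i⟫_ℂ := by
        rw [Finset.eventually_all]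
        intro i _
        exact chi_fourier χ hχ (e i)
      filter_upwards [h2] with ξ h3
      have h4 : ∑ i ∈ s, ‖(𝓕 (χ (e i)) : L2d d) ξ‖ ^ 2 =
          ∑ i ∈ s, ‖⟪e i, ((kappa_mem ξ).toLp _ : L2d d)⟫_ℂ‖ ^ 2 := by
        refine Finset.sum_congr rfl fun i hi => ?_
        rw [h3 i hi, norm_inner_symm]
      rw [h4, ← kappa_norm ξ]
      exact he.sum_inner_products_le _
  refine h1.trans (le_of_eq ?_)
  rw [setIntegral_const, smul_eq_mul]
  rfl

/-- the low frequency projection (on the Fourier side) -/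
theorem exists_low (d : ℕ) (ρ : ℝ) : ∃ P : L2d d →L[ℂ] L2d d,
    (∀ f : L2d d, (P f : Ed d → ℂ) =ᵐ[volume]
      fun ξ => (Metric.closedBall (0 : Ed d) ρ).indicator (fun _ => (1 : ℂ)) ξ * f ξ) ∧
    (∀ f, ‖P f‖ ≤ 1 * ‖f‖) ∧
    (∀ f, ‖P f‖ ^ 2 = ∫ ξ in Metric.closedBall (0 : Ed d) ρ, ‖f ξ‖ ^ 2) := by
  obtain ⟨P, hP, hPn⟩ := exists_mulOp (d := d)
    (fun ξ => (Metric.closedBall (0 : Ed d) ρ).indicator (fun _ => (1 : ℂ)) ξ)
    (measurable_const.indicator measurableSet_closedBall) 1 zero_le_one (fun ξ => by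
      by_cases h : ξ ∈ Metric.closedBall (0 : Ed d) ρ
      · rw [Set.indicator_of_mem h]; simp
      · rw [Set.indicator_of_notMem h]; simp)
  refine ⟨P, hP, hPn, fun f => ?_⟩
  rw [norm_sq_int, ← integral_indicator measurableSet_closedBall]
  refine integral_congr_ae ?_
  filter_upwards [hP f] with ξ h1
  rw [h1]
  by_cases h : ξ ∈ Metric.closedBall (0 : Ed d) ρ
  · rw [Set.indicator_of_mem h, Set.indicator_of_mem h, one_mul]
  · rw [Set.indicator_of_notMem h, Set.indicator_of_notMem h, zero_mul]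
    simp

theorem chi_symm {d : ℕ} (χ : L2d d →L[ℂ] L2d d)
    (hχ : ∀ f : L2d d, (χ f : Ed d → ℂ) =ᵐ[volume]
      fun x => (UB d).indicator (fun _ => (1 : ℂ)) x * f x) (f g : L2d d) :
    ⟪χ f, g⟫_ℂ = ⟪f, χ g⟫_ℂ := by
  rw [L2.inner_def, L2.inner_def]
  refine integral_congr_ae ?_
  filter_upwards [hχ f, hχ g] with x h1 h2
  rw [h1, h2, RCLike.inner_apply, RCLike.inner_apply]
  by_cases h : x ∈ UB d
  · rw [Set.indicator_of_mem h, one_mul, one_mul]
  · rw [Set.indicator_of_notMem h]; simp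

theorem chi_idem {d : ℕ} (χ : L2d d →L[ℂ] L2d d)
    (hχ : ∀ f : L2d d, (χ f : Ed d → ℂ) =ᵐ[volume]
      fun x => (UB d).indicator (fun _ => (1 : ℂ)) x * f x) (f : L2d d) :
    χ (χ f) = χ f := by
  apply Lp.ext
  filter_upwards [hχ f, hχ (χ f)] with x h1 h2
  rw [h2, h1]
  by_cases h : x ∈ UB d
  · rw [Set.indicator_of_mem h, one_mul, one_mul]
  · rw [Set.indicator_of_notMem h]; simp

/-- `χ G` is compact -/
theorem chiG_compact {d : ℕ} (G χ : L2d d →L[ℂ] L2d d)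
    (hG : ∀ x, ((𝓕 (G x) : L2d d) : Ed d → ℂ) =ᵐ[volume] fun ξ => (wt ξ : ℂ) * (𝓕 x : L2d d) ξ)
    (hχ : ∀ f : L2d d, (χ f : Ed d → ℂ) =ᵐ[volume]
      fun x => (UB d).indicator (fun _ => (1 : ℂ)) x * f x) :
    IsCompactOperator (G ∘L χ) := by
  choose P hP hPn hPs using exists_low d
  let F := Lp.fourierTransformₗᵢ (Ed d) ℂ
  let Fc : L2d d →L[ℂ] L2d d := F.toContinuousLinearEquiv
  let Fi : L2d d →L[ℂ] L2d d := F.symm.toContinuousLinearEquiv
  -- compactness of the low frequency part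
  have hA : ∀ ρ, IsCompactOperator (P ρ ∘L Fc ∘L χ) := by
    intro ρ
    refine compact_of_hs _ ((volume (Metric.closedBall (0 : Ed d) ρ)).toReal *
      (volume (UB d)).toReal) fun ι s e he => ?_
    refine le_trans (le_of_eq ?_) (bessel_low χ hχ s e he ρ)
    refine Finset.sum_congr rfl fun i _ => ?_
    exact hPs ρ (𝓕 (χ (e i)) : L2d d)
  have hB : ∀ n : ℕ, IsCompactOperator (G ∘L (Fi ∘L (P n ∘L Fc ∘L χ))) := fun n =>
    (hA n).clm_comp (G ∘L Fi)
  have htend : Filter.Tendsto (fun n : ℕ => G ∘L (Fi ∘L (P n ∘L Fc ∘L χ))) Filter.atTop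
      (𝓝 (G ∘L χ)) := by
    have hlim : Filter.Tendsto (fun n : ℕ => 1 / ((n : ℝ) + 1)) Filter.atTop (𝓝 0) :=
      tendsto_one_div_add_atTop_nhds_zero_nat
    rw [tendsto_iff_norm_sub_tendsto_zero]
    refine squeeze_zero (fun _ => norm_nonneg _) (fun n => ?_) hlim
    refine ContinuousLinearMap.opNorm_le_bound _ (by positivity) fun f => ?_
    obtain ⟨v, hv⟩ : ∃ v : L2d d, v = 𝓕 (χ f) := ⟨_, rfl⟩
    have e1 : (G ∘L (Fi ∘L (P n ∘L Fc ∘L χ)) - G ∘L χ) f = G (F.symm (P n v) - χ f) := by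
      rw [map_sub, hv]
      rfl
    have e2 : ‖G (F.symm (P n v) - χ f)‖ ≤ 1 / ((n : ℝ) + 1) * ‖v‖ := by
      rw [← Lp.norm_fourier_eq]
      have h1 := hG (F.symm (P n v) - χ f)
      have h2 : (𝓕 (F.symm (P n v) - χ f) : L2d d) = P n v - v := by
        have : (𝓕 (F.symm (P n v) - χ f) : L2d d) = F (F.symm (P n v) - χ f) := rfl
        rw [this, map_sub, LinearIsometryEquiv.apply_symm_apply, hv]
        rfl
      rw [h2] at h1
      apply Lp.norm_le_mul_norm_of_ae_le_mul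
      filter_upwards [h1, Lp.coeFn_sub (P n v) v, hP n v] with ξ h3 h4 h5
      rw [h3, h4, Pi.sub_apply, h5, norm_mul, Complex.norm_real,
        Real.norm_of_nonneg (wt_pos ξ).le]
      by_cases h : ξ ∈ Metric.closedBall (0 : Ed d) n
      · rw [Set.indicator_of_mem h, one_mul, sub_self, norm_zero, mul_zero]
        positivity
      · rw [Set.indicator_of_notMem h, zero_mul, zero_sub, norm_neg]
        rw [mem_closedBall_zero_iff, not_le] at h
        have h6 : wt ξ ≤ 1 / ((n : ℝ) + 1) := by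
          unfold wt
          rw [one_div]
          apply inv_anti₀ (by positivity)
          apply Real.le_sqrt_of_sq_le
          have h7 := Real.pi_gt_three
          have hn : (0 : ℝ) ≤ n := Nat.cast_nonneg n
          have hn2 : (n : ℝ) ≤ (n : ℝ) ^ 2 := by
            exact_mod_cast Nat.le_self_pow two_ne_zero n
          have h8 : 2 * (n : ℝ) ≤ 2 * Real.pi * ‖ξ‖ := by nlinarith [norm_nonneg ξ]
          have h9 := pow_le_pow_left₀ (by positivity) h8 2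
          nlinarith
        gcongr
    rw [e1]
    refine e2.trans ?_
    have e3 : ‖v‖ ≤ ‖f‖ := by
      rw [hv, Lp.norm_fourier_eq]
      have h5 : ‖χ f‖ ^ 2 ≤ ‖χ f‖ * ‖f‖ := by
        have h6 : ((‖χ f‖ ^ 2 : ℝ) : ℂ) = ⟪χ f, f⟫_ℂ := by
          rw [← chi_idem χ hχ f, chi_symm χ hχ, chi_idem χ hχ, chi_symm χ hχ, ← chi_idem χ hχ f,
            ← chi_symm χ hχ f, chi_idem χ hχ, inner_self_eq_norm_sq_to_K]
          push_cast
          rfl
        have h7 := norm_inner_le_norm (𝕜 := ℂ) (χ f) f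
        rw [← h6, Complex.norm_real, Real.norm_of_nonneg (sq_nonneg _)] at h7
        exact h7
      rcases eq_or_lt_of_le (norm_nonneg (χ f)) with h0 | h0
      · rw [← h0]; positivity
      · nlinarith
    gcongr
  exact isCompactOperator_of_tendsto htend (Filter.Eventually.of_forall hB)

/-- upper bound for the number of eigenvalues -/
theorem count_upper {d : ℕ} (G χ M S : L2d d →L[ℂ] L2d d)
    (hG : ∀ x, ((𝓕 (G x) : L2d d) : Ed d → ℂ) =ᵐ[volume] fun ξ => (wt ξ : ℂ) * (𝓕 x : L2d d) ξ)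
    (hχ : ∀ f : L2d d, (χ f : Ed d → ℂ) =ᵐ[volume]
      fun x => (UB d).indicator (fun _ => (1 : ℂ)) x * f x)
    (h : ℝ) (hh : 0 < h)
    (hS : ∀ x y, ⟪y, S x⟫_ℂ = ((h ^ 2 : ℝ) : ℂ) * (⟪y, x⟫_ℂ - ⟪G y, G x⟫_ℂ) + ⟪M y, M x⟫_ℂ +
      ⟪G y, G x⟫_ℂ) (Λ : ℝ) (hΛ : 0 ≤ Λ)
    (N : ℕ) (g : Fin N → L2d d) (μ : Fin N → ℝ)
    (hμ : ∀ n, μ n ≤ Λ + 1) (hg : ∀ n, S (g n) = (((1 + μ n : ℝ)) : ℂ) • G (χ (G (g n))))
    (horth : ∀ m n, ⟪χ (G (g m)), χ (G (g n))⟫_ℂ = if m = n then 1 else 0) :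
    (N : ℝ) ≤ 4 * (2 + Λ) * ((volume (Metric.closedBall (0 : Ed d) (√(2 + Λ) / h))).toReal *
      (volume (UB d)).toReal) := by
  obtain ⟨ρ, hρ⟩ : ∃ ρ, ρ = √(2 + Λ) / h := ⟨_, rfl⟩
  have hρ0 : 0 < ρ := by rw [hρ]; positivity
  obtain ⟨P, hP, hPn, hPs⟩ := exists_low d ρ
  have horn : Orthonormal ℂ (fun n => χ (G (g n))) := orthonormal_iff_ite.2 horth
  have hb := bessel_low χ hχ Finset.univ _ horn ρ
  simp only [chi_idem χ hχ] at hb
  have hterm : ∀ n, 1 / (4 * (2 + Λ)) ≤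
      ∫ ξ in Metric.closedBall (0 : Ed d) ρ, ‖(𝓕 (χ (G (g n))) : L2d d) ξ‖ ^ 2 := by
    intro n
    rw [← hPs]
    obtain ⟨u, hu⟩ : ∃ u, u = G (g n) := ⟨_, rfl⟩
    obtain ⟨f, hf⟩ : ∃ f, f = χ u := ⟨_, rfl⟩
    have hfn : ‖f‖ = 1 := by rw [hf, hu]; exact horn.1 n
    rw [← hu, ← hf]
    have huH : InH1 u := by rw [hu]; exact G_inH1 G hG _
    -- energy
    have hgg : ⟪g n, S (g n)⟫_ℂ = ((1 + μ n : ℝ) : ℂ) := by
      rw [hg, inner_smul_right, ← G_symm G hG, ← chi_idem χ hχ, ← chi_symm χ hχ, ← hu, ← hf,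
        inner_self_eq_norm_sq_to_K, hfn]
      norm_num
    have hen := hS (g n) (g n)
    rw [hgg, ← G_dir G hG] at hen
    have hen2 := congrArg Complex.re hen
    have e1 : (⟪M (g n), M (g n)⟫_ℂ).re = ‖M (g n)‖ ^ 2 := inner_self_eq_norm_sq (𝕜 := ℂ) _
    have e2 : (⟪G (g n), G (g n)⟫_ℂ).re = ‖G (g n)‖ ^ 2 := inner_self_eq_norm_sq (𝕜 := ℂ) _
    rw [Complex.ofReal_re, Complex.add_re, Complex.add_re, Complex.re_ofReal_mul, e1, e2, ← hu] at hen2
    have hd0 : 0 ≤ (dirichlet u u).re := by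
      by_cases hd : d = 0
      · subst hd
        have := df_bound u huH 0
        unfold dirichlet
        rw [← RCLike.re_eq_complex_re, ← integral_re (K31.isHu_zero_int u u huH huH)]
        apply integral_nonneg
        intro ξ
        simp only [Pi.zero_apply]
        rw [mul_assoc, Complex.mul_conj, ← Complex.ofReal_mul]
        change 0 ≤ ((((2 * Real.pi * ‖ξ‖) ^ 2 * Complex.normSq ((𝓕 u : L2d 0) ξ) : ℝ)) : ℂ).re
        rw [Complex.ofReal_re]
        exact mul_nonneg (sq_nonneg _) (Complex.normSq_nonneg _)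
      · exact le_trans (sq_nonneg _) (df_bound u huH 0 ⟨0, Nat.pos_of_ne_zero hd⟩)
    have hun : ‖u‖ ^ 2 ≤ 2 + Λ := by
      have := hμ n
      have := mul_nonneg (sq_nonneg h) hd0
      nlinarith [sq_nonneg ‖M (g n)‖]
    have hdir : h ^ 2 * (dirichlet u u).re ≤ 2 + Λ := by
      have := hμ n
      nlinarith [sq_nonneg ‖M (g n)‖, sq_nonneg ‖u‖]
    -- splitting
    have hone : (1 : ℝ) = (⟪f, u⟫_ℂ).re := by
      have : ⟪f, u⟫_ℂ = ⟪f, f⟫_ℂ := by
        rw [hf]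
        conv_lhs => rw [← chi_idem χ hχ, chi_symm χ hχ]
      rw [this]
      have h3 : (⟪f, f⟫_ℂ).re = ‖f‖ ^ 2 := inner_self_eq_norm_sq (𝕜 := ℂ) _
      rw [h3, hfn]; norm_num
    have hPsym : ⟪P (𝓕 f), (𝓕 u : L2d d)⟫_ℂ + ⟪(𝓕 f : L2d d), 𝓕 u - P (𝓕 u)⟫_ℂ = ⟪f, u⟫_ℂ := by
      have h3 : ⟪P (𝓕 f), (𝓕 u : L2d d)⟫_ℂ = ⟪(𝓕 f : L2d d), P (𝓕 u)⟫_ℂ := by
        rw [L2.inner_def, L2.inner_def]
        refine integral_congr_ae ?_
        filter_upwards [hP (𝓕 f), hP (𝓕 u)] with ξ h1 h2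
        rw [h1, h2, RCLike.inner_apply, RCLike.inner_apply]
        by_cases h : ξ ∈ Metric.closedBall (0 : Ed d) ρ
        · rw [Set.indicator_of_mem h, one_mul, one_mul]
        · rw [Set.indicator_of_notMem h]; simp
      rw [h3, inner_sub_right, Lp.inner_fourier_eq]
      ring
    have hhigh : ‖(𝓕 u : L2d d) - P (𝓕 u)‖ ≤ 1 / 2 := by
      have h3 : ‖(𝓕 u : L2d d) - P (𝓕 u)‖ ^ 2 ≤ (1 / (2 * Real.pi * ρ)) ^ 2 * (dirichlet u u).re := by
        have hint := K31.isHu_zero_int u u huH huH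
        have h4 : (dirichlet u u).re =
            ∫ ξ : Ed d, (2 * Real.pi * ‖ξ‖) ^ 2 * ‖(𝓕 u : L2d d) ξ‖ ^ 2 := by
          unfold dirichlet
          rw [← RCLike.re_eq_complex_re, ← integral_re hint]
          refine integral_congr_ae (Filter.Eventually.of_forall fun ξ => ?_)
          simp only
          rw [mul_assoc, Complex.mul_conj, Complex.normSq_eq_norm_sq, ← Complex.ofReal_mul]
          exact Complex.ofReal_re _
        have hint2 : Integrable (fun ξ : Ed d => (2 * Real.pi * ‖ξ‖) ^ 2 *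
            ‖(𝓕 u : L2d d) ξ‖ ^ 2) volume := by
          refine hint.norm.congr (Filter.Eventually.of_forall fun ξ => ?_)
          simp only
          rw [norm_mul, norm_mul, Complex.norm_real, RCLike.norm_conj,
            Real.norm_of_nonneg (by positivity)]
          ring
        rw [h4, norm_sq_int, ← integral_const_mul]
        refine integral_mono_ae (int_sq _) (hint2.const_mul _) ?_
        filter_upwards [Lp.coeFn_sub (𝓕 u : L2d d) (P (𝓕 u)), hP (𝓕 u)] with ξ h5 h6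
        rw [h5, Pi.sub_apply, h6]
        by_cases h7 : ξ ∈ Metric.closedBall (0 : Ed d) ρ
        · rw [Set.indicator_of_mem h7, one_mul, sub_self, norm_zero, zero_pow two_ne_zero]
          positivity
        · rw [Set.indicator_of_notMem h7, zero_mul, sub_zero]
          rw [mem_closedBall_zero_iff, not_le] at h7
          have h8 : 1 ≤ (1 / (2 * Real.pi * ρ)) ^ 2 * (2 * Real.pi * ‖ξ‖) ^ 2 := by
            rw [← mul_pow, one_div, ← div_eq_inv_mul]
            have h9 : 1 ≤ (2 * Real.pi * ‖ξ‖) / (2 * Real.pi * ρ) := by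
              rw [one_le_div (by positivity)]
              gcongr
            exact one_le_pow₀ h9
          nlinarith [sq_nonneg ‖(𝓕 u : L2d d) ξ‖]
      have h10 : (1 / (2 * Real.pi * ρ)) ^ 2 * (dirichlet u u).re ≤ (1 / 2) ^ 2 := by
        have h11 : (1 / (2 * Real.pi * ρ)) ^ 2 = h ^ 2 / (4 * Real.pi ^ 2 * (2 + Λ)) := by
          rw [hρ]
          have h12 : √(2 + Λ) ^ 2 = 2 + Λ := Real.sq_sqrt (by linarith)
          have h13 : (2 * Real.pi * (√(2 + Λ) / h)) ^ 2 = 4 * Real.pi ^ 2 * (2 + Λ) / h ^ 2 := by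
            rw [mul_pow, div_pow, h12]; ring
          rw [div_pow, h13, one_pow, one_div, inv_div]
        rw [h11, div_mul_eq_mul_div, div_le_iff₀ (by positivity)]
        have h14 : (1 : ℝ) ≤ Real.pi ^ 2 := by nlinarith [Real.pi_gt_three]
        nlinarith
      exact le_of_sq_le_sq (h3.trans h10) (by norm_num)
    have hsplit : 1 ≤ ‖P (𝓕 f)‖ * √(2 + Λ) + 1 / 2 := by
      calc (1 : ℝ) = (⟪f, u⟫_ℂ).re := hone
        _ ≤ ‖⟪f, u⟫_ℂ‖ := Complex.re_le_norm _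
        _ = ‖⟪P (𝓕 f), (𝓕 u : L2d d)⟫_ℂ + ⟪(𝓕 f : L2d d), 𝓕 u - P (𝓕 u)⟫_ℂ‖ := by rw [hPsym]
        _ ≤ ‖P (𝓕 f)‖ * ‖(𝓕 u : L2d d)‖ + ‖(𝓕 f : L2d d)‖ * ‖(𝓕 u : L2d d) - P (𝓕 u)‖ :=
            (norm_add_le _ _).trans (add_le_add (norm_inner_le_norm _ _) (norm_inner_le_norm _ _))
        _ ≤ ‖P (𝓕 f)‖ * √(2 + Λ) + 1 * (1 / 2) := by
            rw [Lp.norm_fourier_eq, Lp.norm_fourier_eq, hfn]
            have h15 : ‖u‖ ≤ √(2 + Λ) := Real.le_sqrt_of_sq_le hun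
            gcongr
        _ = _ := by ring
    have h16 : 1 / 2 ≤ ‖P (𝓕 f)‖ * √(2 + Λ) := by linarith
    have h17 : (1 / 2) ^ 2 ≤ (‖P (𝓕 f)‖ * √(2 + Λ)) ^ 2 := by gcongr
    rw [mul_pow, Real.sq_sqrt (by linarith)] at h17
    rw [div_le_iff₀ (by positivity)]
    linarith
  have hsum : (N : ℝ) * (1 / (4 * (2 + Λ))) ≤ ∑ n : Fin N,
      ∫ ξ in Metric.closedBall (0 : Ed d) ρ, ‖(𝓕 (χ (G (g n))) : L2d d) ξ‖ ^ 2 := by
    calc (N : ℝ) * (1 / (4 * (2 + Λ))) = ∑ n : Fin N, 1 / (4 * (2 + Λ)) := by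
          rw [Finset.sum_const, Finset.card_univ, Fintype.card_fin, nsmul_eq_mul]
      _ ≤ _ := Finset.sum_le_sum fun n _ => hterm n
  have hfinal := hsum.trans hb
  rw [mul_one_div, div_le_iff₀ (by positivity : (0 : ℝ) < 4 * (2 + Λ))] at hfinal
  rw [← hρ]
  linarith

end Pool.Agent.H3R2.ES
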