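import Mathlib
import Pool.Agent.H3R2.ES.Count
import Pool.Agent.Helper209.CX.K02
import Pool.Agent.Helper209.CX.K03

namespace Pool.Agent.H3R2.ES

open MeasureTheory ENNReal FourierTransform Pool.Agent.Helper209.CX
open scoped InnerProductSpace SchwartzMap Topology

/-- the real part of the potential -/
noncomputable def Ub {d : ℕ} (x : Ed d) : ℝ := (UB d).indicator (fun x => -Real.log (1 - ‖x‖)) x

theorem Ub_in {d : ℕ} (x : Ed d) (hx : ‖x‖ < 1) : Ub x = -Real.log (1 - ‖x‖) :=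
  Set.indicator_of_mem (by rw [mem_ball_zero_iff]; exact hx) _

theorem Ub_out {d : ℕ} (x : Ed d) (hx : 1 ≤ ‖x‖) : Ub x = 0 :=
  Set.indicator_of_notMem (by rw [mem_ball_zero_iff, not_lt]; exact hx) _

theorem Ub_nonneg {d : ℕ} (x : Ed d) : 0 ≤ Ub x := by
  rcases lt_or_ge ‖x‖ 1 with h | h
  · rw [Ub_in x h, neg_nonneg]
    exact Real.log_nonpos (by linarith) (by linarith [norm_nonneg x])
  · rw [Ub_out x h]

theorem Ub_meas {d : ℕ} : Measurable (Ub : Ed d → ℝ) := by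
  unfold Ub
  refine Measurable.indicator ?_ measurableSet_ball
  fun_prop

theorem Ub_half {d : ℕ} (x : Ed d) (hx : ‖x‖ ≤ 1 / 2) : Ub x ≤ 1 := by
  rw [Ub_in x (by linarith)]
  have h1 : Real.log (1 / 2) ≤ Real.log (1 - ‖x‖) := Real.log_le_log (by norm_num) (by linarith)
  have h2 : Real.log (1 / 2) = -Real.log 2 := by rw [one_div, Real.log_inv]
  have := Real.log_two_lt_d9
  linarith

theorem Ub_large {d : ℕ} (Λ : ℝ) (hΛ : 0 ≤ Λ) : ∀ x : Ed d, 1 - Real.exp (-(Λ + 1)) ≤ ‖x‖ →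
    ‖x‖ < 1 → Λ + 1 ≤ Ub x := by
  intro x h1 h2
  rw [Ub_in x h2]
  have h3 : Real.log (1 - ‖x‖) ≤ Real.log (Real.exp (-(Λ + 1))) :=
    Real.log_le_log (by linarith) (by linarith)
  rw [Real.log_exp] at h3
  linarith

theorem Ub_int {d : ℕ} (hd : 1 ≤ d) (q : ℝ) (hq : 0 < q) :
    Integrable (fun x : Ed d => Ub x ^ q) volume := by
  have e1 : (fun x : Ed d => Ub x ^ q) = (UB d).indicator (fun x => (-Real.log (1 - ‖x‖)) ^ q) := by
    funext x
    rcases lt_or_ge ‖x‖ 1 with h | h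
    · rw [Ub_in x h, Set.indicator_of_mem (by rw [mem_ball_zero_iff]; exact h)]
    · rw [Ub_out x h, Set.indicator_of_notMem (by rw [mem_ball_zero_iff, not_lt]; exact h),
        Real.zero_rpow hq.ne']
  rw [e1, integrable_indicator_iff measurableSet_ball]
  have : Nontrivial (Ed d) := by
    have : Nonempty (Fin d) := ⟨⟨0, hd⟩⟩
    infer_instance
  have h2 := integrableOn_fun_norm_addHaar (volume : Measure (Ed d))
    (f := fun y : ℝ => (-Real.log (1 - y)) ^ q) (r := 1)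
  rw [h2]
  -- comparison with (1-y)^(-1/2)
  have h3 : IntegrableOn (fun y : ℝ => (2 * q) ^ q * (1 - y) ^ (-(1 / 2) : ℝ)) (Set.Ioo 0 1) := by
    have h4 : IntervalIntegrable (fun y : ℝ => y ^ (-(1 / 2) : ℝ)) volume 0 1 :=
      intervalIntegral.intervalIntegrable_rpow' (by norm_num)
    have h5 := h4.comp_sub_left 1
    simp only [sub_zero, sub_self] at h5
    have h6 : IntegrableOn (fun y : ℝ => (1 - y) ^ (-(1 / 2) : ℝ)) (Set.Ioc 0 1) := by
      have := h5.symm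
      rwa [intervalIntegrable_iff_integrableOn_Ioc_of_le zero_le_one] at this
    exact (h6.mono_set Set.Ioo_subset_Ioc_self).const_mul _
  refine Integrable.mono' h3 ?_ ?_
  · apply Measurable.aestronglyMeasurable
    simp only [smul_eq_mul]
    fun_prop
  · rw [ae_restrict_iff' measurableSet_Ioo]
    refine Filter.Eventually.of_forall fun y hy => ?_
    obtain ⟨hy0, hy1⟩ := hy
    have h1y : 0 < 1 - y := by linarith
    have hl0 : 0 ≤ -Real.log (1 - y) := by
      rw [neg_nonneg]; exact Real.log_nonpos h1y.le (by linarith)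
    have hε : (0 : ℝ) < 1 / (2 * q) := by positivity
    have hlog : -Real.log (1 - y) ≤ (2 * q) * (1 - y) ^ (-(1 / (2 * q))) := by
      have h7 := Real.log_le_rpow_div (inv_pos.2 h1y).le hε
      rw [Real.log_inv, Real.inv_rpow h1y.le, ← Real.rpow_neg h1y.le] at h7
      refine h7.trans (le_of_eq ?_)
      rw [div_div_eq_mul_div, div_one, mul_comm]
    rw [norm_smul, norm_pow, Real.norm_of_nonneg hy0.le,
      Real.norm_of_nonneg (Real.rpow_nonneg hl0 _)]
    have h8 : y ^ (Module.finrank ℝ (Ed d) - 1) ≤ 1 := pow_le_one₀ hy0.le hy1.le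
    have h9 : (-Real.log (1 - y)) ^ q ≤ (2 * q) ^ q * (1 - y) ^ (-(1 / 2) : ℝ) := by
      refine (Real.rpow_le_rpow hl0 hlog hq.le).trans (le_of_eq ?_)
      rw [Real.mul_rpow (by positivity) (Real.rpow_nonneg h1y.le _), ← Real.rpow_mul h1y.le]
      congr 2
      field_simp
    calc y ^ (Module.finrank ℝ (Ed d) - 1) * (-Real.log (1 - y)) ^ q
        ≤ 1 * ((2 * q) ^ q * (1 - y) ^ (-(1 / 2) : ℝ)) := by
          gcongr
      _ = _ := one_mul _

theorem Ub_memLp {d : ℕ} (hd : 1 ≤ d) (p : ℝ≥0∞) (hp : p ≠ ⊤) :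
    MemLp (Ub : Ed d → ℝ) p volume := by
  by_cases h0 : p = 0
  · rw [h0, memLp_zero_iff_aestronglyMeasurable]
    exact Ub_meas.aestronglyMeasurable
  · rw [← integrable_norm_rpow_iff Ub_meas.aestronglyMeasurable h0 hp]
    have h1 := Ub_int hd p.toReal (ENNReal.toReal_pos h0 hp)
    refine h1.congr (Filter.Eventually.of_forall fun x => ?_)
    simp only
    rw [Real.norm_of_nonneg (Ub_nonneg x)]

/-- the potential -/
noncomputable def Vb {d : ℕ} (x : Ed d) : ℂ :=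
  (Ub x : ℂ) + Complex.I * (UB d).indicator (fun _ => (1 : ℂ)) x

theorem Vb_memLp {d : ℕ} (hd : 1 ≤ d) (p : ℝ≥0∞) (hp : p ≠ ⊤) :
    MemLp (Vb : Ed d → ℂ) p volume := by
  have h1 : MemLp (fun x : Ed d => (Ub x : ℂ)) p volume := (Ub_memLp hd p hp).ofReal
  have h2 : MemLp (fun x : Ed d => Complex.I * (UB d).indicator (fun _ => (1 : ℂ)) x) p volume := by
    apply MemLp.const_mul
    exact memLp_indicator_const p measurableSet_ball 1 (Or.inr measure_ball_lt_top.ne)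
  exact h1.add h2

/-- form boundedness -/
theorem Ub_form {d : ℕ} (hd : 1 ≤ d) : ∃ C : ℝ, 0 < C ∧ ∀ φ : L2d d, InH1 φ →
      Integrable (fun x => Ub x * ‖φ x‖ ^ 2) volume ∧
      ∫ x, Ub x * ‖φ x‖ ^ 2 ≤ C * ∫ ξ : Ed d, (1 + ‖ξ‖ ^ 2) * ‖(𝓕 φ : L2d d) ξ‖ ^ 2 := by
  obtain ⟨p, hp⟩ : ∃ p : ℝ, p = (d : ℝ) + 1 := ⟨_, rfl⟩
  have hd1 : (1 : ℝ) ≤ d := by exact_mod_cast hd
  have hp1 : 1 < p := by rw [hp]; linarith
  have hp2 : (d : ℝ) / 2 < p := by rw [hp]; linarith
  let Q : Ed d → ℝ := fun x => Ub x + 1 / (1 + ‖x‖ ^ 2)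
  have hQm : Measurable Q := Ub_meas.add (by fun_prop)
  have hQ0 : ∀ x, 0 < Q x := fun x => by
    have := Ub_nonneg x
    have : 0 < 1 / (1 + ‖x‖ ^ 2) := by positivity
    show 0 < Ub x + 1 / (1 + ‖x‖ ^ 2)
    linarith
  have hp0 : ENNReal.ofReal p ≠ 0 := by
    rw [Ne, ENNReal.ofReal_eq_zero, not_le]; linarith
  have hψ : MemLp (fun x : Ed d => 1 / (1 + ‖x‖ ^ 2)) (ENNReal.ofReal p) volume := by
    have hm : AEStronglyMeasurable (fun x : Ed d => 1 / (1 + ‖x‖ ^ 2)) volume := by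
      apply Measurable.aestronglyMeasurable; fun_prop
    rw [← integrable_norm_rpow_iff hm hp0 ENNReal.ofReal_ne_top,
      ENNReal.toReal_ofReal (by linarith)]
    refine (K03.d3f_Gint d p hp2).congr (Filter.Eventually.of_forall fun x => ?_)
    simp only
    rw [Real.norm_of_nonneg (by positivity)]
  have hQp : Integrable (fun x => Q x ^ p) volume := by
    have h1 : MemLp Q (ENNReal.ofReal p) volume :=
      (Ub_memLp hd _ ENNReal.ofReal_ne_top).add hψ
    rw [← integrable_norm_rpow_iff hQm.aestronglyMeasurable hp0 ENNReal.ofReal_ne_top,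
      ENNReal.toReal_ofReal (by linarith)] at h1
    refine h1.congr (Filter.Eventually.of_forall fun x => ?_)
    simp only
    rw [Real.norm_of_nonneg (hQ0 x).le]
  obtain ⟨C, hC, h⟩ := K03.d3_form (K02.d2_cw K01.d1_fourier) d hd p hp1 hp2 Q hQm hQ0 hQp
  refine ⟨C, hC, fun φ hφ => ?_⟩
  obtain ⟨h1, h2⟩ := h φ hφ
  have hle : ∀ x : Ed d, Ub x * ‖φ x‖ ^ 2 ≤ Q x * ‖φ x‖ ^ 2 := by
    intro x
    have : Ub x ≤ Q x := by
      show Ub x ≤ Ub x + 1 / (1 + ‖x‖ ^ 2)
      have : 0 < 1 / (1 + ‖x‖ ^ 2) := by positivity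
      linarith
    gcongr
  have hint : Integrable (fun x => Ub x * ‖φ x‖ ^ 2) volume := by
    refine h1.mono' (Ub_meas.aestronglyMeasurable.mul
      ((Lp.aestronglyMeasurable φ).norm.aemeasurable.pow_const 2).aestronglyMeasurable) ?_
    refine Filter.Eventually.of_forall fun x => ?_
    rw [Real.norm_of_nonneg (mul_nonneg (Ub_nonneg x) (sq_nonneg _))]
    exact hle x
  exact ⟨hint, (integral_mono hint h1 hle).trans h2⟩

/-- the operator `√U G` -/
theorem exists_M {d : ℕ} (hd : 1 ≤ d) (G : L2d d →L[ℂ] L2d d)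
    (hG : ∀ x, ((𝓕 (G x) : L2d d) : Ed d → ℂ) =ᵐ[volume] fun ξ => (wt ξ : ℂ) * (𝓕 x : L2d d) ξ) :
    ∃ M : L2d d →L[ℂ] L2d d, ∀ f : L2d d, (M f : Ed d → ℂ) =ᵐ[volume]
      fun x => ((√(Ub x) : ℝ) : ℂ) * (G f) x := by
  obtain ⟨C, hC, h⟩ := Ub_form hd
  obtain ⟨M, hM, -⟩ := exists_op G (fun x => ((√(Ub x) : ℝ) : ℂ))
    (Complex.measurable_ofReal.comp (Ub_meas.sqrt)) (√C) (Real.sqrt_nonneg _) (fun f => by
      obtain ⟨h1, h2⟩ := h (G f) (G_inH1 G hG f)
      have hsq : ∀ x : Ed d, ‖((√(Ub x) : ℝ) : ℂ) * (G f) x‖ ^ 2 = Ub x * ‖(G f) x‖ ^ 2 := by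
        intro x
        rw [norm_mul, mul_pow, Complex.norm_real, Real.norm_of_nonneg (Real.sqrt_nonneg _),
          Real.sq_sqrt (Ub_nonneg x)]
      have hm : AEStronglyMeasurable (fun x : Ed d => ((√(Ub x) : ℝ) : ℂ) * (G f) x) volume :=
        (Complex.measurable_ofReal.comp (Ub_meas.sqrt)).aestronglyMeasurable.mul
          (Lp.aestronglyMeasurable _)
      have hmem : MemLp (fun x : Ed d => ((√(Ub x) : ℝ) : ℂ) * (G f) x) 2 volume := by
        rw [memLp_two_iff_integrable_sq_norm hm]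
        simp only [hsq]
        exact h1
      refine ⟨hmem, ?_⟩
      have h3 : eLpNorm (fun x : Ed d => ((√(Ub x) : ℝ) : ℂ) * (G f) x) 2 volume =
          ENNReal.ofReal ‖hmem.toLp _‖ := by
        rw [← eLpNorm_lp]
        exact eLpNorm_congr_ae hmem.coeFn_toLp.symm
      rw [h3]
      apply ENNReal.ofReal_le_ofReal
      apply le_of_sq_le_sq _ (by positivity)
      rw [norm_sq_int, mul_pow, Real.sq_sqrt hC.le]
      have h4 : ∫ x : Ed d, ‖(hmem.toLp _ : L2d d) x‖ ^ 2 = ∫ x : Ed d, Ub x * ‖(G f) x‖ ^ 2 := by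
        refine integral_congr_ae ?_
        filter_upwards [hmem.coeFn_toLp] with x hx
        rw [hx, hsq]
      rw [h4]
      refine h2.trans ?_
      gcongr
      rw [← Lp.norm_fourier_eq f, norm_sq_int]
      refine integral_mono_ae ?_ (int_sq _) ?_
      · have h5 := (int_sq (𝓕 (G f) : L2d d)).add
          ((memLp_two_iff_integrable_sq_norm (G_inH1 G hG f).1).1 (G_inH1 G hG f))
        refine h5.congr (Filter.Eventually.of_forall fun ξ => ?_)
        simp only [Pi.add_apply]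
        rw [norm_mul, Complex.norm_real, norm_norm]
        ring
      · filter_upwards [hG f] with ξ h6
        rw [h6, norm_mul, mul_pow, Complex.norm_real, Real.norm_of_nonneg (wt_pos ξ).le, ← mul_assoc]
        have h7 := wt_sq ξ
        have h9 : ‖ξ‖ ^ 2 ≤ (2 * Real.pi * ‖ξ‖) ^ 2 := by
          have := Real.pi_gt_three
          have h10 : ‖ξ‖ ≤ 2 * Real.pi * ‖ξ‖ := by nlinarith [norm_nonneg ξ]
          exact pow_le_pow_left₀ (norm_nonneg _) h10 2
        have h8 : (1 + ‖ξ‖ ^ 2) * wt ξ ^ 2 ≤ 1 := by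
          calc (1 + ‖ξ‖ ^ 2) * wt ξ ^ 2 ≤ (1 + (2 * Real.pi * ‖ξ‖) ^ 2) * wt ξ ^ 2 := by gcongr
            _ = 1 := by rw [mul_comm]; exact h7
        nlinarith [sq_nonneg ‖(𝓕 f : L2d d) ξ‖])
  exact ⟨M, hM⟩

end Pool.Agent.H3R2.ES
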