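import Mathlib
import Pool.Agent.H3R2.ES.Pot

namespace Pool.Agent.H3R2.ES

open MeasureTheory ENNReal FourierTransform Pool.Agent.Helper209.CX
open scoped InnerProductSpace SchwartzMap Topology

theorem exists_S {d : ℕ} (G M : L2d d →L[ℂ] L2d d)
    (hG : ∀ x, ((𝓕 (G x) : L2d d) : Ed d → ℂ) =ᵐ[volume] fun ξ => (wt ξ : ℂ) * (𝓕 x : L2d d) ξ)
    (h : ℝ) : ∃ S : L2d d →L[ℂ] L2d d,
    ∀ x y, ⟪y, S x⟫_ℂ = ((h ^ 2 : ℝ) : ℂ) * (⟪y, x⟫_ℂ - ⟪G y, G x⟫_ℂ) + ⟪M y, M x⟫_ℂ +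
      ⟪G y, G x⟫_ℂ := by
  refine ⟨((h ^ 2 : ℝ) : ℂ) • (ContinuousLinearMap.id ℂ (L2d d) - G ∘L G) +
    (ContinuousLinearMap.adjoint M) ∘L M + G ∘L G, fun x y => ?_⟩
  have e : (((h ^ 2 : ℝ) : ℂ) • (ContinuousLinearMap.id ℂ (L2d d) - G ∘L G) +
    (ContinuousLinearMap.adjoint M) ∘L M + G ∘L G) x =
    ((h ^ 2 : ℝ) : ℂ) • (x - G (G x)) + (ContinuousLinearMap.adjoint M) (M x) + G (G x) := rfl
  rw [e, inner_add_right, inner_add_right, inner_smul_right, inner_sub_right,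
    ContinuousLinearMap.adjoint_inner_right, ← G_symm G hG y (G x)]

section
variable {d : ℕ} (G M S : L2d d →L[ℂ] L2d d)
    (hG : ∀ x, ((𝓕 (G x) : L2d d) : Ed d → ℂ) =ᵐ[volume] fun ξ => (wt ξ : ℂ) * (𝓕 x : L2d d) ξ)
    (h : ℝ)
    (hS : ∀ x y, ⟪y, S x⟫_ℂ = ((h ^ 2 : ℝ) : ℂ) * (⟪y, x⟫_ℂ - ⟪G y, G x⟫_ℂ) + ⟪M y, M x⟫_ℂ +
      ⟪G y, G x⟫_ℂ)
include hS

theorem S_symm (x y : L2d d) : ⟪S x, y⟫_ℂ = ⟪x, S y⟫_ℂ := by
  rw [← inner_conj_symm, hS, hS]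
  simp only [map_add, map_mul, map_sub, Complex.conj_ofReal, inner_conj_symm]

theorem S_re (x : L2d d) : (⟪x, S x⟫_ℂ).re =
    h ^ 2 * (‖x‖ ^ 2 - ‖G x‖ ^ 2) + ‖M x‖ ^ 2 + ‖G x‖ ^ 2 := by
  rw [hS]
  have e1 : (⟪x, x⟫_ℂ).re = ‖x‖ ^ 2 := inner_self_eq_norm_sq (𝕜 := ℂ) _
  have e2 : (⟪M x, M x⟫_ℂ).re = ‖M x‖ ^ 2 := inner_self_eq_norm_sq (𝕜 := ℂ) _
  have e3 : (⟪G x, G x⟫_ℂ).re = ‖G x‖ ^ 2 := inner_self_eq_norm_sq (𝕜 := ℂ) _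
  rw [Complex.add_re, Complex.add_re, Complex.re_ofReal_mul, Complex.sub_re, e1, e2, e3]

include hG

theorem S_coer (hh : h ^ 2 ≤ 1) (x : L2d d) : h ^ 2 * ‖x‖ ^ 2 ≤ (⟪x, S x⟫_ℂ).re := by
  rw [S_re G M S h hS]
  nlinarith [sq_nonneg ‖M x‖, sq_nonneg ‖G x‖]

theorem S_G (x : L2d d) : ‖G x‖ ^ 2 ≤ (⟪x, S x⟫_ℂ).re := by
  rw [S_re G M S h hS]
  have := pow_le_pow_left₀ (norm_nonneg _) (G_norm G hG x) 2
  nlinarith [sq_nonneg ‖M x‖, sq_nonneg h, mul_nonneg (sq_nonneg h) (sub_nonneg.2 this)]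

end

/-- from the operator identity to `H u = f` -/
theorem isHu_of {d : ℕ} (G χ M S : L2d d →L[ℂ] L2d d)
    (hG : ∀ x, ((𝓕 (G x) : L2d d) : Ed d → ℂ) =ᵐ[volume] fun ξ => (wt ξ : ℂ) * (𝓕 x : L2d d) ξ)
    (hχ : ∀ f : L2d d, (χ f : Ed d → ℂ) =ᵐ[volume]
      fun x => (UB d).indicator (fun _ => (1 : ℂ)) x * f x)
    (hM : ∀ f : L2d d, (M f : Ed d → ℂ) =ᵐ[volume] fun x => ((√(Ub x) : ℝ) : ℂ) * (G f) x)
    (h : ℝ)
    (hS : ∀ x y, ⟪y, S x⟫_ℂ = ((h ^ 2 : ℝ) : ℂ) * (⟪y, x⟫_ℂ - ⟪G y, G x⟫_ℂ) + ⟪M y, M x⟫_ℂ +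
      ⟪G y, G x⟫_ℂ) (g f : L2d d)
    (hgf : S g - G (G g) + Complex.I • G (χ (G g)) = G f) : IsHu h Vb (G g) f := by
  refine ⟨G_inH1 G hG g, fun φ hφ => ?_⟩
  obtain ⟨k, hk⟩ := G_surj G hG φ hφ
  have e1 : (fun x => ⟪M k x, M g x⟫_ℂ) =ᵐ[volume]
      fun x => ((Ub x : ℝ) : ℂ) * (G g) x * (starRingEnd ℂ) (φ x) := by
    have h3 := hM k
    rw [hk] at h3
    filter_upwards [h3, hM g] with x h5 h6
    rw [RCLike.inner_apply, h5, h6, map_mul, Complex.conj_ofReal]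
    have h7 : ((√(Ub x) : ℝ) : ℂ) * ((√(Ub x) : ℝ) : ℂ) = ((Ub x : ℝ) : ℂ) := by
      rw [← Complex.ofReal_mul, Real.mul_self_sqrt (Ub_nonneg x)]
    rw [← h7]
    ring
  have i1 : Integrable (fun x => ((Ub x : ℝ) : ℂ) * (G g) x * (starRingEnd ℂ) (φ x)) volume :=
    (L2.integrable_inner (𝕜 := ℂ) (M k) (M g)).congr e1
  have e2 : (fun x => χ (G g) x * (starRingEnd ℂ) (φ x)) =ᵐ[volume]
      fun x => (UB d).indicator (fun _ => (1 : ℂ)) x * (G g) x * (starRingEnd ℂ) (φ x) := by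
    filter_upwards [hχ (G g)] with x h5
    rw [h5]
  have i2 : Integrable (fun x => (UB d).indicator (fun _ => (1 : ℂ)) x * (G g) x *
      (starRingEnd ℂ) (φ x)) volume :=
    (K31.isHu_zero_int2 (χ (G g)) φ).congr e2
  have e3 : (fun x : Ed d => Vb x * (G g) x * (starRingEnd ℂ) (φ x)) =
      fun x => ((Ub x : ℝ) : ℂ) * (G g) x * (starRingEnd ℂ) (φ x) + Complex.I *
        ((UB d).indicator (fun _ => (1 : ℂ)) x * (G g) x * (starRingEnd ℂ) (φ x)) := by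
    funext x
    unfold Vb
    ring
  refine ⟨?_, ?_⟩
  · rw [e3]
    exact i1.add (i2.const_mul _)
  · rw [e3, integral_add i1 (i2.const_mul _), integral_const_mul, ← integral_congr_ae e1,
      ← integral_congr_ae e2, ← L2.inner_def]
    have e4 : ∀ v : L2d d, ∫ x, v x * (starRingEnd ℂ) (φ x) = ⟪φ, v⟫_ℂ := by
      intro v
      rw [L2.inner_def]
      refine integral_congr_ae (Filter.Eventually.of_forall fun x => ?_)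
      simp only [RCLike.inner_apply]
    rw [e4, e4, ← hk, G_dir G hG]
    have e5 := congrArg (fun v => ⟪k, v⟫_ℂ) hgf
    simp only [inner_add_right, inner_sub_right, inner_smul_right] at e5
    rw [hS, ← G_symm G hG k, ← G_symm G hG k, ← G_symm G hG k] at e5
    rw [← e5]
    ring

end Pool.Agent.H3R2.ES
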