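import Mathlib
import Pool.Agent.H3R2.ES.Abs

namespace Pool.Agent.H3R2.ES

open scoped InnerProductSpace NNReal ENNReal

variable {H : Type*} [NormedAddCommGroup H] [InnerProductSpace ℂ H] [CompleteSpace H]

theorem chi_pyth (χ : H →L[ℂ] H) (hχ : ∀ x y, ⟪χ x, y⟫_ℂ = ⟪x, χ y⟫_ℂ)
    (hχ2 : ∀ x, χ (χ x) = χ x) (z : H) : ‖z‖ ^ 2 = ‖χ z‖ ^ 2 + ‖z - χ z‖ ^ 2 := by
  have h0 : ⟪χ z, z - χ z⟫_ℂ = 0 := by
    rw [hχ, map_sub, hχ2, sub_self, inner_zero_right]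
  have h1 : z = χ z + (z - χ z) := by abel
  have h2 := norm_add_sq_eq_norm_sq_add_norm_sq_of_inner_eq_zero (χ z) (z - χ z) h0
  rw [← h1] at h2
  nlinarith

theorem chi_norm (χ : H →L[ℂ] H) (hχ : ∀ x y, ⟪χ x, y⟫_ℂ = ⟪x, χ y⟫_ℂ)
    (hχ2 : ∀ x, χ (χ x) = χ x) (z : H) : ‖χ z‖ ≤ ‖z‖ := by
  have := chi_pyth χ hχ hχ2 z
  exact le_of_sq_le_sq (by nlinarith [sq_nonneg ‖z - χ z‖]) (norm_nonneg _)

set_option maxHeartbeats 4000000 in
theorem riccati (G χ S : H →L[ℂ] H) (hG : ∀ x y, ⟪G x, y⟫_ℂ = ⟪x, G y⟫_ℂ)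
    (hG1 : ∀ x, ‖G x‖ ≤ ‖x‖)
    (hχ : ∀ x y, ⟪χ x, y⟫_ℂ = ⟪x, χ y⟫_ℂ) (hχ2 : ∀ x, χ (χ x) = χ x)
    (hS : ∀ x y, ⟪S x, y⟫_ℂ = ⟪x, S y⟫_ℂ) (s0 : ℝ) (hs0 : 0 < s0) (hs1 : s0 ≤ 1)
    (hcoer : ∀ x, s0 * ‖x‖ ^ 2 ≤ (⟪x, S x⟫_ℂ).re)
    {N : ℕ} (g : Fin N → H) (μ : Fin N → ℝ) (Λ γ ε : ℝ) (hΛ : 0 ≤ Λ) (hγ : 0 < γ) (hγ1 : γ ≤ 1)
    (hε : 0 ≤ ε) (hμ0 : ∀ n, 0 ≤ μ n) (hμΛ : ∀ n, μ n ≤ Λ)
    (hSg : ∀ n, S (g n) = (((1 + μ n : ℝ)) : ℂ) • G (χ (G (g n))))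
    (horth : ∀ m n, ⟪χ (G (g m)), χ (G (g n))⟫_ℂ = if m = n then 1 else 0)
    (hcompl : ∀ x, (∀ n, ⟪χ (G (g n)), χ (G x)⟫_ℂ = 0) →
      (1 + Λ + γ) * ‖χ (G x)‖ ^ 2 ≤ (⟪x, S x⟫_ℂ).re)
    (hgε : ∀ n, ‖G (g n) - χ (G (g n))‖ ≤ ε) (δ : ℝ)
    (hsm1 : 128 * ((N : ℝ) + 1) ^ 2 * (3 + Λ) ^ 6 * ε ≤ s0 ^ 3 * γ ^ 2)
    (hsm2 : 128 * ((N : ℝ) + 1) ^ 2 * (3 + Λ) ^ 6 * ε ≤ s0 ^ 3 * γ ^ 2 * δ) :
    ∃ (g' : Fin N → H) (B : Matrix (Fin N) (Fin N) ℂ),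
      (∀ n, S (g' n) - G (G (g' n)) - Complex.I • G (G (g' n) - χ (G (g' n))) =
        ∑ m, B m n • G (G (g' m))) ∧
      LinearIndependent ℂ (fun n => G (g' n)) ∧
      ∀ m n, ‖B m n - if m = n then ((μ n : ℝ) : ℂ) else 0‖ ≤ δ := by
  classical
  -- functionals
  let c : Fin N → H →L[ℂ] ℂ := fun m => innerSL ℂ (G (χ (G (g m))))
  have hc0 : ∀ m x, c m x = ⟪G (χ (G (g m))), x⟫_ℂ := fun m x => rfl
  have hc : ∀ m x, c m x = ⟪χ (G (g m)), χ (G x)⟫_ℂ := by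
    intro m x
    rw [hc0, hG, ← hχ2 (G (g m)), hχ, hχ2]
  have hcn : ∀ m x, ‖c m x‖ ≤ ‖x‖ := by
    intro m x
    rw [hc]
    have h1 : ‖χ (G (g m))‖ = 1 := by
      have := horth m m
      rw [inner_self_eq_norm_sq_to_K, if_pos rfl] at this
      have h2 : ((‖χ (G (g m))‖ : ℝ) : ℂ) ^ 2 = 1 := this
      have h3 : ‖χ (G (g m))‖ ^ 2 = 1 := by exact_mod_cast h2
      nlinarith [norm_nonneg (χ (G (g m)))]
    calc ‖⟪χ (G (g m)), χ (G x)⟫_ℂ‖ ≤ ‖χ (G (g m))‖ * ‖χ (G x)‖ := norm_inner_le_norm _ _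
      _ ≤ 1 * ‖x‖ := by
          rw [h1]
          exact mul_le_mul_of_nonneg_left ((chi_norm χ hχ hχ2 _).trans (hG1 x)) zero_le_one
      _ = ‖x‖ := one_mul _
  have hcg : ∀ m n, c m (g n) = if m = n then 1 else 0 := fun m n => by rw [hc, horth]
  -- projection
  let P : H →L[ℂ] H := ∑ m, (c m).smulRight (g m)
  have hP : ∀ x, P x = ∑ m, c m x • g m := by
    intro x
    simp only [P, sum_apply, ContinuousLinearMap.smulRight_apply]
  have hcP : ∀ m x, c m (P x) = c m x := by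
    intro m x
    rw [hP, map_sum]
    simp only [map_smul, hcg, smul_eq_mul, mul_ite, mul_one, mul_zero]
    simp
  have hcX : ∀ m x, c m (x - P x) = 0 := by
    intro m x
    rw [map_sub, hcP, sub_self]
  -- energy of P x
  have hgS : ∀ x : H, (⟪P x, S (P x)⟫_ℂ).re ≤ (1 + Λ) * ∑ k, ‖c k x‖ ^ 2 := by
    intro x
    have h1 : S (P x) = ∑ k, (c k x * ((1 + μ k : ℝ) : ℂ)) • G (χ (G (g k))) := by
      conv_lhs => rw [hP, map_sum]
      refine Finset.sum_congr rfl fun k _ => ?_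
      rw [map_smul, hSg, smul_smul]
    have h2 : ⟪P x, S (P x)⟫_ℂ = ((∑ k, (1 + μ k) * ‖c k x‖ ^ 2 : ℝ) : ℂ) := by
      rw [h1, inner_sum]
      push_cast
      refine Finset.sum_congr rfl fun k _ => ?_
      rw [inner_smul_right, ← inner_conj_symm, ← hc0, hcP]
      rw [mul_right_comm, Complex.mul_conj, Complex.normSq_eq_norm_sq]
      push_cast
      ring
    rw [h2, Complex.ofReal_re, Finset.mul_sum]
    refine Finset.sum_le_sum fun k _ => ?_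
    have := hμΛ k
    gcongr
  have hPn : ∀ x : H, s0 * ‖P x‖ ^ 2 ≤ (1 + Λ) * ∑ k, ‖c k x‖ ^ 2 := fun x =>
    (hcoer _).trans (hgS x)
  have hχP : ∀ x : H, ∑ k, ‖c k x‖ ^ 2 ≤ ‖G (P x)‖ ^ 2 := by
    intro x
    refine le_trans ?_ (pow_le_pow_left₀ (norm_nonneg _) (chi_norm χ hχ hχ2 (G (P x))) 2)
    have h1 : χ (G (P x)) = ∑ k, c k x • χ (G (g k)) := by
      rw [hP, map_sum, map_sum]
      refine Finset.sum_congr rfl fun k _ => ?_
      rw [map_smul, map_smul]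
    have h2 : ⟪χ (G (P x)), χ (G (P x))⟫_ℂ = ((∑ k, ‖c k x‖ ^ 2 : ℝ) : ℂ) := by
      conv_lhs => rw [h1, inner_sum]
      push_cast
      refine Finset.sum_congr rfl fun k _ => ?_
      rw [inner_smul_right, ← inner_conj_symm, ← h1, ← hc, hcP, Complex.mul_conj,
        Complex.normSq_eq_norm_sq]
      push_cast
      ring
    rw [inner_self_eq_norm_sq_to_K] at h2
    have h3 : ‖χ (G (P x))‖ ^ 2 = ∑ k, ‖c k x‖ ^ 2 := by
      apply Complex.ofReal_injective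
      rw [← h2]
      push_cast
      rfl
    rw [h3]
  have hck : ∀ (x : H) k, ‖c k x‖ ≤ √(∑ k, ‖c k x‖ ^ 2) := by
    intro x k
    apply Real.le_sqrt_of_sq_le
    exact Finset.single_le_sum (f := fun k => ‖c k x‖ ^ 2) (fun i _ => sq_nonneg _)
      (Finset.mem_univ k)
  -- the operators
  let T : Fin N → H →L[ℂ] H := fun n =>
    S - G ∘L G - Complex.I • (G ∘L (G - χ ∘L G)) - ((μ n : ℝ) : ℂ) • (G ∘L G)
  have hT : ∀ n x, T n x = S x - G (G x) - Complex.I • G (G x - χ (G x)) -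
      ((μ n : ℝ) : ℂ) • G (G x) := fun n x => rfl
  let L : Fin N → H →L[ℂ] H := fun n => T n ∘L (1 - P) + G ∘L G ∘L P
  have hL : ∀ n x, L n x = T n (x - P x) + G (G (P x)) := fun n x => rfl
  set cY : ℝ := s0 * γ / (2 + Λ) with hcY
  have hcY0 : 0 < cY := by positivity
  have hN1 : (0 : ℝ) ≤ N := Nat.cast_nonneg N
  have hs3 : s0 ^ 3 ≤ s0 := by nlinarith [mul_pos hs0 hs0]
  have hγ2 : γ ^ 2 ≤ γ := by nlinarith
  have hsγ : s0 ^ 3 * γ ^ 2 ≤ s0 * γ := by gcongr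
  have hA : (1 : ℝ) ≤ 3 + Λ := by linarith
  have hcross : (2 + Λ) * (3 + Λ) * (N * ε) ≤ cY := by
    rw [hcY, le_div_iff₀ (by linarith)]
    have h1 : (2 + Λ) * (3 + Λ) * (N * ε) * (2 + Λ) ≤ (3 + Λ) ^ 3 * (((N : ℝ) + 1) ^ 2 * ε) := by
      have h2 : (N : ℝ) ≤ ((N : ℝ) + 1) ^ 2 := by nlinarith
      calc (2 + Λ) * (3 + Λ) * (N * ε) * (2 + Λ)
          ≤ (3 + Λ) * (3 + Λ) * (((N : ℝ) + 1) ^ 2 * ε) * (3 + Λ) := by gcongr <;> linarith
        _ = _ := by ring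
    have h3 : (3 + Λ) ^ 3 ≤ (3 + Λ) ^ 6 := pow_le_pow_right₀ hA (by norm_num)
    have h4 : (3 + Λ) ^ 3 * (((N : ℝ) + 1) ^ 2 * ε) ≤ (3 + Λ) ^ 6 * (((N : ℝ) + 1) ^ 2 * ε) := by
      gcongr
    have h5 : 0 ≤ (3 + Λ) ^ 6 * (((N : ℝ) + 1) ^ 2 * ε) := by positivity
    nlinarith
  have hcY1 : cY ≤ 1 := by
    rw [hcY, div_le_one (by linarith)]
    nlinarith
  have hcYs : cY * (1 + Λ) ≤ s0 := by
    rw [hcY, div_mul_eq_mul_div, div_le_iff₀ (by linarith)]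
    have h1 : γ * (1 + Λ) ≤ 2 + Λ := by nlinarith
    calc s0 * γ * (1 + Λ) = s0 * (γ * (1 + Λ)) := by ring
      _ ≤ s0 * (2 + Λ) := by gcongr
  -- coercivity
  have key : ∀ n h, cY / (4 * (2 + Λ)) * ‖h‖ ^ 2 ≤ ‖⟪h, L n h⟫_ℂ‖ := by
    intro n h
    obtain ⟨x, hx⟩ : ∃ x, x = h - P h := ⟨_, rfl⟩
    obtain ⟨y, hy⟩ : ∃ y, y = P h := ⟨_, rfl⟩
    obtain ⟨s, hs⟩ : ∃ s : ℝ, s = ∑ k, ‖c k h‖ ^ 2 := ⟨_, rfl⟩
    have hs0' : 0 ≤ s := by rw [hs]; positivity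
    have hh : h = x + y := by rw [hx, hy]; abel
    have hcx : ∀ k, c k x = 0 := fun k => by rw [hx]; exact hcX k h
    have hyn : s0 * ‖y‖ ^ 2 ≤ (1 + Λ) * s := by rw [hy, hs]; exact hPn h
    have hys : s ≤ ‖G y‖ ^ 2 := by rw [hy, hs]; exact hχP h
    have hysum : y = ∑ k, c k h • g k := by rw [hy, hP]
    -- pairing with g k
    have hGg : ∀ k z, ⟪G (g k), G z⟫_ℂ = ⟪G (g k) - χ (G (g k)), G z⟫_ℂ + c k z := by
      intro k z
      rw [inner_sub_left, hc0, hG (χ (G (g k)))]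
      ring
    have hGx : ∀ k, ⟪G (g k), G x⟫_ℂ = ⟪G (g k) - χ (G (g k)), G x⟫_ℂ := by
      intro k; rw [hGg, hcx, add_zero]
    have hGxn : ∀ k, ‖⟪G (g k), G x⟫_ℂ‖ ≤ ε * ‖x‖ := by
      intro k
      rw [hGx]
      refine (norm_inner_le_norm _ _).trans ?_
      exact mul_le_mul (hgε k) (hG1 x) (norm_nonneg _) hε
    have hsum : ∀ (v : Fin N → ℂ) (q : ℝ), 0 ≤ q → (∀ k, ‖v k‖ ≤ q) →
        ‖∑ k, v k‖ ≤ N * q := by
      intro v q hq hv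
      refine (norm_sum_le _ _).trans ?_
      refine (Finset.sum_le_sum fun k _ => hv k).trans ?_
      simp
    -- cross term 1
    have hx1 : ‖⟪x, G (G y)⟫_ℂ‖ ≤ N * (√s * (ε * ‖x‖)) := by
      have e : ⟪x, G (G y)⟫_ℂ = ∑ k, c k h * ⟪G x, G (g k)⟫_ℂ := by
        rw [hysum, map_sum, map_sum, inner_sum]
        refine Finset.sum_congr rfl fun k _ => ?_
        rw [map_smul, map_smul, inner_smul_right, hG]
      rw [e]
      refine hsum _ _ (by positivity) fun k => ?_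
      rw [norm_mul, norm_inner_symm]
      exact mul_le_mul (by rw [hs]; exact hck h k) (hGxn k) (norm_nonneg _) (Real.sqrt_nonneg _)
    -- cross term 2
    have hx2 : ‖⟪y, T n x⟫_ℂ‖ ≤ N * (√s * ((2 + Λ) * (ε * ‖x‖))) := by
      have e : ⟪y, T n x⟫_ℂ = ∑ k, (starRingEnd ℂ) (c k h) * ⟪g k, T n x⟫_ℂ := by
        rw [hysum, sum_inner]
        refine Finset.sum_congr rfl fun k _ => ?_
        rw [inner_smul_left]
      rw [e]
      refine hsum _ _ (by positivity) fun k => ?_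
      rw [norm_mul, RCLike.norm_conj]
      refine mul_le_mul (by rw [hs]; exact hck h k) ?_ (norm_nonneg _) (Real.sqrt_nonneg _)
      have e1 : ⟪g k, S x⟫_ℂ = 0 := by
        rw [← hS, hSg, inner_smul_left, ← hc0, hcx, mul_zero]
      have e2 : ⟪g k, G (G x - χ (G x))⟫_ℂ = ⟪G (g k), G x⟫_ℂ := by
        rw [← hG (g k), inner_sub_right, ← hχ (G (g k)), ← hG (χ (G (g k))), ← hc0, hcx, sub_zero]
      have e3 : ⟪g k, T n x⟫_ℂ = -(((1 + μ n : ℝ) : ℂ) + Complex.I) * ⟪G (g k), G x⟫_ℂ := by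
        rw [hT, inner_sub_right, inner_sub_right, inner_sub_right, e1, inner_smul_right,
          inner_smul_right, e2, ← hG]
        push_cast
        ring
      rw [e3, norm_mul]
      have e4 : ‖-(((1 + μ n : ℝ) : ℂ) + Complex.I)‖ ≤ 2 + Λ := by
        rw [norm_neg]
        refine (norm_add_le _ _).trans ?_
        rw [Complex.norm_I, Complex.norm_real, Real.norm_of_nonneg (by linarith [hμ0 n])]
        linarith [hμΛ n]
      exact mul_le_mul e4 (hGxn k) (norm_nonneg _) (by linarith)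
    -- diagonal terms
    have hxx : cY * ‖x‖ ^ 2 ≤ (⟪x, T n x⟫_ℂ).re - (1 + Λ) * (⟪x, T n x⟫_ℂ).im := by
      have hreal : (⟪x, S x⟫_ℂ).im = 0 := by
        have := hS x x
        rw [← inner_conj_symm] at this
        exact Complex.conj_eq_iff_im.1 this
      have hpy := chi_pyth χ hχ hχ2 (G x)
      have e1 : ⟪x, G (G x)⟫_ℂ = ((‖G x‖ ^ 2 : ℝ) : ℂ) := by
        rw [← hG, inner_self_eq_norm_sq_to_K]
        push_cast
        rfl
      have e2 : ⟪x, G (G x - χ (G x))⟫_ℂ = ((‖G x - χ (G x)‖ ^ 2 : ℝ) : ℂ) := by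
        have h0 : ⟪χ (G x), G x - χ (G x)⟫_ℂ = 0 := by
          rw [hχ, map_sub, hχ2, sub_self, inner_zero_right]
        have h1 : ⟪G x, G x - χ (G x)⟫_ℂ = ⟪G x - χ (G x), G x - χ (G x)⟫_ℂ := by
          conv_rhs => rw [inner_sub_left, h0, sub_zero]
        rw [← hG, h1, inner_self_eq_norm_sq_to_K]
        push_cast
        rfl
      have e3 : ⟪x, T n x⟫_ℂ = ⟪x, S x⟫_ℂ - ((‖G x‖ ^ 2 : ℝ) : ℂ) -
          Complex.I * ((‖G x - χ (G x)‖ ^ 2 : ℝ) : ℂ) - ((μ n : ℝ) : ℂ) * ((‖G x‖ ^ 2 : ℝ) : ℂ) := by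
        rw [hT, inner_sub_right, inner_sub_right, inner_sub_right, inner_smul_right,
          inner_smul_right, e1, e2]
      have e4 : (⟪x, T n x⟫_ℂ).re = (⟪x, S x⟫_ℂ).re - ‖G x‖ ^ 2 - μ n * ‖G x‖ ^ 2 := by
        rw [e3, Complex.sub_re, Complex.sub_re, Complex.sub_re, Complex.mul_re, Complex.mul_re,
          Complex.I_re, Complex.I_im, Complex.ofReal_re, Complex.ofReal_im, Complex.ofReal_re,
          Complex.ofReal_re, Complex.ofReal_im, Complex.ofReal_im]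
        ring
      have e5 : (⟪x, T n x⟫_ℂ).im = - ‖G x - χ (G x)‖ ^ 2 := by
        rw [e3, Complex.sub_im, Complex.sub_im, Complex.sub_im, Complex.mul_im, Complex.mul_im,
          Complex.I_re, Complex.I_im, Complex.ofReal_re, Complex.ofReal_im, Complex.ofReal_re,
          Complex.ofReal_re, Complex.ofReal_im, Complex.ofReal_im, hreal]
        ring
      have hco := hcompl x (fun k => by rw [← hc]; exact hcx k)
      have hcr := hcoer x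
      rw [e4, e5]
      obtain ⟨X, hX⟩ : ∃ X, X = (⟪x, S x⟫_ℂ).re := ⟨_, rfl⟩
      obtain ⟨a, ha⟩ : ∃ a, a = ‖χ (G x)‖ ^ 2 := ⟨_, rfl⟩
      obtain ⟨b, hb⟩ : ∃ b, b = ‖G x - χ (G x)‖ ^ 2 := ⟨_, rfl⟩
      have ha0 : 0 ≤ a := by rw [ha]; positivity
      have hb0 : 0 ≤ b := by rw [hb]; positivity
      rw [← hX] at hco hcr ⊢
      rw [← ha] at hco hpy
      rw [← hb] at hpy ⊢
      rw [hpy]
      have hμn := hμΛ n
      have h1 : X - (1 + Λ) * a ≤ X - (a + b) - μ n * (a + b) - (1 + Λ) * -b := by nlinarith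
      refine le_trans ?_ h1
      -- X - (1+Λ) a ≥ X γ/(1+Λ+γ)
      have h2 : γ * X ≤ (2 + Λ) * (X - (1 + Λ) * a) := by
        have hX0 : 0 ≤ X := le_trans (by positivity) hco
        nlinarith [mul_nonneg hX0 (by linarith : (0:ℝ) ≤ 1 - γ)]
      rw [hcY, div_mul_eq_mul_div, div_le_iff₀ (by linarith)]
      calc s0 * γ * ‖x‖ ^ 2 = γ * (s0 * ‖x‖ ^ 2) := by ring
        _ ≤ γ * X := by gcongr
        _ ≤ _ := by linarith
    have hyy : ⟪y, G (G y)⟫_ℂ = ((‖G y‖ ^ 2 : ℝ) : ℂ) := by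
      rw [← hG, inner_self_eq_norm_sq_to_K]
      push_cast
      rfl
    have hz : ⟪h, L n h⟫_ℂ = ⟪x, T n x⟫_ℂ + ⟪x, G (G y)⟫_ℂ + ⟪y, T n x⟫_ℂ + ⟪y, G (G y)⟫_ℂ := by
      rw [hL, ← hx, ← hy, hh, inner_add_left, inner_add_right, inner_add_right]
      ring
    obtain ⟨z1, hz1⟩ : ∃ z, z = ⟪x, G (G y)⟫_ℂ := ⟨_, rfl⟩
    obtain ⟨z2, hz2⟩ : ∃ z, z = ⟪y, T n x⟫_ℂ := ⟨_, rfl⟩
    obtain ⟨z0, hz0⟩ : ∃ z, z = ⟪x, T n x⟫_ℂ := ⟨_, rfl⟩
    rw [← hz1] at hx1 hz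
    rw [← hz2] at hx2 hz
    rw [← hz0] at hxx hz
    rw [hyy] at hz
    have r1 := Complex.abs_re_le_norm z1
    have r2 := Complex.abs_im_le_norm z1
    have r3 := Complex.abs_re_le_norm z2
    have r4 := Complex.abs_im_le_norm z2
    have r5 := Complex.abs_re_le_norm (⟪h, L n h⟫_ℂ)
    have r6 := Complex.abs_im_le_norm (⟪h, L n h⟫_ℂ)
    obtain ⟨Z, hZ⟩ : ∃ Z, Z = ⟪h, L n h⟫_ℂ := ⟨_, rfl⟩
    rw [← hZ] at hz r5 r6 ⊢
    have hZre : Z.re = z0.re + z1.re + z2.re + ‖G y‖ ^ 2 := by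
      rw [hz, Complex.add_re, Complex.add_re, Complex.add_re, Complex.ofReal_re]
    have hZim : Z.im = z0.im + z1.im + z2.im := by
      rw [hz, Complex.add_im, Complex.add_im, Complex.add_im, Complex.ofReal_im, add_zero]
    have hlow : cY * ‖x‖ ^ 2 + s - (2 + Λ) * (‖z1‖ + ‖z2‖) ≤ (2 + Λ) * ‖Z‖ := by
      have h1Λ : 0 ≤ 1 + Λ := by linarith
      have t1 : Z.re - (1 + Λ) * Z.im ≤ (2 + Λ) * ‖Z‖ := by
        have a1 := (abs_le.1 r5).2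
        have a2 := (abs_le.1 r6).1
        have a3 : (1 + Λ) * (-Z.im) ≤ (1 + Λ) * ‖Z‖ :=
          mul_le_mul_of_nonneg_left (by linarith) h1Λ
        linarith
      have t2 : -(2 + Λ) * ‖z1‖ ≤ z1.re - (1 + Λ) * z1.im := by
        have a1 := (abs_le.1 r1).1
        have a2 := (abs_le.1 r2).2
        have a3 : (1 + Λ) * z1.im ≤ (1 + Λ) * ‖z1‖ := mul_le_mul_of_nonneg_left a2 h1Λ
        linarith
      have t3 : -(2 + Λ) * ‖z2‖ ≤ z2.re - (1 + Λ) * z2.im := by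
        have a1 := (abs_le.1 r3).1
        have a2 := (abs_le.1 r4).2
        have a3 : (1 + Λ) * z2.im ≤ (1 + Λ) * ‖z2‖ := mul_le_mul_of_nonneg_left a2 h1Λ
        linarith
      rw [hZre, hZim] at t1
      linarith
    have hsq : √s ^ 2 = s := Real.sq_sqrt hs0'
    have hcr : (2 + Λ) * (‖z1‖ + ‖z2‖) ≤ cY * (√s * ‖x‖) := by
      calc (2 + Λ) * (‖z1‖ + ‖z2‖)
          ≤ (2 + Λ) * (N * (√s * (ε * ‖x‖)) + N * (√s * ((2 + Λ) * (ε * ‖x‖)))) := by gcongr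
        _ = (2 + Λ) * (3 + Λ) * (N * ε) * (√s * ‖x‖) := by ring
        _ ≤ cY * (√s * ‖x‖) := by gcongr
    have hcr2 : cY * (√s * ‖x‖) ≤ (cY * ‖x‖ ^ 2 + s) / 2 := by
      have h1 : √s * ‖x‖ ≤ (s + ‖x‖ ^ 2) / 2 := by nlinarith only [sq_nonneg (√s - ‖x‖), hsq]
      have h2 : cY * s ≤ 1 * s := by gcongr
      have h3 : cY * (√s * ‖x‖) ≤ cY * ((s + ‖x‖ ^ 2) / 2) := by gcongr
      linarith
    have hhn : cY * ‖h‖ ^ 2 ≤ 2 * (cY * ‖x‖ ^ 2 + s) := by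
      have h1 : ‖h‖ ^ 2 ≤ 2 * ‖x‖ ^ 2 + 2 * ‖y‖ ^ 2 := by
        rw [hh]
        have h9 := pow_le_pow_left₀ (norm_nonneg _) (norm_add_le x y) 2
        nlinarith only [sq_nonneg (‖x‖ - ‖y‖), h9]
      have h2 : cY * ‖y‖ ^ 2 ≤ s := by
        have h3 : s0 * (cY * ‖y‖ ^ 2) ≤ s0 * s := by
          calc s0 * (cY * ‖y‖ ^ 2) = cY * (s0 * ‖y‖ ^ 2) := by ring
            _ ≤ cY * ((1 + Λ) * s) := by gcongr
            _ = (cY * (1 + Λ)) * s := by ring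
            _ ≤ s0 * s := by gcongr
        exact le_of_mul_le_mul_left h3 hs0
      have h4 : cY * ‖h‖ ^ 2 ≤ cY * (2 * ‖x‖ ^ 2 + 2 * ‖y‖ ^ 2) := by gcongr
      linarith
    rw [div_mul_eq_mul_div, div_le_iff₀ (by linarith)]
    linarith
  -- inverse
  have hk0 : 0 < cY / (4 * (2 + Λ)) := by positivity
  have hunit : ∀ n, IsUnit (L n) := fun n =>
    ContinuousLinearMap.isUnit_of_forall_le_norm_inner_map (L n)
      (c := ⟨cY / (4 * (2 + Λ)), hk0.le⟩) (by exact_mod_cast hk0) (fun x => by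
        rw [norm_inner_symm]
        have := key n x
        calc ‖x‖ ^ 2 * (cY / (4 * (2 + Λ))) = cY / (4 * (2 + Λ)) * ‖x‖ ^ 2 := mul_comm _ _
          _ ≤ _ := this)
  let R : Fin N → H →L[ℂ] H := fun n => ((hunit n).unit⁻¹ : (H →L[ℂ] H)ˣ)
  have hLR : ∀ n x, L n (R n x) = x := by
    intro n x
    have h1 : (L n) * (R n) = 1 := (hunit n).mul_val_inv
    have h2 := congrArg (fun A : H →L[ℂ] H => A x) h1
    exact h2
  set K : ℝ := 4 * (2 + Λ) ^ 2 / (s0 * γ) with hK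
  have hK0 : 0 < K := by positivity
  have hKe : cY / (4 * (2 + Λ)) * K = 1 := by
    rw [hK, hcY]
    have : (2 + Λ) ≠ 0 := by linarith
    field_simp
  have hRn : ∀ n x, ‖R n x‖ ≤ K * ‖x‖ := by
    intro n x
    have h1 := key n (R n x)
    rw [hLR] at h1
    have h2 : ‖⟪R n x, x⟫_ℂ‖ ≤ ‖R n x‖ * ‖x‖ := norm_inner_le_norm _ _
    rcases eq_or_lt_of_le (norm_nonneg (R n x)) with h0 | h0
    · rw [← h0]; positivity
    · have h3 : cY / (4 * (2 + Λ)) * ‖R n x‖ ≤ ‖x‖ := by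
        have : cY / (4 * (2 + Λ)) * ‖R n x‖ * ‖R n x‖ ≤ ‖x‖ * ‖R n x‖ := by nlinarith
        exact le_of_mul_le_mul_right this h0
      calc ‖R n x‖ = cY / (4 * (2 + Λ)) * K * ‖R n x‖ := by rw [hKe, one_mul]
        _ = K * (cY / (4 * (2 + Λ)) * ‖R n x‖) := by ring
        _ ≤ K * ‖x‖ := by gcongr
  -- bilinear map
  let Q : H → (Fin N → H) → H := fun a h => ∑ m, c m a • G (G (h m - P (h m)))
  have hQ : ∀ a h, Q a h = ∑ m, c m a • G (G (h m - P (h m))) := fun a h => rfl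
  have hPx : ∀ x : H, ‖P x‖ ≤ ((N : ℝ) + 1) * (1 + Λ) / s0 * ‖x‖ := by
    intro x
    have h1 := hPn x
    have h2 : ∑ k, ‖c k x‖ ^ 2 ≤ N * ‖x‖ ^ 2 := by
      refine (Finset.sum_le_sum fun k _ => pow_le_pow_left₀ (norm_nonneg _) (hcn k x) 2).trans ?_
      simp
    have h3 : s0 * ‖P x‖ ^ 2 ≤ (1 + Λ) * (N * ‖x‖ ^ 2) := h1.trans (by gcongr)
    have h4 : ‖P x‖ ^ 2 ≤ (((N : ℝ) + 1) * (1 + Λ) / s0 * ‖x‖) ^ 2 := by
      have h5 : (1 + Λ) * (N * ‖x‖ ^ 2) ≤ (((N : ℝ) + 1) * (1 + Λ)) ^ 2 * ‖x‖ ^ 2 := by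
        have h6 : (1 + Λ) * N ≤ (((N : ℝ) + 1) * (1 + Λ)) ^ 2 := by
          have : (1 : ℝ) ≤ (N + 1) * (1 + Λ) := by nlinarith
          nlinarith
        nlinarith [sq_nonneg ‖x‖]
      have h7 : s0 ^ 2 * ‖P x‖ ^ 2 ≤ s0 * ((((N : ℝ) + 1) * (1 + Λ)) ^ 2 * ‖x‖ ^ 2) := by
        nlinarith
      have h8 : s0 * ((((N : ℝ) + 1) * (1 + Λ)) ^ 2 * ‖x‖ ^ 2) ≤
          1 * ((((N : ℝ) + 1) * (1 + Λ)) ^ 2 * ‖x‖ ^ 2) := by gcongr
      rw [div_mul_eq_mul_div, div_pow, le_div_iff₀ (by positivity)]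
      nlinarith
    exact le_of_sq_le_sq h4 (by positivity)
  set q : ℝ := N * (((N : ℝ) + 1) * (2 + Λ) / s0) with hq
  have hQn : ∀ a h, ‖Q a h‖ ≤ q * ‖a‖ * ‖h‖ := by
    intro a h
    rw [hQ]
    refine (norm_sum_le _ _).trans ?_
    have h1 : ∀ m ∈ Finset.univ, ‖c m a • G (G (h m - P (h m)))‖ ≤
        (((N : ℝ) + 1) * (2 + Λ) / s0) * ‖a‖ * ‖h‖ := by
      intro m _
      rw [norm_smul]
      have h2 : ‖G (G (h m - P (h m)))‖ ≤ (((N : ℝ) + 1) * (2 + Λ) / s0) * ‖h‖ := by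
        refine ((hG1 _).trans (hG1 _)).trans ?_
        refine (norm_sub_le _ _).trans ?_
        have h3 := hPx (h m)
        have h4 : ‖h m‖ ≤ ‖h‖ := norm_le_pi_norm h m
        have h5 : (1 : ℝ) ≤ (N + 1) / s0 := by
          rw [le_div_iff₀ hs0]; linarith
        calc ‖h m‖ + ‖P (h m)‖ ≤ (N + 1) / s0 * ‖h‖ + ((N : ℝ) + 1) * (1 + Λ) / s0 * ‖h‖ := by
              refine add_le_add ?_ (h3.trans (by gcongr))
              calc ‖h m‖ ≤ 1 * ‖h‖ := by rw [one_mul]; exact h4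
                _ ≤ _ := by gcongr
          _ = _ := by ring
      calc ‖c m a‖ * ‖G (G (h m - P (h m)))‖
          ≤ ‖a‖ * ((((N : ℝ) + 1) * (2 + Λ) / s0) * ‖h‖) :=
            mul_le_mul (hcn m a) h2 (norm_nonneg _) (norm_nonneg _)
        _ = _ := by ring
    refine (Finset.sum_le_sum h1).trans ?_
    rw [Finset.sum_const, Finset.card_univ, Fintype.card_fin, nsmul_eq_mul, hq]
    apply le_of_eq
    ring
  obtain ⟨h, hh1, hh2⟩ := fixed_point R K hK0.le hRn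
    (fun n => (((1 + μ n : ℝ) : ℂ) + Complex.I) • G (G (g n) - χ (G (g n))))
    ((2 + Λ) * ε) (by positivity) (fun n => by
      rw [norm_smul]
      have e4 : ‖(((1 + μ n : ℝ) : ℂ) + Complex.I)‖ ≤ 2 + Λ := by
        refine (norm_add_le _ _).trans ?_
        rw [Complex.norm_I, Complex.norm_real, Real.norm_of_nonneg (by linarith [hμ0 n])]
        linarith [hμΛ n]
      exact mul_le_mul e4 ((hG1 _).trans (hgε n)) (norm_nonneg _) (by linarith)) Q q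
    (by positivity) hQn
    (fun a a' h => by
      rw [hQ, hQ, hQ, ← Finset.sum_sub_distrib]
      refine Finset.sum_congr rfl fun m _ => ?_
      rw [map_sub, sub_smul])
    (fun a h h' => by
      rw [hQ, hQ, hQ, ← Finset.sum_sub_distrib]
      refine Finset.sum_congr rfl fun m _ => ?_
      rw [← smul_sub, ← map_sub, ← map_sub]
      congr 3
      rw [Pi.sub_apply, map_sub]
      abel)
    (by
      -- 8 K q K (2+Λ) ε ≤ 1
      rw [hK, hq]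
      have e : 8 * (4 * (2 + Λ) ^ 2 / (s0 * γ)) * (N * (((N : ℝ) + 1) * (2 + Λ) / s0)) *
          (4 * (2 + Λ) ^ 2 / (s0 * γ) * ((2 + Λ) * ε)) =
          128 * (N * ((N : ℝ) + 1)) * (2 + Λ) ^ 6 * ε / (s0 ^ 3 * γ ^ 2) := by
        field_simp
        ring
      rw [e, div_le_one (by positivity)]
      refine le_trans ?_ hsm1
      have h1 : (2 + Λ) ^ 6 ≤ (3 + Λ) ^ 6 := by gcongr; linarith
      have h2 : (N * ((N : ℝ) + 1)) ≤ ((N : ℝ) + 1) ^ 2 := by nlinarith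
      gcongr)
  -- the perturbed vectors
  refine ⟨fun n => g n + (h n - P (h n)), Matrix.of fun m n =>
    (if m = n then ((μ n : ℝ) : ℂ) else 0) - c m (h n), ?_, ?_, ?_⟩
  · intro n
    have hfix : L n (h n) = (((1 + μ n : ℝ) : ℂ) + Complex.I) • G (G (g n) - χ (G (g n))) -
        Q (h n) h := by
      conv_lhs => rw [hh1 n]
      rw [hLR]
    rw [hL, hT, hQ, hP] at hfix
    simp only [map_sum, map_smul] at hfix
    simp only [Matrix.of_apply]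
    obtain ⟨x, hx⟩ : ∃ x, x = fun m => h m - P (h m) := ⟨_, rfl⟩
    have hxm : ∀ m, h m - P (h m) = x m := fun m => by rw [hx]
    have hxn : h n - ∑ k, c k (h n) • g k = x n := by rw [← hP, hxm]
    rw [hxn] at hfix
    simp only [hxm] at hfix ⊢
    have e1 : S (g n + x n) = ((1 + μ n : ℝ) : ℂ) • G (χ (G (g n))) + S (x n) := by
      rw [map_add, hSg]
    have e2 : ∑ m, ((if m = n then ((μ n : ℝ) : ℂ) else 0) - c m (h n)) • G (G (g m + x m)) =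
        ((μ n : ℝ) : ℂ) • G (G (g n)) + ((μ n : ℝ) : ℂ) • G (G (x n)) -
        (∑ m, c m (h n) • G (G (g m))) - ∑ m, c m (h n) • G (G (x m)) := by
      simp only [sub_smul, ite_smul, zero_smul, Finset.sum_sub_distrib, map_add, smul_add,
        Finset.sum_add_distrib]
      simp only [Finset.sum_ite_eq', Finset.mem_univ, if_true]
      abel
    rw [e1, e2]
    have e3 : S (x n) = (((1 + μ n : ℝ) : ℂ) + Complex.I) • G (G (g n) - χ (G (g n))) -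
        (∑ m, c m (h n) • G (G (x m))) - (∑ m, c m (h n) • G (G (g m))) + G (G (x n)) +
        Complex.I • G (G (x n) - χ (G (x n))) + ((μ n : ℝ) : ℂ) • G (G (x n)) := by
      have := hfix
      rw [← sub_eq_zero] at this ⊢
      rw [← this]
      abel
    rw [e3]
    simp only [map_add, map_sub, smul_add, smul_sub, add_smul]
    push_cast
    module
  · rw [Fintype.linearIndependent_iff]
    intro a ha k
    have h1 := congrArg (fun v => ⟪χ (G (g k)), v⟫_ℂ) ha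
    simp only [inner_sum, inner_smul_right, inner_zero_right] at h1
    have h2 : ∀ m, ⟪χ (G (g k)), G (g m + (h m - P (h m)))⟫_ℂ = if k = m then 1 else 0 := by
      intro m
      rw [← hG, ← hc0, map_add, hcg, hcX, add_zero]
    simp only [h2, mul_ite, mul_one, mul_zero] at h1
    simpa using h1
  · intro m n
    simp only [Matrix.of_apply]
    rw [sub_sub_cancel_left, norm_neg]
    refine (hcn m (h n)).trans ((norm_le_pi_norm h n).trans (hh2.trans ?_))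
    rw [hK]
    have e : 2 * (4 * (2 + Λ) ^ 2 / (s0 * γ)) * ((2 + Λ) * ε) =
        8 * (2 + Λ) ^ 3 * ε / (s0 * γ) := by
      field_simp
      ring
    rw [e, div_le_iff₀ (by positivity)]
    have hδ0 : 0 ≤ δ := by
      have h1 : 0 ≤ 128 * ((N : ℝ) + 1) ^ 2 * (3 + Λ) ^ 6 * ε := by positivity
      have h2 : 0 < s0 ^ 3 * γ ^ 2 := by positivity
      exact nonneg_of_mul_nonneg_right (h1.trans hsm2) h2
    have h1 : 8 * (2 + Λ) ^ 3 * ε ≤ 128 * ((N : ℝ) + 1) ^ 2 * (3 + Λ) ^ 6 * ε := by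
      have h2 : (2 + Λ) ^ 3 ≤ (3 + Λ) ^ 6 :=
        (pow_le_pow_left₀ (by linarith) (by linarith) 3).trans
          (pow_le_pow_right₀ hA (by norm_num))
      have h3 : (8 : ℝ) ≤ 128 * ((N : ℝ) + 1) ^ 2 := by nlinarith
      gcongr
    calc 8 * (2 + Λ) ^ 3 * ε ≤ s0 ^ 3 * γ ^ 2 * δ := h1.trans hsm2
      _ ≤ s0 * γ * δ := by gcongr
      _ = δ * (s0 * γ) := by ring

end Pool.Agent.H3R2.ES
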