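import Mathlib

namespace Pool.Agent.H3R2.ES

open scoped InnerProductSpace NNReal ENNReal

variable {H : Type*} [NormedAddCommGroup H] [InnerProductSpace ℂ H] [CompleteSpace H]

theorem compact_le (K : H →L[ℂ] H) (hc : IsCompactOperator K)
    (hKs : ∀ x y, ⟪K x, y⟫_ℂ = ⟪x, K y⟫_ℂ) (τ' : ℝ) (hτ' : 0 < τ')
    (hev : ∀ (r : ℝ) (w : H), τ' < r → w ≠ 0 → K w = (r : ℂ) • w → False) (x : H) :
    (⟪x, K x⟫_ℂ).re ≤ τ' * ‖x‖ ^ 2 := by
  have hsym : (K : H →ₗ[ℂ] H).IsSymmetric := fun x y => hKs x y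
  have hsa : IsSelfAdjoint K := hsym.isSelfAdjoint
  have hspec : ∀ r ∈ spectrum ℝ K, r ≤ τ' := by
    intro r hr
    by_contra hcon
    push Not at hcon
    have hr0 : 0 < r := hτ'.trans hcon
    have hrC : ((r : ℝ) : ℂ) ∈ spectrum ℂ K := (spectrum.algebraMap_mem_iff ℂ).2 hr
    rw [← hc.hasEigenvalue_iff_mem_spectrum (by exact_mod_cast hr0.ne')] at hrC
    obtain ⟨w, hw⟩ := hrC.exists_hasEigenvector
    exact hev r w hcon hw.2 hw.apply_eq_smul
  have hle : K ≤ algebraMap ℝ (H →L[ℂ] H) τ' := le_algebraMap_of_spectrum_le hspec hsa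
  rw [ContinuousLinearMap.le_def] at hle
  have h1 := hle.re_inner_nonneg_right x
  have h2 : (algebraMap ℝ (H →L[ℂ] H) τ' - K) x = (τ' : ℂ) • x - K x := by
    rw [sub_apply, Algebra.algebraMap_eq_smul_one]
    rfl
  rw [h2, inner_sub_right, inner_smul_right, inner_self_eq_norm_sq_to_K] at h1
  have h5 : (((τ' : ℝ) : ℂ) * ((‖x‖ : ℝ) : ℂ) ^ 2 - ⟪x, K x⟫_ℂ).re =
      τ' * ‖x‖ ^ 2 - (⟪x, K x⟫_ℂ).re := by
    rw [Complex.sub_re]
    congr 1
    norm_cast
  have h6 : 0 ≤ (((τ' : ℝ) : ℂ) * ((‖x‖ : ℝ) : ℂ) ^ 2 - ⟪x, K x⟫_ℂ).re := h1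
  rw [h5] at h6
  linarith

set_option maxHeartbeats 4000000 in
/-- finitely many eigenvectors above a gap, and the bound on their complement -/
theorem eigen_family (K : H →L[ℂ] H) (hKc : IsCompactOperator K)
    (hKs : ∀ x y, ⟪K x, y⟫_ℂ = ⟪x, K y⟫_ℂ) (τ τ' : ℝ) (hτ' : 0 < τ') (M : ℕ)
    (hM : ∀ (N : ℕ) (e : Fin N → H) (κ : Fin N → ℝ), Orthonormal ℂ e →
      (∀ n, K (e n) = (κ n : ℂ) • e n) → (∀ n, τ ≤ κ n) → N ≤ M)
    (hgap : ∀ (x : H) (κ : ℝ), x ≠ 0 → K x = (κ : ℂ) • x → κ ≤ τ' ∨ τ ≤ κ) :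
    ∃ (N : ℕ) (e : Fin N → H) (κ : Fin N → ℝ), N ≤ M ∧ Orthonormal ℂ e ∧
      (∀ n, K (e n) = (κ n : ℂ) • e n) ∧ (∀ n, τ ≤ κ n) ∧
      ∀ x, (∀ n, ⟪e n, x⟫_ℂ = 0) → (⟪x, K x⟫_ℂ).re ≤ τ' * ‖x‖ ^ 2 := by
  classical
  let A : Set ℕ := {N | ∃ (e : Fin N → H) (κ : Fin N → ℝ), Orthonormal ℂ e ∧
      (∀ n, K (e n) = (κ n : ℂ) • e n) ∧ (∀ n, τ ≤ κ n)}
  have hA0 : A.Nonempty := ⟨0, Fin.elim0, Fin.elim0, ⟨fun i => i.elim0, fun i => i.elim0⟩,
    fun i => i.elim0, fun i => i.elim0⟩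
  have hAb : BddAbove A := ⟨M, by rintro N ⟨e, κ, h1, h2, h3⟩; exact hM N e κ h1 h2 h3⟩
  have hNA := Nat.sSup_mem hA0 hAb
  obtain ⟨N, hN⟩ : ∃ N, N = sSup A := ⟨_, rfl⟩
  rw [← hN] at hNA
  obtain ⟨e, κ, he, heK, heτ⟩ := hNA
  refine ⟨N, e, κ, hM N e κ he heK heτ, he, heK, heτ, ?_⟩
  let W : Submodule ℂ H := (Submodule.span ℂ (Set.range e))ᗮ
  have hW : ∀ x, x ∈ W ↔ ∀ n, ⟪e n, x⟫_ℂ = 0 := by
    intro x
    rw [Submodule.mem_orthogonal]
    constructor
    · intro h n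
      exact h _ (Submodule.subset_span ⟨n, rfl⟩)
    · intro h u hu
      induction hu using Submodule.span_induction with
      | mem y hy => obtain ⟨n, rfl⟩ := hy; exact h n
      | zero => exact inner_zero_left _
      | add y z _ _ hy hz => rw [inner_add_left, hy, hz, add_zero]
      | smul a y _ hy => rw [inner_smul_left, hy, mul_zero]
  have : CompleteSpace W := (Submodule.isClosed_orthogonal _).completeSpace_coe
  have hinv : ∀ x ∈ W, K x ∈ W := by
    intro x hx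
    rw [hW] at hx ⊢
    intro n
    rw [← hKs, heK, inner_smul_left, hx n, mul_zero]
  let KW : W →L[ℂ] W := K.restrict hinv
  have hKW : ∀ x : W, ((KW x : W) : H) = K x := fun x => rfl
  have hc : IsCompactOperator KW := hKc.restrict' hinv
  have hle : ∀ x : W, (⟪x, KW x⟫_ℂ).re ≤ τ' * ‖x‖ ^ 2 := by
    refine compact_le KW hc (fun x y => hKs x y) τ' hτ' ?_
    intro r w hcon hw0' hw1'
    have hw1 : K (w : H) = (r : ℂ) • (w : H) := congrArg (fun z : W => (z : H)) hw1'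
    have hw0 : (w : H) ≠ 0 := fun h => hw0' (Subtype.ext h)
    rcases hgap w r hw0 hw1 with h | h
    · exact absurd h (not_le.2 hcon)
    · -- extend the family
      have hwn : (‖(w : H)‖ : ℂ) ≠ 0 := by exact_mod_cast (norm_pos_iff.2 hw0).ne'
      have hmem : N + 1 ∈ A := by
        refine ⟨Fin.snoc e ((‖(w : H)‖ : ℂ)⁻¹ • (w : H)), Fin.snoc κ r, ?_, ?_, ?_⟩
        · rw [orthonormal_iff_ite]
          intro i j
          rw [orthonormal_iff_ite] at he
          have hwe : ∀ n, ⟪e n, (w : H)⟫_ℂ = 0 := (hW _).1 w.2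
          refine Fin.lastCases ?_ (fun i => ?_) i
          · refine Fin.lastCases ?_ (fun j => ?_) j
            · simp only [Fin.snoc_last, if_true]
              rw [inner_smul_left, inner_smul_right, inner_self_eq_norm_sq_to_K]
              simp only [map_inv₀, Complex.conj_ofReal]
              have : (((‖(w : H)‖ : ℝ) : ℂ)) ≠ 0 := hwn
              change ((‖(w : H)‖ : ℝ) : ℂ)⁻¹ * (((‖(w : H)‖ : ℝ) : ℂ)⁻¹ * ((‖(w : H)‖ : ℝ) : ℂ) ^ 2) = 1
              field_simp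
            · simp only [Fin.snoc_last, Fin.snoc_castSucc]
              rw [inner_smul_left, ← inner_conj_symm, hwe, map_zero, mul_zero,
                if_neg (Fin.castSucc_ne_last j).symm]
          · refine Fin.lastCases ?_ (fun j => ?_) j
            · simp only [Fin.snoc_last, Fin.snoc_castSucc]
              rw [inner_smul_right, hwe, mul_zero, if_neg (Fin.castSucc_ne_last i)]
            · simp only [Fin.snoc_castSucc, he i j, Fin.castSucc_inj]
        · intro n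
          refine Fin.lastCases ?_ (fun n => ?_) n
          · simp only [Fin.snoc_last]
            rw [map_smul, hw1, smul_comm]
          · simp only [Fin.snoc_castSucc]
            exact heK n
        · intro n
          refine Fin.lastCases ?_ (fun n => ?_) n
          · simp only [Fin.snoc_last]; exact h
          · simp only [Fin.snoc_castSucc]; exact heτ n
      have := le_csSup hAb hmem
      omega
  intro x hx
  exact hle ⟨x, (hW x).2 hx⟩

end Pool.Agent.H3R2.ES
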