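import Mathlib
import Pool.Agent.H3R2.ES.Spec

namespace Pool.Agent.H3R2.ES

open scoped InnerProductSpace NNReal ENNReal

variable {H : Type*} [NormedAddCommGroup H] [InnerProductSpace ℂ H] [CompleteSpace H]

theorem exists_sqrt_inv (S : H →L[ℂ] H) (hS : ∀ x y, ⟪S x, y⟫_ℂ = ⟪x, S y⟫_ℂ) (s0 : ℝ)
    (hs0 : 0 < s0) (hcoer : ∀ x, s0 * ‖x‖ ^ 2 ≤ (⟪x, S x⟫_ℂ).re) :
    ∃ A R : H →L[ℂ] H, (∀ x y, ⟪A x, y⟫_ℂ = ⟪x, A y⟫_ℂ) ∧ (∀ x y, ⟪R x, y⟫_ℂ = ⟪x, R y⟫_ℂ) ∧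
      (∀ x, A (A x) = S x) ∧ (∀ x, A (R x) = x) ∧ (∀ x, R (A x) = x) := by
  have hsym : (S : H →ₗ[ℂ] H).IsSymmetric := fun x y => hS x y
  have hpos : S.IsPositive := by
    refine ⟨hsym, fun x => ?_⟩
    have h1 : (⟪S x, x⟫_ℂ) = ⟪x, S x⟫_ℂ := hS x x
    change 0 ≤ (⟪S x, x⟫_ℂ).re
    rw [h1]
    exact le_trans (by positivity) (hcoer x)
  have hS0 : (0 : H →L[ℂ] H) ≤ S := (ContinuousLinearMap.nonneg_iff_isPositive S).2 hpos
  have hunit : IsUnit S := by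
    refine ContinuousLinearMap.isUnit_of_forall_le_norm_inner_map S (c := ⟨s0, hs0.le⟩)
      (by exact_mod_cast hs0) fun x => ?_
    rw [hS]
    calc ‖x‖ ^ 2 * s0 = s0 * ‖x‖ ^ 2 := mul_comm _ _
      _ ≤ (⟪x, S x⟫_ℂ).re := hcoer x
      _ ≤ _ := Complex.re_le_norm _
  obtain ⟨A, hA⟩ : ∃ A : H →L[ℂ] H, A = CFC.sqrt S := ⟨_, rfl⟩
  have hA0 : 0 ≤ A := by rw [hA]; exact CFC.sqrt_nonneg S
  have hAA : A * A = S := by rw [hA]; exact CFC.sqrt_mul_sqrt_self S hS0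
  have hAp : A.IsPositive := (ContinuousLinearMap.nonneg_iff_isPositive A).1 hA0
  have hAu : IsUnit A := by
    rw [← hAA] at hunit
    exact (Commute.refl A).isUnit_mul_iff.1 hunit |>.1
  have hAs : ∀ x y, ⟪A x, y⟫_ℂ = ⟪x, A y⟫_ℂ := fun x y => hAp.isSymmetric x y
  obtain ⟨u, hu⟩ := hAu
  refine ⟨A, ((u⁻¹ : (H →L[ℂ] H)ˣ) : H →L[ℂ] H), hAs, ?_, ?_, ?_, ?_⟩
  · have h1 : ∀ x, A (((u⁻¹ : (H →L[ℂ] H)ˣ) : H →L[ℂ] H) x) = x := by
      intro x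
      have := u.mul_inv
      rw [hu] at this
      exact congrArg (fun B : H →L[ℂ] H => B x) this
    intro x y
    conv_lhs => rw [← h1 y]
    conv_rhs => rw [← h1 x]
    rw [← hAs]
  · intro x
    exact congrArg (fun B : H →L[ℂ] H => B x) hAA
  · intro x
    have := u.mul_inv
    rw [hu] at this
    exact congrArg (fun B : H →L[ℂ] H => B x) this
  · intro x
    have := u.inv_mul
    rw [hu] at this
    exact congrArg (fun B : H →L[ℂ] H => B x) this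

set_option maxHeartbeats 4000000 in
theorem spec_family (G χ S : H →L[ℂ] H) (hG : ∀ x y, ⟪G x, y⟫_ℂ = ⟪x, G y⟫_ℂ)
    (hχ : ∀ x y, ⟪χ x, y⟫_ℂ = ⟪x, χ y⟫_ℂ) (hχ2 : ∀ x, χ (χ x) = χ x)
    (hS : ∀ x y, ⟪S x, y⟫_ℂ = ⟪x, S y⟫_ℂ) (s0 : ℝ) (hs0 : 0 < s0)
    (hcoer : ∀ x, s0 * ‖x‖ ^ 2 ≤ (⟪x, S x⟫_ℂ).re)
    (hSG : ∀ x, ‖χ (G x)‖ ^ 2 ≤ (⟪x, S x⟫_ℂ).re)
    (hcomp : IsCompactOperator (G ∘L χ)) (Λ0 : ℝ) (hΛ0 : 0 ≤ Λ0) (M : ℕ)
    (hcount : ∀ (N : ℕ) (g : Fin N → H) (μ : Fin N → ℝ), (∀ n, 0 ≤ μ n) →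
      (∀ n, μ n ≤ Λ0 + 1) → (∀ n, S (g n) = (((1 + μ n : ℝ)) : ℂ) • G (χ (G (g n)))) →
      (∀ m n, ⟪χ (G (g m)), χ (G (g n))⟫_ℂ = if m = n then 1 else 0) → N ≤ M) :
    ∃ Λ : ℝ, Λ0 ≤ Λ ∧ Λ ≤ Λ0 + 1 ∧ ∃ (N : ℕ) (g : Fin N → H) (μ : Fin N → ℝ), N ≤ M ∧
      (∀ n, 0 ≤ μ n) ∧ (∀ n, μ n ≤ Λ) ∧
      (∀ n, S (g n) = (((1 + μ n : ℝ)) : ℂ) • G (χ (G (g n)))) ∧
      (∀ m n, ⟪χ (G (g m)), χ (G (g n))⟫_ℂ = if m = n then 1 else 0) ∧
      (∀ x, (∀ n, ⟪χ (G (g n)), χ (G x)⟫_ℂ = 0) →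
        (1 + Λ + 1 / ((M : ℝ) + 1)) * ‖χ (G x)‖ ^ 2 ≤ (⟪x, S x⟫_ℂ).re) := by
  classical
  obtain ⟨A, R, hA, hR, hAA, hAR, hRA⟩ := exists_sqrt_inv S hS s0 hs0 hcoer
  let K : H →L[ℂ] H := R ∘L (G ∘L (χ ∘L G)) ∘L R
  have hK : ∀ x, K x = R (G (χ (G (R x)))) := fun x => rfl
  have hKc : IsCompactOperator K := by
    have h1 : IsCompactOperator ((G ∘L χ) ∘L (G ∘L R)) := hcomp.comp_clm (G ∘L R)
    exact h1.clm_comp R
  have hKxy : ∀ x y, ⟪x, K y⟫_ℂ = ⟪χ (G (R x)), χ (G (R y))⟫_ℂ := by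
    intro x y
    rw [hK, ← hR, ← hG, ← hχ2 (G (R y)), ← hχ, hχ2]
  have hKs : ∀ x y, ⟪K x, y⟫_ℂ = ⟪x, K y⟫_ℂ := by
    intro x y
    rw [← inner_conj_symm, hKxy, inner_conj_symm, hKxy]
  have hSA : ∀ x, (⟪x, S x⟫_ℂ) = ((‖A x‖ ^ 2 : ℝ) : ℂ) := by
    intro x
    rw [← hAA, ← hA, inner_self_eq_norm_sq_to_K]
    push_cast
    rfl
  have hSA' : ∀ x, (⟪x, S x⟫_ℂ).re = ‖A x‖ ^ 2 := by
    intro x
    rw [hSA, Complex.ofReal_re]
  -- from eigenvectors of K to g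
  have hconv : ∀ (e : H) (κ : ℝ), 0 < κ → K e = (κ : ℂ) • e →
      S (R e) = ((κ⁻¹ : ℝ) : ℂ) • G (χ (G (R e))) := by
    intro e κ hκ he
    have h1 : G (χ (G (R e))) = (κ : ℂ) • A e := by
      have := congrArg A he
      rw [hK, hAR, map_smul] at this
      exact this
    rw [h1, smul_smul, ← hAA, hAR, ← Complex.ofReal_mul, inv_mul_cancel₀ hκ.ne',
      Complex.ofReal_one, one_smul]
  have hκ1 : ∀ (e : H) (κ : ℝ), ‖e‖ = 1 → K e = (κ : ℂ) • e → κ ≤ 1 := by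
    intro e κ he1 he
    have h1 : ⟪e, K e⟫_ℂ = (κ : ℂ) := by
      rw [he, inner_smul_right, inner_self_eq_norm_sq_to_K, he1]
      norm_num
    have h2 : ⟪e, K e⟫_ℂ = ((‖χ (G (R e))‖ ^ 2 : ℝ) : ℂ) := by
      rw [hKxy, inner_self_eq_norm_sq_to_K]
      push_cast
      rfl
    have h3 : κ = ‖χ (G (R e))‖ ^ 2 := by
      rw [h1] at h2
      exact_mod_cast h2
    rw [h3]
    refine (hSG (R e)).trans ?_
    rw [hSA', hAR, he1]
    norm_num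
  -- the family attached to orthonormal eigenvectors
  have hfam : ∀ (N : ℕ) (e : Fin N → H) (κ : Fin N → ℝ) (c : ℝ), 0 ≤ c → Orthonormal ℂ e →
      (∀ n, K (e n) = (κ n : ℂ) • e n) → (∀ n, (1 + c)⁻¹ ≤ κ n) →
      ∃ (g : Fin N → H) (μ : Fin N → ℝ), (∀ n, 0 ≤ μ n) ∧ (∀ n, μ n ≤ c) ∧
      (∀ n, S (g n) = (((1 + μ n : ℝ)) : ℂ) • G (χ (G (g n)))) ∧
      (∀ m n, ⟪χ (G (g m)), χ (G (g n))⟫_ℂ = if m = n then 1 else 0) ∧
      (∀ x, (∀ n, ⟪χ (G (g n)), χ (G x)⟫_ℂ = 0) → ∀ n, ⟪e n, A x⟫_ℂ = 0) := by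
    intro N e κ c hc he heK hκ
    have hκ0 : ∀ n, 0 < κ n := fun n => lt_of_lt_of_le (by positivity) (hκ n)
    have hs : ∀ n, 0 < √(κ n) := fun n => Real.sqrt_pos.2 (hκ0 n)
    have hgx : ∀ n x, ⟪χ (G (R (e n))), χ (G x)⟫_ℂ = (κ n : ℂ) * ⟪e n, A x⟫_ℂ := by
      intro n x
      have h1 : ⟪χ (G (R (e n))), χ (G (R (A x)))⟫_ℂ = ⟪e n, K (A x)⟫_ℂ := (hKxy _ _).symm
      rw [hRA] at h1
      rw [h1, ← hKs, heK, inner_smul_left, Complex.conj_ofReal]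
    refine ⟨fun n => (((√(κ n))⁻¹ : ℝ) : ℂ) • R (e n), fun n => (κ n)⁻¹ - 1, ?_, ?_, ?_, ?_, ?_⟩
    · intro n
      have h1 := hκ1 (e n) (κ n) (he.1 n) (heK n)
      have := (one_le_inv₀ (hκ0 n)).2 h1
      simp only
      linarith
    · intro n
      have h1 := inv_anti₀ (by positivity) (hκ n)
      rw [inv_inv] at h1
      simp only
      linarith
    · intro n
      simp only [map_smul]
      rw [hconv (e n) (κ n) (hκ0 n) (heK n), smul_comm]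
      congr 2
      push_cast
      ring
    · intro m n
      simp only [map_smul]
      rw [inner_smul_left, inner_smul_right, hgx, hAR, Complex.conj_ofReal,
        orthonormal_iff_ite.1 he m n]
      split_ifs with h
      · subst h
        rw [mul_one, ← Complex.ofReal_mul, ← Complex.ofReal_mul]
        have h2 : (√(κ m))⁻¹ * ((√(κ m))⁻¹ * κ m) = 1 := by
          have h3 := Real.mul_self_sqrt (hκ0 m).le
          have h4 := (hs m).ne'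
          field_simp
          nlinarith
        rw [h2, Complex.ofReal_one]
      · rw [mul_zero, mul_zero, mul_zero]
    · intro x hx n
      have h1 := hx n
      simp only [map_smul] at h1
      rw [inner_smul_left, hgx, Complex.conj_ofReal] at h1
      have h2 : (((√(κ n))⁻¹ : ℝ) : ℂ) ≠ 0 := by
        have := (inv_pos.2 (hs n)).ne'
        exact_mod_cast this
      have h3 : ((κ n : ℝ) : ℂ) ≠ 0 := by
        have := (hκ0 n).ne'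
        exact_mod_cast this
      rcases mul_eq_zero.1 h1 with h | h
      · exact absurd h h2
      · exact (mul_eq_zero.1 h).resolve_left h3
  have hcountK : ∀ (N : ℕ) (e : Fin N → H) (κ : Fin N → ℝ), Orthonormal ℂ e →
      (∀ n, K (e n) = (κ n : ℂ) • e n) → (∀ n, (1 + (Λ0 + 1))⁻¹ ≤ κ n) → N ≤ M := by
    intro N e κ he heK hκ
    obtain ⟨g, μ, h1, h2, h3, h4, -⟩ := hfam N e κ (Λ0 + 1) (by linarith) he heK hκ
    exact hcount N g μ h1 h2 h3 h4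
  -- pigeonhole
  obtain ⟨γ, hγ⟩ : ∃ γ : ℝ, γ = 1 / ((M : ℝ) + 1) := ⟨_, rfl⟩
  have hM0 : (0 : ℝ) < (M : ℝ) + 1 := by positivity
  have hγ0 : 0 < γ := by rw [hγ]; positivity
  have hγM : ((M : ℝ) + 1) * γ = 1 := by rw [hγ]; field_simp
  obtain ⟨j, hj⟩ : ∃ j : Fin (M + 1), ∀ (x : H) (κ : ℝ), 0 < κ → x ≠ 0 → K x = (κ : ℂ) • x →
      κ⁻¹ < 1 + (Λ0 + j * γ) ∨ 1 + (Λ0 + (j + 1) * γ) ≤ κ⁻¹ := by
    by_contra hcon
    push Not at hcon
    choose x κ hκ0 hx0 hxK h1 h2 using hcon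
    have hjlt : ∀ j : Fin (M + 1), (j : ℝ) + 1 ≤ M + 1 := by
      intro j
      have : (j : ℕ) + 1 ≤ M + 1 := j.2
      exact_mod_cast this
    have hdist : ∀ i j : Fin (M + 1), i < j → κ i ≠ κ j := by
      intro i j hij hκ
      have h3 : ((i : ℕ) : ℝ) + 1 ≤ (j : ℕ) := by exact_mod_cast hij
      have h4 : (((i : ℕ) : ℝ) + 1) * γ ≤ ((j : ℕ) : ℝ) * γ := by gcongr
      have h5 := h1 j
      have h6 := h2 i
      rw [hκ] at h6
      linarith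
    have hdist' : ∀ i j : Fin (M + 1), i ≠ j → κ i ≠ κ j := by
      intro i j hij
      rcases lt_or_gt_of_ne hij with h | h
      · exact hdist i j h
      · exact (hdist j i h).symm
    have horth : ∀ i j : Fin (M + 1), i ≠ j → ⟪x i, x j⟫_ℂ = 0 := by
      intro i j hij
      have h3 := hKs (x i) (x j)
      rw [hxK, hxK, inner_smul_left, inner_smul_right, Complex.conj_ofReal, ← sub_eq_zero,
        ← sub_mul] at h3
      rcases mul_eq_zero.1 h3 with h | h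
      · exfalso
        rw [← Complex.ofReal_sub, Complex.ofReal_eq_zero, sub_eq_zero] at h
        exact hdist' i j hij h
      · exact h
    have hxn : ∀ i, ((‖x i‖ : ℝ) : ℂ) ≠ 0 := fun i => by
      exact_mod_cast (norm_pos_iff.2 (hx0 i)).ne'
    have := hcountK (M + 1) (fun i => (((‖x i‖)⁻¹ : ℝ) : ℂ) • x i) κ ?_ ?_ ?_
    · omega
    · rw [orthonormal_iff_ite]
      intro i j
      rw [inner_smul_left, inner_smul_right, Complex.conj_ofReal]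
      split_ifs with h
      · subst h
        rw [inner_self_eq_norm_sq_to_K]
        have := hxn i
        change ((‖x i‖⁻¹ : ℝ) : ℂ) * (((‖x i‖⁻¹ : ℝ) : ℂ) * ((‖x i‖ : ℝ) : ℂ) ^ 2) = 1
        push_cast
        field_simp
      · rw [horth i j h, mul_zero, mul_zero]
    · intro i
      rw [map_smul, hxK, smul_comm]
    · intro i
      rw [inv_le_comm₀ (by linarith) (hκ0 i)]
      have h3 := h2 i
      have h4 : (((i : ℕ) : ℝ) + 1) * γ ≤ ((M : ℝ) + 1) * γ := by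
        have := hjlt i
        gcongr
      linarith
  obtain ⟨Λ, hΛ⟩ : ∃ Λ : ℝ, Λ = Λ0 + j * γ := ⟨_, rfl⟩
  have hj1 : ((j : ℕ) : ℝ) + 1 ≤ M + 1 := by
    have : (j : ℕ) + 1 ≤ M + 1 := j.2
    exact_mod_cast this
  have hj2 : (((j : ℕ) : ℝ) + 1) * γ ≤ ((M : ℝ) + 1) * γ := by gcongr
  have hjg : 0 ≤ ((j : ℕ) : ℝ) * γ := by positivity
  have hΛ1 : Λ0 ≤ Λ := by rw [hΛ]; linarith
  have hΛ2 : Λ + γ ≤ Λ0 + 1 := by rw [hΛ]; linarith
  have hΛ3 : 0 ≤ Λ := hΛ0.trans hΛ1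
  have hgap : ∀ (x : H) (κ : ℝ), x ≠ 0 → K x = (κ : ℂ) • x →
      κ ≤ (1 + Λ + γ)⁻¹ ∨ (1 + Λ)⁻¹ ≤ κ := by
    intro x κ hx hxK
    by_cases hκ : 0 < κ
    · rcases hj x κ hκ hx hxK with h | h
      · right
        rw [inv_le_comm₀ (by linarith) hκ]
        linarith
      · left
        rw [le_inv_comm₀ hκ (by linarith)]
        linarith
    · left
      exact (not_lt.1 hκ).trans (by positivity)
  obtain ⟨N, e, κ, hNM, he, heK, heκ, hcompl⟩ := eigen_family K hKc hKs (1 + Λ)⁻¹ (1 + Λ + γ)⁻¹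
    (by positivity) M (fun N e κ he heK hκ => hcountK N e κ he heK fun n => by
      refine le_trans ?_ (hκ n)
      apply inv_anti₀ (by linarith)
      linarith) hgap
  obtain ⟨g, μ, h1, h2, h3, h4, h5⟩ := hfam N e κ Λ hΛ3 he heK heκ
  refine ⟨Λ, hΛ1, by linarith, N, g, μ, hNM, h1, h2, h3, h4, ?_⟩
  intro x hx
  have h6 := hcompl (A x) (h5 x hx)
  rw [hKxy, hRA, inner_self_eq_norm_sq_to_K] at h6
  have h7 : ‖χ (G x)‖ ^ 2 ≤ (1 + Λ + γ)⁻¹ * ‖A x‖ ^ 2 := by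
    refine le_trans (le_of_eq ?_) h6
    norm_cast
  rw [hSA', ← hγ]
  have h8 : (1 + Λ + γ) * ‖χ (G x)‖ ^ 2 ≤ (1 + Λ + γ) * ((1 + Λ + γ)⁻¹ * ‖A x‖ ^ 2) := by gcongr
  rw [← mul_assoc, mul_inv_cancel₀ (by positivity), one_mul] at h8
  exact h8

/-- lower bound for the number of members of the family by a trial space -/
theorem count_lower (G χ S : H →L[ℂ] H) {N : ℕ} (g : Fin N → H) (c : ℝ)
    (hcompl : ∀ x, (∀ n, ⟪χ (G (g n)), χ (G x)⟫_ℂ = 0) →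
        c * ‖χ (G x)‖ ^ 2 ≤ (⟪x, S x⟫_ℂ).re)
    {ι : Type*} [Fintype ι] (v : ι → H)
    (hv : ∀ a : ι → ℂ, a ≠ 0 →
      (⟪∑ i, a i • v i, S (∑ i, a i • v i)⟫_ℂ).re < c * ‖χ (G (∑ i, a i • v i))‖ ^ 2) :
    Fintype.card ι ≤ N := by
  classical
  by_contra hcon
  push Not at hcon
  let F : (ι → ℂ) →ₗ[ℂ] (Fin N → ℂ) :=
    { toFun := fun a n => ⟪χ (G (g n)), χ (G (∑ i, a i • v i))⟫_ℂ
      map_add' := by
        intro a b
        ext n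
        simp only [Pi.add_apply, add_smul, Finset.sum_add_distrib, map_add, inner_add_right]
      map_smul' := by
        intro r a
        ext n
        simp only [Pi.smul_apply, smul_eq_mul, mul_smul, ← Finset.smul_sum, map_smul,
          inner_smul_right, RingHom.id_apply] }
  have hker : ¬ Function.Injective F := by
    intro hinj
    have h1 := LinearMap.finrank_le_finrank_of_injective hinj
    rw [Module.finrank_fintype_fun_eq_card, Module.finrank_fintype_fun_eq_card,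
      Fintype.card_fin] at h1
    omega
  rw [← LinearMap.ker_eq_bot, Submodule.eq_bot_iff] at hker
  push Not at hker
  obtain ⟨a, ha, ha0⟩ := hker
  have h1 := hcompl (∑ i, a i • v i) (fun n => congrFun (LinearMap.mem_ker.1 ha) n)
  exact absurd (hv a ha0) (not_lt.2 h1)

end Pool.Agent.H3R2.ES
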