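import Mathlib
import Pool.Agent.H3R2.ES.Count

namespace Pool.Agent.H3R2.ES

open MeasureTheory ENNReal FourierTransform Pool.Agent.Helper209.CX
open scoped InnerProductSpace SchwartzMap Topology

theorem norm_sq_sum {ι : Type*} [Fintype ι] (f : ι → ℂ)
    (h : ∀ k k', k ≠ k' → f k = 0 ∨ f k' = 0) : ‖∑ k, f k‖ ^ 2 = ∑ k, ‖f k‖ ^ 2 := by
  classical
  by_cases h0 : ∀ k, f k = 0
  · simp [h0]
  · push Not at h0
    obtain ⟨k, hk⟩ := h0
    have h1 : ∀ k', k' ≠ k → f k' = 0 := fun k' hne => (h k' k hne).resolve_right hk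
    rw [Finset.sum_eq_single k (fun b _ hb => h1 b hb) (by simp),
      Finset.sum_eq_single k (fun b _ hb => by rw [h1 b hb]; simp) (by simp)]

/-- a bump -/
noncomputable def bump {d : ℕ} (l : ℝ) (c x : Ed d) : ℝ := max 0 (1 - ‖x - c‖ / l)

theorem bump_nonneg {d : ℕ} (l : ℝ) (c x : Ed d) : 0 ≤ bump l c x := le_max_left _ _

theorem bump_le_one {d : ℕ} {l : ℝ} (hl : 0 < l) (c x : Ed d) : bump l c x ≤ 1 := by
  unfold bump
  have : 0 ≤ ‖x - c‖ / l := by positivity
  exact max_le zero_le_one (by linarith)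

theorem bump_zero {d : ℕ} {l : ℝ} (hl : 0 < l) (c x : Ed d) (h : l ≤ ‖x - c‖) : bump l c x = 0 := by
  unfold bump
  have : 1 ≤ ‖x - c‖ / l := by rwa [one_le_div hl]
  exact max_eq_left (by linarith)

theorem bump_half {d : ℕ} {l : ℝ} (hl : 0 < l) (c x : Ed d) (h : ‖x - c‖ ≤ l / 2) :
    1 / 2 ≤ bump l c x := by
  unfold bump
  have : ‖x - c‖ / l ≤ 1 / 2 := by rw [div_le_iff₀ hl]; linarith
  exact le_trans (by linarith) (le_max_right _ _)

theorem bump_lip {d : ℕ} {l : ℝ} (hl : 0 < l) (c x y : Ed d) :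
    |bump l c y - bump l c x| ≤ ‖y - x‖ / l := by
  unfold bump
  refine (abs_max_sub_max_le_max _ _ _ _).trans ?_
  rw [sub_self, abs_zero, max_eq_right (abs_nonneg _)]
  have : 1 - ‖y - c‖ / l - (1 - ‖x - c‖ / l) = (‖x - c‖ - ‖y - c‖) / l := by ring
  rw [this, abs_div, abs_of_pos hl]
  gcongr
  refine (abs_norm_sub_norm_le _ _).trans (le_of_eq ?_)
  rw [sub_sub_sub_cancel_right, norm_sub_rev]

theorem bump_meas {d : ℕ} (l : ℝ) (c : Ed d) : Measurable (bump l c) := by
  unfold bump; fun_prop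

theorem bump_mem {d : ℕ} {l : ℝ} (hl : 0 < l) (c : Ed d) :
    MemLp (fun x : Ed d => (bump l c x : ℂ)) 2 volume := by
  have h1 : MemLp ((Metric.closedBall c l).indicator fun _ => (1 : ℝ)) 2 (volume : Measure (Ed d)) :=
    memLp_indicator_const 2 measurableSet_closedBall 1 (Or.inr measure_closedBall_lt_top.ne)
  refine h1.of_le ?_ ?_
  · exact (Complex.measurable_ofReal.comp (bump_meas l c)).aestronglyMeasurable
  · refine Filter.Eventually.of_forall fun x => ?_
    rw [Complex.norm_real, Real.norm_of_nonneg (bump_nonneg _ _ _)]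
    by_cases hx : x ∈ Metric.closedBall c l
    · rw [Set.indicator_of_mem hx, norm_one]; exact bump_le_one hl c x
    · rw [Set.indicator_of_notMem hx, norm_zero]
      rw [mem_closedBall_iff_norm, not_le] at hx
      exact (bump_zero hl c x hx.le).le

/-- the bump as an element of `L²` -/
noncomputable def bumpL {d : ℕ} {l : ℝ} (hl : 0 < l) (c : Ed d) : L2d d := (bump_mem hl c).toLp _

theorem bumpL_coe {d : ℕ} {l : ℝ} (hl : 0 < l) (c : Ed d) :
    (bumpL hl c : Ed d → ℂ) =ᵐ[volume] fun x => (bump l c x : ℂ) := (bump_mem hl c).coeFn_toLp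

/-- the difference of a bump -/
theorem bump_diff {d : ℕ} {l : ℝ} (hl : 0 < l) (c x s : Ed d) (r : ℝ) (hr : l + ‖s‖ ≤ r) :
    |bump l c (x + s) - bump l c x| ≤
      (Metric.ball c r).indicator (fun _ => ‖s‖ / l) x := by
  by_cases hx : x ∈ Metric.ball c r
  · rw [Set.indicator_of_mem hx]
    refine (bump_lip hl c x (x + s)).trans (le_of_eq ?_)
    rw [add_sub_cancel_left]
  · rw [Set.indicator_of_notMem hx]
    rw [mem_ball_iff_norm, not_lt] at hx
    have h1 : bump l c x = 0 := bump_zero hl c x (by linarith [norm_nonneg s])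
    have h2 : bump l c (x + s) = 0 := by
      apply bump_zero hl
      have h3 : ‖x - c‖ ≤ ‖x + s - c‖ + ‖s‖ := by
        have : x - c = (x + s - c) - s := by abel
        rw [this]
        exact norm_sub_le _ _
      linarith
    rw [h1, h2, sub_self, abs_zero]

theorem bumpL_inH1 {d : ℕ} {l : ℝ} (hl : 0 < l) (c : Ed d) : InH1 (bumpL hl c) := by
  apply inH1_of_bound _ (√((volume (Metric.ball c (l + 1))).toReal) / l)
  intro n j
  have hst : ‖(st n j : Ed d)‖ ≤ 1 := by
    rw [st_norm, div_le_one (by positivity)]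
    linarith [(Nat.cast_nonneg n : (0 : ℝ) ≤ n)]
  have h1 : ‖df (st n j) (bumpL hl c)‖ ^ 2 ≤
      (1 / ((n : ℝ) + 1) / l) ^ 2 * (volume (Metric.ball c (l + 1))).toReal := by
    rw [norm_sq_int]
    have h2 : ∫ x : Ed d, (Metric.ball c (l + 1)).indicator (fun _ => (1 / ((n : ℝ) + 1) / l) ^ 2) x =
        (1 / ((n : ℝ) + 1) / l) ^ 2 * (volume (Metric.ball c (l + 1))).toReal := by
      rw [integral_indicator measurableSet_ball, setIntegral_const, smul_eq_mul, mul_comm]
      rfl
    rw [← h2]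
    refine integral_mono_ae (int_sq _) ?_ ?_
    · rw [integrable_indicator_iff measurableSet_ball]
      exact integrableOn_const (by exact measure_ball_lt_top.ne) (by simp)
    · have h3 := (measurePreserving_add_right volume (st n j : Ed d)).quasiMeasurePreserving.ae
        (bumpL_coe hl c)
      filter_upwards [df_coe (st n j) (bumpL hl c), bumpL_coe hl c, h3] with x h4 h5 h6
      rw [h4, h5, h6, ← Complex.ofReal_sub, Complex.norm_real, Real.norm_eq_abs]
      have h7 := bump_diff hl c x (st n j) (l + 1) (by linarith)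
      by_cases hx : x ∈ Metric.ball c (l + 1)
      · rw [Set.indicator_of_mem hx] at h7 ⊢
        rw [st_norm] at h7
        exact pow_le_pow_left₀ (abs_nonneg _) h7 2
      · rw [Set.indicator_of_notMem hx] at h7 ⊢
        have h8 : |bump l c (x + st n j) - bump l c x| = 0 := le_antisymm h7 (abs_nonneg _)
        rw [h8]; norm_num
  apply le_of_sq_le_sq _ (by positivity)
  rw [mul_pow, div_pow, Real.sq_sqrt (by positivity)]
  calc ((n : ℝ) + 1) ^ 2 * ‖df (st n j) (bumpL hl c)‖ ^ 2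
      ≤ ((n : ℝ) + 1) ^ 2 * ((1 / ((n : ℝ) + 1) / l) ^ 2 * (volume (Metric.ball c (l + 1))).toReal) := by
        gcongr
    _ = _ := by field_simp

/-- the centers -/
noncomputable def ctr {d m : ℕ} (l : ℝ) (k : Fin d → Fin m) : Ed d :=
  WithLp.toLp 2 (fun j => 3 * l * ((k j : ℕ) : ℝ))

theorem ctr_apply {d m : ℕ} (l : ℝ) (k : Fin d → Fin m) (j : Fin d) :
    ctr l k j = 3 * l * ((k j : ℕ) : ℝ) := rfl

theorem ctr_dist {d m : ℕ} {l : ℝ} (hl : 0 < l) (k k' : Fin d → Fin m) (h : k ≠ k') :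
    3 * l ≤ ‖ctr l k - ctr l k'‖ := by
  obtain ⟨j, hj⟩ : ∃ j, k j ≠ k' j := by
    by_contra hcon
    push Not at hcon
    exact h (funext hcon)
  have h1 : ‖(ctr l k - ctr l k' : Ed d) j‖ ≤ ‖ctr l k - ctr l k'‖ := PiLp.norm_apply_le _ j
  refine le_trans ?_ h1
  have h2 : (ctr l k - ctr l k' : Ed d) j = 3 * l * (((k j : ℕ) : ℝ) - ((k' j : ℕ) : ℝ)) := by
    show ctr l k j - ctr l k' j = _
    rw [ctr_apply, ctr_apply]
    ring
  rw [h2, norm_mul, Real.norm_of_nonneg (by positivity)]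
  have h3 : (1 : ℝ) ≤ ‖((k j : ℕ) : ℝ) - ((k' j : ℕ) : ℝ)‖ := by
    rw [Real.norm_eq_abs]
    have h4 : ((k j : ℕ) : ℤ) - ((k' j : ℕ) : ℤ) ≠ 0 := by
      intro h5
      apply hj
      apply Fin.ext
      omega
    have h5 := Int.one_le_abs h4
    exact_mod_cast h5
  nlinarith

theorem ctr_norm {d m : ℕ} {l : ℝ} (hl : 0 < l) (k : Fin d → Fin m) (hd : 1 ≤ d) :
    ‖ctr l k‖ + l ≤ 3 * l * m * d := by
  have h1 : ‖ctr l k‖ ≤ ∑ j : Fin d, 3 * l * ((m : ℝ) - 1) := by
    have h2 : ‖ctr l k‖ ^ 2 ≤ (∑ j : Fin d, ‖ctr l k j‖) ^ 2 := by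
      rw [EuclideanSpace.norm_sq_eq]
      exact Finset.sum_sq_le_sq_sum_of_nonneg fun j _ => norm_nonneg _
    have h3 : ‖ctr l k‖ ≤ ∑ j : Fin d, ‖ctr l k j‖ :=
      le_of_sq_le_sq h2 (Finset.sum_nonneg fun j _ => norm_nonneg _)
    refine h3.trans (Finset.sum_le_sum fun j _ => ?_)
    rw [ctr_apply, Real.norm_of_nonneg (by positivity)]
    have h4 : ((k j : ℕ) : ℝ) + 1 ≤ m := by exact_mod_cast (k j).2
    have h5 : ((k j : ℕ) : ℝ) ≤ (m : ℝ) - 1 := by linarith
    gcongr
  rw [Finset.sum_const, Finset.card_univ, Fintype.card_fin, nsmul_eq_mul] at h1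
  have hd' : (1 : ℝ) ≤ d := by exact_mod_cast hd
  nlinarith

theorem coe_lin {d : ℕ} {ι : Type*} (s : Finset ι) (a : ι → ℂ) (u : ι → L2d d) :
    ((∑ k ∈ s, a k • u k : L2d d) : Ed d → ℂ) =ᵐ[volume] fun x => ∑ k ∈ s, a k * u k x := by
  classical
  induction s using Finset.induction_on with
  | empty =>
    simp only [Finset.sum_empty]
    exact Lp.coeFn_zero _ _ _
  | insert i s hi ih =>
    simp only [Finset.sum_insert hi]
    filter_upwards [Lp.coeFn_add (a i • u i) (∑ k ∈ s, a k • u k), Lp.coeFn_smul (a i) (u i), ih]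
      with x h1 h2 h3
    rw [h1, Pi.add_apply, h2, h3, Pi.smul_apply, smul_eq_mul]

theorem vol_ball {d : ℕ} (c : Ed d) {r : ℝ} (hr : 0 < r) :
    (volume (Metric.ball c r)).toReal = r ^ d * (volume (UB d)).toReal := by
  rw [Measure.addHaar_ball_of_pos _ _ hr, ENNReal.toReal_mul, ENNReal.toReal_ofReal (by positivity),
    finrank_euclideanSpace_fin]

set_option maxHeartbeats 4000000 in
theorem trial_energy {d m : ℕ} (hd : 1 ≤ d) (U : Ed d → ℝ) (hU0 : ∀ x, 0 ≤ U x)
    (hU1 : ∀ x, ‖x‖ ≤ 1 / 2 → U x ≤ 1) (G χ M S : L2d d →L[ℂ] L2d d)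
    (hG : ∀ x, ((𝓕 (G x) : L2d d) : Ed d → ℂ) =ᵐ[volume] fun ξ => (wt ξ : ℂ) * (𝓕 x : L2d d) ξ)
    (hχ : ∀ f : L2d d, (χ f : Ed d → ℂ) =ᵐ[volume]
      fun x => (UB d).indicator (fun _ => (1 : ℂ)) x * f x)
    (hM : ∀ f : L2d d, (M f : Ed d → ℂ) =ᵐ[volume] fun x => ((√(U x) : ℝ) : ℂ) * (G f) x)
    (h : ℝ)
    (hS : ∀ x y, ⟪y, S x⟫_ℂ = ((h ^ 2 : ℝ) : ℂ) * (⟪y, x⟫_ℂ - ⟪G y, G x⟫_ℂ) + ⟪M y, M x⟫_ℂ +
      ⟪G y, G x⟫_ℂ) {l : ℝ} (hl : 0 < l) (hlm : 3 * l * m * d ≤ 1 / 2)
    (v : (Fin d → Fin m) → L2d d) (hv : ∀ k, G (v k) = bumpL hl (ctr l k))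
    (a : (Fin d → Fin m) → ℂ) :
    (⟪∑ k, a k • v k, S (∑ k, a k • v k)⟫_ℂ).re ≤
      (4 * d * 3 ^ d * (h / l) ^ 2 + 2) * ‖χ (G (∑ k, a k • v k))‖ ^ 2 ∧
    (a ≠ 0 → 0 < ‖χ (G (∑ k, a k • v k))‖) := by
  classical
  obtain ⟨w, hw⟩ : ∃ w, w = ∑ k, a k • v k := ⟨_, rfl⟩
  rw [← hw]
  obtain ⟨W, hW⟩ : ∃ W, W = G w := ⟨_, rfl⟩
  have hWsum : W = ∑ k, a k • bumpL hl (ctr l k) := by
    rw [hW, hw, map_sum]
    exact Finset.sum_congr rfl fun k _ => by rw [map_smul, hv]
  obtain ⟨V1, hV1⟩ : ∃ V1, V1 = (volume (UB d)).toReal := ⟨_, rfl⟩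
  have hV1p : 0 < V1 := by
    rw [hV1]
    exact ENNReal.toReal_pos (Metric.measure_ball_pos _ _ one_pos).ne' measure_ball_lt_top.ne
  have hWx : (W : Ed d → ℂ) =ᵐ[volume] fun x => ∑ k, a k * (bump l (ctr l k) x : ℂ) := by
    have h1 : ∀ᵐ x ∂(volume : Measure (Ed d)), ∀ k : Fin d → Fin m,
        (bumpL hl (ctr l k)) x = (bump l (ctr l k) x : ℂ) := by
      rw [ae_all_iff]
      exact fun k => bumpL_coe hl _
    rw [hWsum]
    filter_upwards [coe_lin Finset.univ a (fun k => bumpL hl (ctr l k)), h1] with x h2 h3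
    rw [h2]
    exact Finset.sum_congr rfl fun k _ => by rw [h3 k]
  -- disjointness
  have hdisj : ∀ (x : Ed d) (k k' : Fin d → Fin m), k ≠ k' →
      x ∉ Metric.ball (ctr l k) (3 * l / 2) ∨ x ∉ Metric.ball (ctr l k') (3 * l / 2) := by
    intro x k k' hkk
    by_contra hcon
    push Not at hcon
    obtain ⟨h1, h2⟩ := hcon
    rw [mem_ball_iff_norm] at h1 h2
    have h3 := ctr_dist hl k k' hkk
    have h4 : ‖ctr l k - ctr l k'‖ ≤ ‖x - ctr l k'‖ + ‖x - ctr l k‖ := by
      have : ctr l k - ctr l k' = (x - ctr l k') - (x - ctr l k) := by abel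
      rw [this]
      exact norm_sub_le _ _
    linarith
  -- support
  have hsupp : ∀ x : Ed d, 1 / 2 < ‖x‖ → ∀ k : Fin d → Fin m, bump l (ctr l k) x = 0 := by
    intro x hx k
    apply bump_zero hl
    have h1 := ctr_norm hl k hd
    have h2 : ‖x‖ ≤ ‖x - ctr l k‖ + ‖ctr l k‖ := by
      have : x = (x - ctr l k) + ctr l k := by abel
      conv_lhs => rw [this]
      exact norm_add_le _ _
    linarith
  have hWH : InH1 W := by rw [hW]; exact G_inH1 G hG w
  -- norm of W
  have hWn : l ^ d * V1 * (1 / (4 * 2 ^ d)) * ∑ k, ‖a k‖ ^ 2 ≤ ‖W‖ ^ 2 := by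
    rw [norm_sq_int]
    have h1 : ∫ x : Ed d, (∑ k, ‖a k‖ ^ 2 * (Metric.ball (ctr l k) (l / 2)).indicator
        (fun _ => (1 / 4 : ℝ)) x) = l ^ d * V1 * (1 / (4 * 2 ^ d)) * ∑ k, ‖a k‖ ^ 2 := by
      rw [integral_finsetSum]
      · rw [Finset.mul_sum]
        refine Finset.sum_congr rfl fun k _ => ?_
        rw [integral_const_mul, integral_indicator measurableSet_ball, setIntegral_const,
          smul_eq_mul]
        have h2 := vol_ball (ctr l k) (by positivity : 0 < l / 2)
        rw [Measure.real, h2, ← hV1, div_pow]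
        field_simp
      · intro k _
        apply Integrable.const_mul
        rw [integrable_indicator_iff measurableSet_ball]
        exact integrableOn_const (by exact measure_ball_lt_top.ne) (by simp)
    rw [← h1]
    refine integral_mono_ae ?_ (int_sq _) ?_
    · apply integrable_finsetSum
      intro k _
      apply Integrable.const_mul
      rw [integrable_indicator_iff measurableSet_ball]
      exact integrableOn_const (by exact measure_ball_lt_top.ne) (by simp)
    · filter_upwards [hWx] with x hx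
      rw [hx, norm_sq_sum]
      · refine Finset.sum_le_sum fun k _ => ?_
        rw [norm_mul, mul_pow, Complex.norm_real, Real.norm_of_nonneg (bump_nonneg _ _ _)]
        gcongr
        by_cases h2 : x ∈ Metric.ball (ctr l k) (l / 2)
        · rw [Set.indicator_of_mem h2]
          rw [mem_ball_iff_norm] at h2
          have h3 := bump_half hl (ctr l k) x h2.le
          nlinarith
        · rw [Set.indicator_of_notMem h2]; positivity
      · intro k k' hkk
        have h4 : ∀ k, x ∉ Metric.ball (ctr l k) (3 * l / 2) → a k * (bump l (ctr l k) x : ℂ) = 0 := by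
          intro k hk
          rw [mem_ball_iff_norm, not_lt] at hk
          rw [bump_zero hl _ _ (by linarith)]
          simp
        exact (hdisj x k k' hkk).imp (h4 k) (h4 k')
  -- Dirichlet energy
  have hWd : (dirichlet W W).re ≤ d * ((1 / l) ^ 2 * ((3 * l / 2) ^ d * V1) * ∑ k, ‖a k‖ ^ 2) := by
    apply dirichlet_le W hWH
    have hev : ∀ᶠ n : ℕ in Filter.atTop, 1 / ((n : ℝ) + 1) ≤ l / 2 :=
      (tendsto_one_div_add_atTop_nhds_zero_nat (𝕜 := ℝ)).eventually_le_const (by positivity)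
    filter_upwards [hev] with n hn
    have hterm : ∀ j : Fin d, ((n : ℝ) + 1) ^ 2 * ‖df (st n j) W‖ ^ 2 ≤
        (1 / l) ^ 2 * ((3 * l / 2) ^ d * V1) * ∑ k, ‖a k‖ ^ 2 := by
      intro j
      have h1 : ∫ x : Ed d, (∑ k, ‖a k‖ ^ 2 * (Metric.ball (ctr l k) (3 * l / 2)).indicator
          (fun _ => (1 / ((n : ℝ) + 1) / l) ^ 2) x) =
          (1 / ((n : ℝ) + 1)) ^ 2 * ((1 / l) ^ 2 * ((3 * l / 2) ^ d * V1) * ∑ k, ‖a k‖ ^ 2) := by
        rw [integral_finsetSum]
        · rw [Finset.mul_sum, Finset.mul_sum]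
          refine Finset.sum_congr rfl fun k _ => ?_
          rw [integral_const_mul, integral_indicator measurableSet_ball, setIntegral_const,
            smul_eq_mul]
          have h2 := vol_ball (ctr l k) (by positivity : 0 < 3 * l / 2)
          rw [Measure.real, h2, ← hV1]
          field_simp
        · intro k _
          apply Integrable.const_mul
          rw [integrable_indicator_iff measurableSet_ball]
          exact integrableOn_const (by exact measure_ball_lt_top.ne) (by simp)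
      have h2 : ‖df (st n j) W‖ ^ 2 ≤
          (1 / ((n : ℝ) + 1)) ^ 2 * ((1 / l) ^ 2 * ((3 * l / 2) ^ d * V1) * ∑ k, ‖a k‖ ^ 2) := by
        rw [← h1, norm_sq_int]
        refine integral_mono_ae (int_sq _) ?_ ?_
        · apply integrable_finsetSum
          intro k _
          apply Integrable.const_mul
          rw [integrable_indicator_iff measurableSet_ball]
          exact integrableOn_const (by exact measure_ball_lt_top.ne) (by simp)
        · have h3 := (measurePreserving_add_right volume (st n j : Ed d)).quasiMeasurePreserving.ae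
            hWx
          filter_upwards [df_coe (st n j) W, hWx, h3] with x h4 h5 h6
          rw [h4, h5, h6, ← Finset.sum_sub_distrib]
          have hbd : ∀ k : Fin d → Fin m, |bump l (ctr l k) (x + st n j) - bump l (ctr l k) x| ≤
              (Metric.ball (ctr l k) (3 * l / 2)).indicator (fun _ => 1 / ((n : ℝ) + 1) / l) x := by
            intro k
            have := bump_diff hl (ctr l k) x (st n j) (3 * l / 2) (by rw [st_norm]; linarith)
            rwa [st_norm] at this
          have e1 : ∀ k : Fin d → Fin m, a k * (bump l (ctr l k) (x + st n j) : ℂ) -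
              a k * (bump l (ctr l k) x : ℂ) =
              a k * ((bump l (ctr l k) (x + st n j) - bump l (ctr l k) x : ℝ) : ℂ) := by
            intro k
            push_cast
            ring
          simp only [e1]
          rw [norm_sq_sum]
          · refine Finset.sum_le_sum fun k _ => ?_
            rw [norm_mul, mul_pow, Complex.norm_real, Real.norm_eq_abs]
            gcongr
            by_cases hx : x ∈ Metric.ball (ctr l k) (3 * l / 2)
            · have := hbd k
              rw [Set.indicator_of_mem hx] at this ⊢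
              exact pow_le_pow_left₀ (abs_nonneg _) this 2
            · have := hbd k
              rw [Set.indicator_of_notMem hx] at this ⊢
              rw [le_antisymm this (abs_nonneg _)]
              norm_num
          · intro k k' hkk
            have h7 : ∀ k, x ∉ Metric.ball (ctr l k) (3 * l / 2) →
                a k * ((bump l (ctr l k) (x + st n j) - bump l (ctr l k) x : ℝ) : ℂ) = 0 := by
              intro k hk
              have := hbd k
              rw [Set.indicator_of_notMem hk] at this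
              have h8 := abs_eq_zero.1 (le_antisymm this (abs_nonneg _))
              rw [h8]
              simp
            exact (hdisj x k k' hkk).imp (h7 k) (h7 k')
      calc ((n : ℝ) + 1) ^ 2 * ‖df (st n j) W‖ ^ 2 ≤ ((n : ℝ) + 1) ^ 2 *
            ((1 / ((n : ℝ) + 1)) ^ 2 * ((1 / l) ^ 2 * ((3 * l / 2) ^ d * V1) * ∑ k, ‖a k‖ ^ 2)) := by
            gcongr
        _ = _ := by field_simp
    calc ∑ j : Fin d, ((n : ℝ) + 1) ^ 2 * ‖df (st n j) W‖ ^ 2
        ≤ ∑ _j : Fin d, (1 / l) ^ 2 * ((3 * l / 2) ^ d * V1) * ∑ k, ‖a k‖ ^ 2 :=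
          Finset.sum_le_sum fun j _ => hterm j
      _ = _ := by rw [Finset.sum_const, Finset.card_univ, Fintype.card_fin, nsmul_eq_mul]
  -- potential energy
  have hMw : ‖M w‖ ^ 2 ≤ ‖W‖ ^ 2 := by
    rw [norm_sq_int, norm_sq_int]
    refine integral_mono_ae (int_sq _) (int_sq _) ?_
    have h1 := hM w
    rw [← hW] at h1
    filter_upwards [h1, hWx] with x h2 h3
    rw [h2, norm_mul, mul_pow, Complex.norm_real, Real.norm_of_nonneg (Real.sqrt_nonneg _),
      Real.sq_sqrt (hU0 x)]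
    rcases le_or_gt ‖x‖ (1 / 2) with h4 | h4
    · have := hU1 x h4
      nlinarith [sq_nonneg ‖W x‖]
    · rw [h3]
      simp only [hsupp x h4]
      simp
  have hχW : ‖χ W‖ ^ 2 = ‖W‖ ^ 2 := by
    rw [norm_sq_int, norm_sq_int]
    refine integral_congr_ae ?_
    filter_upwards [hχ W, hWx] with x h2 h3
    rw [h2]
    by_cases hx : x ∈ UB d
    · rw [Set.indicator_of_mem hx, one_mul]
    · rw [Set.indicator_of_notMem hx, zero_mul, h3]
      rw [mem_ball_zero_iff, not_lt] at hx
      simp only [hsupp x (by linarith)]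
      simp
  rw [← hW]
  constructor
  · have e0 := hS w w
    rw [← G_dir G hG] at e0
    have e1 := congrArg Complex.re e0
    have e2 : (⟪M w, M w⟫_ℂ).re = ‖M w‖ ^ 2 := inner_self_eq_norm_sq (𝕜 := ℂ) _
    have e3 : (⟪G w, G w⟫_ℂ).re = ‖G w‖ ^ 2 := inner_self_eq_norm_sq (𝕜 := ℂ) _
    rw [Complex.add_re, Complex.add_re, Complex.re_ofReal_mul, e2, e3, ← hW] at e1
    rw [e1, hχW]
    have hA : h ^ 2 * (dirichlet W W).re ≤ (4 * d * 3 ^ d * (h / l) ^ 2) * ‖W‖ ^ 2 := by
      calc h ^ 2 * (dirichlet W W).re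
          ≤ h ^ 2 * (d * ((1 / l) ^ 2 * ((3 * l / 2) ^ d * V1) * ∑ k, ‖a k‖ ^ 2)) := by gcongr
        _ = (4 * d * 3 ^ d * (h / l) ^ 2) * (l ^ d * V1 * (1 / (4 * 2 ^ d)) * ∑ k, ‖a k‖ ^ 2) := by
            rw [div_pow (3 * l) 2 d, mul_pow 3 l d]
            field_simp
        _ ≤ _ := by gcongr
    linarith
  · intro ha
    have h1 : 0 < ∑ k, ‖a k‖ ^ 2 := by
      obtain ⟨k, hk⟩ : ∃ k, a k ≠ 0 := by
        by_contra hcon
        push Not at hcon
        exact ha (funext hcon)
      refine lt_of_lt_of_le ?_ (Finset.single_le_sum (f := fun k => ‖a k‖ ^ 2)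
        (fun i _ => sq_nonneg _) (Finset.mem_univ k))
      positivity
    have h2 : 0 < ‖χ W‖ ^ 2 := by
      rw [hχW]
      exact lt_of_lt_of_le (by positivity) hWn
    exact lt_of_le_of_ne (norm_nonneg _) (fun h0 => by rw [← h0] at h2; norm_num at h2)

end Pool.Agent.H3R2.ES
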