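import Mathlib
import Pool.Agent.H3R2.ES.Form
import Pool.Agent.H3R2.ES.Ric
import Pool.Agent.H3R2.ES.Spec2
import Pool.Agent.H3R2.ES.Agmon2
import Pool.Agent.H3R2.ES.Trial

namespace Pool.Agent.H3R2.ES

open MeasureTheory ENNReal FourierTransform Pool.Agent.Helper209.CX
open scoped InnerProductSpace SchwartzMap Topology

/-- exponential beats polynomial -/
theorem small_ev (K α : ℝ) (hα : 0 < α) (k : ℕ) :
    ∀ᶠ h : ℝ in 𝓝[>] 0, K * (1 / h) ^ k * Real.exp (-(α / h)) ≤ 1 := by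
  have h1 : Filter.Tendsto (fun h : ℝ => α / h) (𝓝[>] 0) Filter.atTop := by
    have := tendsto_inv_nhdsGT_zero (𝕜 := ℝ)
    have h2 := this.const_mul_atTop hα
    refine h2.congr fun h => ?_
    rw [div_eq_mul_inv]
  have h3 := (Real.tendsto_pow_mul_exp_neg_atTop_nhds_zero k).comp h1
  have h4 : Filter.Tendsto (fun h : ℝ => K / α ^ k * ((α / h) ^ k * Real.exp (-(α / h))))
      (𝓝[>] 0) (𝓝 (K / α ^ k * 0)) := h3.const_mul _
  rw [mul_zero] at h4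
  filter_upwards [h4.eventually_le_const zero_lt_one] with h h5
  refine le_trans (le_of_eq ?_) h5
  rw [one_div, inv_pow, div_pow]
  field_simp

/-- roots of the characteristic polynomial are near the diagonal -/
theorem roots_near {N : ℕ} (B : Matrix (Fin N) (Fin N) ℂ) (μ : Fin N → ℝ) (δ : ℝ)
    (hB : ∀ m n, ‖B m n - if m = n then ((μ n : ℝ) : ℂ) else 0‖ ≤ δ) (E : ℂ)
    (hE : E ∈ (B + Complex.I • (1 : Matrix (Fin N) (Fin N) ℂ)).charpoly.roots) :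
    ∃ k, ‖E - ((μ k : ℝ) + Complex.I)‖ ≤ (N + 1) * δ := by
  obtain ⟨A, hA⟩ : ∃ A, A = B + Complex.I • (1 : Matrix (Fin N) (Fin N) ℂ) := ⟨_, rfl⟩
  rw [← hA] at hE
  have hev : Module.End.HasEigenvalue (Matrix.toLin' A) E := by
    rw [Module.End.hasEigenvalue_iff_isRoot_charpoly, Matrix.charpoly_toLin']
    exact (Polynomial.mem_roots'.1 hE).2
  obtain ⟨k, hk⟩ := eigenvalue_mem_ball hev
  refine ⟨k, ?_⟩
  rw [mem_closedBall_iff_norm] at hk
  have h1 : ∑ j ∈ Finset.univ.erase k, ‖A k j‖ ≤ N * δ := by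
    have h2 : ∀ j ∈ Finset.univ.erase k, ‖A k j‖ ≤ δ := by
      intro j hj
      have hjk : k ≠ j := (Finset.ne_of_mem_erase hj).symm
      have h3 := hB k j
      rw [if_neg hjk, sub_zero] at h3
      rw [hA, Matrix.add_apply, Matrix.smul_apply, Matrix.one_apply_ne hjk, smul_zero, add_zero]
      exact h3
    refine (Finset.sum_le_sum h2).trans ?_
    rw [Finset.sum_const, nsmul_eq_mul]
    have hδ : 0 ≤ δ := (norm_nonneg _).trans (hB k k)
    have h4 : (Finset.univ.erase k).card ≤ N := by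
      refine (Finset.card_le_univ _).trans ?_
      simp
    gcongr
  have h5 : ‖A k k - ((μ k : ℝ) + Complex.I)‖ ≤ δ := by
    have h3 := hB k k
    rw [if_pos rfl] at h3
    rw [hA, Matrix.add_apply, Matrix.smul_apply, Matrix.one_apply_eq, smul_eq_mul, mul_one]
    refine le_trans (le_of_eq ?_) h3
    congr 1
    ring
  have h6 : E - ((μ k : ℝ) + Complex.I) = (E - A k k) + (A k k - ((μ k : ℝ) + Complex.I)) := by ring
  rw [h6]
  refine (norm_add_le _ _).trans ?_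
  linarith

set_option maxHeartbeats 8000000 in
theorem window (d : ℕ) (hd : 1 ≤ d) : ∃ c : ℝ, 0 < c ∧ ∀ Λ0 : ℝ, 1 < Λ0 →
    ∀ᶠ h : ℝ in 𝓝[>] 0, ∃ (N : ℕ) (u : Fin N → L2d d) (A : Matrix (Fin N) (Fin N) ℂ),
      LinearIndependent ℂ u ∧ (∀ n, IsHu h Vb (u n) (∑ m, A m n • u m)) ∧
      (∀ E ∈ A.charpoly.roots, ‖E‖ ≤ Λ0 + 3 ∧ 1 / 2 ≤ E.im) ∧
      c * (√(Λ0 - 1) / h) ^ d ≤ N := by
  classical
  have hd' : (1 : ℝ) ≤ d := by exact_mod_cast hd
  obtain ⟨G, hG⟩ := exists_G d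
  obtain ⟨M, hM⟩ := exists_M hd G hG
  obtain ⟨χ, hχ, -⟩ := exists_mulOp (d := d) (fun x => (UB d).indicator (fun _ => (1 : ℂ)) x)
    (measurable_const.indicator measurableSet_ball) 1 zero_le_one (fun x => by
      by_cases hx : x ∈ UB d
      · rw [Set.indicator_of_mem hx]; simp
      · rw [Set.indicator_of_notMem hx]; simp)
  obtain ⟨V1, hV1⟩ : ∃ V1, V1 = (volume (UB d)).toReal := ⟨_, rfl⟩
  have hV1p : 0 < V1 := by
    rw [hV1]
    exact ENNReal.toReal_pos (Metric.measure_ball_pos _ _ one_pos).ne' measure_ball_lt_top.ne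
  -- the trial constant
  obtain ⟨κ, hκ⟩ : ∃ κ : ℝ, κ = √(4 * d * 3 ^ d) := ⟨_, rfl⟩
  have hκ0 : 0 < κ := by rw [hκ]; positivity
  have hκ2 : κ ^ 2 = 4 * d * 3 ^ d := by rw [hκ]; exact Real.sq_sqrt (by positivity)
  obtain ⟨c1, hc1⟩ : ∃ c1 : ℝ, c1 = 1 / (12 * κ * d) := ⟨_, rfl⟩
  have hc1p : 0 < c1 := by rw [hc1]; positivity
  refine ⟨c1 ^ d, by positivity, fun Λ0 hΛ0 => ?_⟩
  -- constants depending on Λ0
  obtain ⟨q, hq⟩ : ∃ q, q = Real.exp (-(Λ0 + 1 + 1)) := ⟨_, rfl⟩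
  have hq0 : 0 < q := by rw [hq]; exact Real.exp_pos _
  obtain ⟨α, hα⟩ : ∃ α, α = q / (6 * d) := ⟨_, rfl⟩
  have hα0 : 0 < α := by rw [hα]; positivity
  obtain ⟨C1, hC1⟩ : ∃ C1, C1 = 4 * (2 + Λ0) * (√(2 + Λ0) ^ d * V1 * V1) := ⟨_, rfl⟩
  have hC1p : 0 < C1 := by rw [hC1]; positivity
  have hsmall := small_ev (512 * (C1 + 2) ^ 5 * (4 + Λ0) ^ 7) α hα0 (5 * d + 6)
  have hpos : ∀ᶠ h : ℝ in 𝓝[>] 0, 0 < h := self_mem_nhdsWithin
  have hle1 : ∀ᶠ h : ℝ in 𝓝[>] 0, h ≤ 1 :=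
    nhdsWithin_le_nhds (Iic_mem_nhds zero_lt_one)
  -- for the trial functions: 6 l d ≤ 1/... i.e. h κ / √(Λ0-1) * 12 d ≤ 1
  have htr : ∀ᶠ h : ℝ in 𝓝[>] 0, h ≤ √(Λ0 - 1) * c1 := by
    have : 0 < √(Λ0 - 1) * c1 := by
      have : 0 < √(Λ0 - 1) := Real.sqrt_pos.2 (by linarith)
      positivity
    exact nhdsWithin_le_nhds (Iic_mem_nhds this)
  filter_upwards [hsmall, hpos, hle1, htr] with h hsm hh hh1 hht
  obtain ⟨S, hS⟩ := exists_S G M hG h
  have hh2 : h ^ 2 ≤ 1 := by nlinarith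
  have hGs := G_symm G hG
  have hGn := G_norm G hG
  have hχs := chi_symm χ hχ
  have hχi := chi_idem χ hχ
  have hSs := S_symm G M S h hS
  have hSc := S_coer G M S hG h hS hh2
  have hχn : ∀ z, ‖χ z‖ ≤ ‖z‖ := chi_norm χ hχs hχi
  have hSG : ∀ x, ‖χ (G x)‖ ^ 2 ≤ (⟪x, S x⟫_ℂ).re := fun x =>
    (pow_le_pow_left₀ (norm_nonneg _) (hχn _) 2).trans (S_G G M S hG h hS x)
  obtain ⟨Mc, hMc⟩ : ∃ Mc : ℕ, Mc = ⌈C1 * (1 / h) ^ d⌉₊ := ⟨_, rfl⟩
  have hvol : 4 * (2 + Λ0) * ((volume (Metric.closedBall (0 : Ed d) (√(2 + Λ0) / h))).toReal *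
      (volume (UB d)).toReal) = C1 * (1 / h) ^ d := by
    rw [Measure.addHaar_closedBall _ _ (by positivity), ENNReal.toReal_mul,
      ENNReal.toReal_ofReal (by positivity), finrank_euclideanSpace_fin, ← hV1, hC1, div_pow,
      one_div, inv_pow]
    field_simp
  obtain ⟨Λ, hΛ1, hΛ2, N, g, μ, hNM, hμ0, hμΛ, hSg, horth, hcompl⟩ := spec_family G χ S hGs hχs hχi
    hSs (h ^ 2) (by positivity) hSc hSG (chiG_compact G χ hG hχ) Λ0 (by linarith) Mc
    (fun N g μ h1 h2 h3 h4 => by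
      have h5 := count_upper G χ M S hG hχ h hh hS Λ0 (by linarith) N g μ h2 h3 h4
      rw [hvol] at h5
      have h6 := h5.trans (Nat.le_ceil _)
      rw [← hMc] at h6
      exact_mod_cast h6)
  have hMc1 : (Mc : ℝ) + 1 ≤ (C1 + 2) * (1 / h) ^ d := by
    have h1 : (Mc : ℝ) ≤ C1 * (1 / h) ^ d + 1 := by
      rw [hMc]
      exact (Nat.ceil_lt_add_one (by positivity)).le
    have h2 : 1 ≤ (1 / h) ^ d := one_le_pow₀ (by rw [one_le_div hh]; exact hh1)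
    linarith
  -- Agmon
  obtain ⟨ε, hε⟩ : ∃ ε, ε = (Λ0 + 1) * Real.exp (-(α / h)) := ⟨_, rfl⟩
  have hε0 : 0 ≤ ε := by rw [hε]; positivity
  have hagm : ∀ n, ‖G (g n) - χ (G (g n))‖ ≤ ε := by
    intro n
    have hn1 : ‖χ (G (g n))‖ = 1 := by
      have := horth n n
      rw [inner_self_eq_norm_sq_to_K, if_pos rfl] at this
      have h2 : ((‖χ (G (g n))‖ : ℝ) : ℂ) ^ 2 = 1 := this
      have h3 : ‖χ (G (g n))‖ ^ 2 = 1 := by exact_mod_cast h2
      nlinarith [norm_nonneg (χ (G (g n)))]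
    have h1 := agmon_est Ub Ub_nonneg G χ M S hG hχ hM h hh hS (1 - q) (1 - 2 * q / 3) (1 - q / 3)
      α Λ (μ n) (by linarith) (by linarith) (by linarith) hα0.le (by
        rw [hα]
        have e : 1 - q / 3 - (1 - 2 * q / 3) = q / 3 := by ring
        rw [e, div_pow, mul_div_assoc', div_le_iff₀ (by positivity)]
        have e2 : (q / 3) ^ 2 * (6 * (d : ℝ)) ^ 2 = 4 * d * q ^ 2 * d := by ring
        rw [e2]
        exact le_mul_of_one_le_right (by positivity) hd') (hμ0 n) (hμΛ n) (fun x h1 h2 => by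
        have h3 := Ub_large (Λ0 + 1) (by linarith) x (by rw [← hq]; exact h1) h2
        linarith) (g n) (hSg n) hn1
    apply le_of_sq_le_sq _ hε0
    refine h1.trans ?_
    rw [hε, mul_pow, ← Real.exp_nat_mul]
    have e : ((2 : ℕ) : ℝ) * -(α / h) = -(2 * α / h) := by push_cast; ring
    rw [e]
    have h2 : Λ ≤ (Λ0 + 1) ^ 2 := by nlinarith
    gcongr
  -- smallness
  obtain ⟨δ, hδ⟩ : ∃ δ : ℝ, δ = 1 / (4 * ((Mc : ℝ) + 1)) := ⟨_, rfl⟩
  have hMcp : (0 : ℝ) < (Mc : ℝ) + 1 := by positivity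
  have hNMr : (N : ℝ) ≤ Mc := by exact_mod_cast hNM
  have hδ0 : 0 < δ := by rw [hδ]; positivity
  have hδ1 : δ ≤ 1 := by
    rw [hδ, div_le_one (by positivity)]
    have : (0:ℝ) ≤ Mc := Nat.cast_nonneg _
    linarith
  have hmain : 128 * ((N : ℝ) + 1) ^ 2 * (3 + Λ) ^ 6 * ε ≤
      (h ^ 2) ^ 3 * (1 / ((Mc : ℝ) + 1)) ^ 2 * δ := by
    have h1 : 128 * ((N : ℝ) + 1) ^ 2 * (3 + Λ) ^ 6 * ε ≤
        128 * ((Mc : ℝ) + 1) ^ 2 * ((4 + Λ0) ^ 7 * Real.exp (-(α / h))) := by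
      have h2 : (3 + Λ) ^ 6 * ε ≤ (4 + Λ0) ^ 7 * Real.exp (-(α / h)) := by
        rw [hε]
        have h3 : (3 + Λ) ^ 6 ≤ (4 + Λ0) ^ 6 := pow_le_pow_left₀ (by linarith) (by linarith) 6
        calc (3 + Λ) ^ 6 * ((Λ0 + 1) * Real.exp (-(α / h)))
            ≤ (4 + Λ0) ^ 6 * ((4 + Λ0) * Real.exp (-(α / h))) := by
              gcongr ?_ * (?_ * _)
              linarith
          _ = _ := by ring
      calc 128 * ((N : ℝ) + 1) ^ 2 * (3 + Λ) ^ 6 * ε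
          = 128 * ((N : ℝ) + 1) ^ 2 * ((3 + Λ) ^ 6 * ε) := by ring
        _ ≤ _ := by
            have h4 : (0 : ℝ) ≤ N := Nat.cast_nonneg N
            have h5 : 0 ≤ (3 + Λ) ^ 6 * ε := by
              have : (0:ℝ) ≤ 3 + Λ := by linarith
              positivity
            gcongr
    refine h1.trans ?_
    have h6 : (h ^ 2) ^ 3 * (1 / ((Mc : ℝ) + 1)) ^ 2 * δ = h ^ 6 / (4 * ((Mc : ℝ) + 1) ^ 3) := by
      rw [hδ]
      field_simp
    rw [h6, le_div_iff₀ (by positivity)]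
    have h7 : ((Mc : ℝ) + 1) ^ 5 ≤ ((C1 + 2) * (1 / h) ^ d) ^ 5 := by gcongr
    calc 128 * ((Mc : ℝ) + 1) ^ 2 * ((4 + Λ0) ^ 7 * Real.exp (-(α / h))) * (4 * ((Mc : ℝ) + 1) ^ 3)
        = 512 * (4 + Λ0) ^ 7 * Real.exp (-(α / h)) * ((Mc : ℝ) + 1) ^ 5 := by ring
      _ ≤ 512 * (4 + Λ0) ^ 7 * Real.exp (-(α / h)) * ((C1 + 2) * (1 / h) ^ d) ^ 5 := by
          have : (0:ℝ) ≤ 4 + Λ0 := by linarith
          gcongr
      _ = h ^ 6 * (512 * (C1 + 2) ^ 5 * (4 + Λ0) ^ 7 * (1 / h) ^ (5 * d + 6) *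
            Real.exp (-(α / h))) := by
          rw [pow_add, mul_comm 5 d, pow_mul, mul_pow (C1 + 2)]
          field_simp
      _ ≤ h ^ 6 * 1 := by gcongr
      _ = h ^ 6 := mul_one _
  have hγp : (0 : ℝ) < 1 / ((Mc : ℝ) + 1) := by positivity
  have hγ1 : 1 / ((Mc : ℝ) + 1) ≤ 1 := by
    rw [div_le_one hMcp]
    have : (0:ℝ) ≤ Mc := Nat.cast_nonneg _
    linarith
  obtain ⟨g', B, hB1, hB2, hB3⟩ := riccati G χ S hGs hGn hχs hχi hSs (h ^ 2) (by positivity) hh2 hSc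
    g μ Λ (1 / ((Mc : ℝ) + 1)) ε (by linarith) hγp hγ1 hε0 hμ0 hμΛ hSg horth hcompl hagm δ
    (hmain.trans (mul_le_of_le_one_right (by positivity) hδ1)) hmain
  refine ⟨N, fun n => G (g' n), B + Complex.I • (1 : Matrix (Fin N) (Fin N) ℂ), hB2, ?_, ?_, ?_⟩
  · intro n
    apply isHu_of G χ M S hG hχ hM h hS
    have e1 : ∑ m, (B + Complex.I • (1 : Matrix (Fin N) (Fin N) ℂ)) m n • G (g' m) =
        ∑ m, B m n • G (g' m) + Complex.I • G (g' n) := by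
      simp only [Matrix.add_apply, Matrix.smul_apply, smul_eq_mul, add_smul,
        Finset.sum_add_distrib, Matrix.one_apply, mul_ite, mul_one, mul_zero, ite_smul, zero_smul]
      simp
    rw [e1, map_add, map_sum]
    simp only [map_smul]
    rw [← hB1 n]
    simp only [map_sub, smul_sub]
    abel
  · intro E hE
    obtain ⟨k, hk⟩ := roots_near B μ δ hB3 E hE
    have h1 : ((N : ℝ) + 1) * δ ≤ 1 / 4 := by
      rw [hδ, mul_one_div, div_le_iff₀ (by positivity)]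
      linarith
    have h2 := hk.trans h1
    have h3 := Complex.abs_im_le_norm (E - ((μ k : ℝ) + Complex.I))
    have h4 : (E - ((μ k : ℝ) + Complex.I)).im = E.im - 1 := by simp
    rw [h4] at h3
    have h5 := (abs_le.1 (h3.trans h2)).1
    refine ⟨?_, by linarith⟩
    have h6 : ‖((μ k : ℝ) : ℂ) + Complex.I‖ ≤ Λ0 + 2 := by
      refine (norm_add_le _ _).trans ?_
      rw [Complex.norm_I, Complex.norm_real, Real.norm_of_nonneg (hμ0 k)]
      have := hμΛ k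
      linarith
    have h7 : E = (E - ((μ k : ℝ) + Complex.I)) + ((μ k : ℝ) + Complex.I) := by ring
    rw [h7]
    refine (norm_add_le _ _).trans ?_
    linarith
  · -- trial functions
    have hsΛ : 0 < √(Λ0 - 1) := Real.sqrt_pos.2 (by linarith)
    obtain ⟨l, hl⟩ : ∃ l, l = h * κ / √(Λ0 - 1) := ⟨_, rfl⟩
    have hl0 : 0 < l := by rw [hl]; positivity
    obtain ⟨m, hm⟩ : ∃ m : ℕ, m = ⌊1 / (6 * l * d)⌋₊ := ⟨_, rfl⟩
    have hmle : (m : ℝ) ≤ 1 / (6 * l * d) := by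
      rw [hm]; exact Nat.floor_le (by positivity)
    have hlm : 3 * l * m * d ≤ 1 / 2 := by
      rw [le_div_iff₀ (by positivity)] at hmle
      linarith
    have hex : ∀ k : Fin d → Fin m, ∃ x, G x = bumpL hl0 (ctr l k) := fun k =>
      G_surj G hG _ (bumpL_inH1 hl0 _)
    choose v hv using hex
    have hcard : Fintype.card (Fin d → Fin m) ≤ N := by
      refine count_lower G χ S g (1 + Λ + 1 / ((Mc : ℝ) + 1)) hcompl v fun a ha => ?_
      obtain ⟨h1, h2⟩ := trial_energy hd Ub Ub_nonneg Ub_half G χ M S hG hχ hM h hS hl0 hlm v hv a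
      have h3 := h2 ha
      refine lt_of_le_of_lt h1 ?_
      have h4 : 4 * d * 3 ^ d * (h / l) ^ 2 = Λ0 - 1 := by
        rw [← hκ2, hl]
        have h5 : h / (h * κ / √(Λ0 - 1)) = √(Λ0 - 1) / κ := by field_simp
        rw [h5, div_pow, Real.sq_sqrt (by linarith)]
        field_simp
      rw [h4]
      have h6 : (0 : ℝ) < ‖χ (G (∑ i, a i • v i))‖ ^ 2 := by positivity
      have h7 : Λ0 - 1 + 2 < 1 + Λ + 1 / ((Mc : ℝ) + 1) := by linarith
      exact mul_lt_mul_of_pos_right h7 h6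
    rw [Fintype.card_fun, Fintype.card_fin, Fintype.card_fin] at hcard
    have h8 : c1 * (√(Λ0 - 1) / h) ≤ m := by
      have h9 : 1 / (6 * l * d) = 2 * (c1 * (√(Λ0 - 1) / h)) := by
        rw [hl, hc1]
        field_simp
        ring
      have h10 : 1 / (6 * l * d) < m + 1 := by rw [hm]; exact Nat.lt_floor_add_one _
      have h11 : 1 ≤ c1 * (√(Λ0 - 1) / h) := by
        rw [mul_div_assoc', one_le_div hh]
        linarith
      rw [h9] at h10
      linarith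
    calc c1 ^ d * (√(Λ0 - 1) / h) ^ d = (c1 * (√(Λ0 - 1) / h)) ^ d := by rw [mul_pow]
      _ ≤ (m : ℝ) ^ d := by gcongr
      _ ≤ N := by exact_mod_cast hcard

end Pool.Agent.H3R2.ES
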