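import Mathlib

namespace Pool.Agent.H3R2.ES

open scoped ENNReal Topology

/-- layer-cake minorant -/
theorem layer_aux (f : ℝ → ℝ) (s : ℕ → ℝ) (hf : ∀ x y, 0 < x → x ≤ y → f y ≤ f x)
    (hs0 : ∀ i, 0 < s i) (_hs : Monotone s) (x : ℝ) (hx : 0 < x) (I : ℕ) :
    ∑ i ∈ Finset.range I, (f (s i) - f (s (i + 1))) * (Set.Iic (s i)).indicator 1 x ≤
      max (f x - f (s I)) 0 := by
  induction I with
  | zero => simp
  | succ I ih =>
    rw [Finset.sum_range_succ]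
    by_cases h : x ≤ s I
    · rw [Set.indicator_of_mem (by exact h), Pi.one_apply, mul_one]
      have h1 := hf x (s I) hx h
      have h2 : max (f x - f (s I)) 0 = f x - f (s I) := max_eq_left (by linarith)
      rw [h2] at ih
      exact le_max_of_le_left (by linarith)
    · rw [Set.indicator_of_notMem (by exact h), mul_zero, add_zero]
      have h1 := hf (s I) x (hs0 I) (not_le.1 h).le
      have h2 : max (f x - f (s I)) 0 = 0 := max_eq_right (by linarith)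
      rw [h2] at ih
      exact le_max_of_le_right ih

/-- `δ(E) ≥ Im E` -/
theorem im_le_delta (E : ℂ) : E.im ≤ Metric.infDist E {z : ℂ | 0 ≤ z.re ∧ z.im = 0} := by
  refine (Metric.le_infDist ⟨0, by simp⟩).2 ?_
  rintro z ⟨_, hz⟩
  rw [dist_eq_norm]
  have h1 := Complex.abs_im_le_norm (E - z)
  rw [Complex.sub_im, hz, sub_zero] at h1
  exact (le_abs_self _).trans h1

/-- the weight dominates the critical one away from the real axis -/
theorem weight_lower (γ σ δ D x : ℝ) (hγ : 0 < γ) (hσ0 : 0 ≤ σ) (hσ : σ ≤ D) (hx : 1 / 2 ≤ x)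
    (hδ : 1 / 2 ≤ δ) :
    (1 / 2) ^ (γ + σ) * (1 / 2) ^ D * x ^ (-D) ≤ x ^ (-σ) * δ ^ (γ + σ) := by
  have hx0 : 0 < x := by linarith
  have h1 : (1 / 2 : ℝ) ^ (γ + σ) ≤ δ ^ (γ + σ) :=
    Real.rpow_le_rpow (by norm_num) hδ (by linarith)
  have h2 : (1 / 2 : ℝ) ^ D * x ^ (-D) ≤ x ^ (-σ) := by
    have h3 : (1 / 2 : ℝ) ^ D = 2 ^ (-D) := by
      rw [Real.rpow_neg (by norm_num), one_div, Real.inv_rpow (by norm_num)]
    rw [h3, ← Real.mul_rpow (by norm_num) hx0.le]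
    calc (2 * x) ^ (-D) ≤ (2 * x) ^ (-σ) :=
          Real.rpow_le_rpow_of_exponent_le (by linarith) (by linarith)
      _ ≤ x ^ (-σ) := Real.rpow_le_rpow_of_nonpos hx0 (by linarith) (by linarith)
  calc (1 / 2) ^ (γ + σ) * (1 / 2) ^ D * x ^ (-D) =
        (1 / 2) ^ (γ + σ) * ((1 / 2) ^ D * x ^ (-D)) := by ring
    _ ≤ δ ^ (γ + σ) * x ^ (-σ) := by
        apply mul_le_mul h1 h2 (by positivity) (by positivity)
    _ = x ^ (-σ) * δ ^ (γ + σ) := mul_comm _ _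

/-- values of the critical power at the scales `4^(i+2)` -/
theorem four_rpow (d j : ℕ) : ((4 : ℝ) ^ j) ^ (-((d : ℝ) / 2)) = ((2 : ℝ) ^ (j * d))⁻¹ := by
  have h1 : (4 : ℝ) ^ j = ((2 : ℝ) ^ j) ^ (2 : ℝ) := by
    rw [Real.rpow_two, ← pow_mul, mul_comm, pow_mul]
    norm_num
  rw [h1, ← Real.rpow_mul (by positivity), show (2 : ℝ) * (-((d : ℝ) / 2)) = -(d : ℝ) by ring,
    Real.rpow_neg (by positivity), Real.rpow_natCast, ← pow_mul]

theorem blowup (d : ℕ) (hd : 1 ≤ d) (γ σ : ℝ) (hγ : 0 < γ) (hσ0 : 0 ≤ σ) (hσ : σ ≤ (d : ℝ) / 2)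
    (m : ℝ → ℂ → ℝ≥0∞) (c : ℝ) (hc : 0 < c)
    (H : ∀ Λ0 : ℝ, 1 < Λ0 → ∀ᶠ h : ℝ in 𝓝[>] 0,
      ENNReal.ofReal (c * (√(Λ0 - 1) / h) ^ d) ≤
      ∑' E : ℂ, m h E * {E : ℂ | ‖E‖ ≤ Λ0 + 3 ∧ 1 / 2 ≤ E.im}.indicator 1 E) :
    Filter.Tendsto (fun h : ℝ => ENNReal.ofReal (h ^ d) * ∑' E : ℂ, m h E *
      ENNReal.ofReal (‖E‖ ^ (-σ) *
        Metric.infDist E {z : ℂ | 0 ≤ z.re ∧ z.im = 0} ^ (γ + σ))) (𝓝[>] 0) (𝓝 ⊤) := by
  rw [ENNReal.tendsto_nhds_top_iff_nat]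
  intro n
  obtain ⟨K, hK⟩ : ∃ K : ℝ, K = (1 / 2) ^ (γ + σ) * (1 / 2) ^ ((d : ℝ) / 2) := ⟨_, rfl⟩
  have hK0 : 0 < K := by rw [hK]; positivity
  obtain ⟨f, hf⟩ : ∃ f : ℝ → ℝ, f = fun x => x ^ (-((d : ℝ) / 2)) := ⟨_, rfl⟩
  obtain ⟨s, hs⟩ : ∃ s : ℕ → ℝ, s = fun i => (4 : ℝ) ^ (i + 2) := ⟨_, rfl⟩
  have hfm : ∀ x y, 0 < x → x ≤ y → f y ≤ f x := by
    intro x y hx hxy
    rw [hf]
    exact Real.rpow_le_rpow_of_nonpos hx hxy (by have : (0:ℝ) ≤ d := Nat.cast_nonneg _; linarith)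
  have hs0 : ∀ i, 0 < s i := fun i => by rw [hs]; positivity
  have hsm : Monotone s := by
    rw [hs]
    exact fun i j hij => pow_le_pow_right₀ (by norm_num) (by omega)
  obtain ⟨κ, hκ⟩ : ∃ κ : ℝ, κ = ((2 : ℝ) ^ d)⁻¹ * (1 - ((2 : ℝ) ^ d)⁻¹) := ⟨_, rfl⟩
  have h2d : ((2 : ℝ) ^ d)⁻¹ < 1 := by
    rw [inv_lt_one₀ (by positivity)]
    exact one_lt_pow₀ (by norm_num) (by omega)
  have hκ0 : 0 < κ := by
    rw [hκ]
    exact mul_pos (by positivity) (by linarith)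
  have hai : ∀ i, (f (s i) - f (s (i + 1))) * (2 : ℝ) ^ ((i + 1) * d) = κ := by
    intro i
    rw [hf, hs, hκ]
    simp only
    rw [four_rpow, four_rpow]
    have e1 : (2 : ℝ) ^ ((i + 2) * d) = 2 ^ ((i + 1) * d) * 2 ^ d := by rw [← pow_add]; ring_nf
    have e2 : (2 : ℝ) ^ ((i + 1 + 2) * d) = 2 ^ ((i + 1) * d) * 2 ^ d * 2 ^ d := by
      rw [← pow_add, ← pow_add]; ring_nf
    rw [e1, e2]
    field_simp
  have ha0 : ∀ i, 0 ≤ f (s i) - f (s (i + 1)) := fun i =>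
    sub_nonneg.2 (hfm _ _ (hs0 i) (hsm (Nat.le_succ i)))
  obtain ⟨I, hI⟩ : ∃ I : ℕ, (n : ℝ) < I * (K * c * κ) := by
    obtain ⟨I, hI⟩ := exists_nat_gt ((n : ℝ) / (K * c * κ))
    exact ⟨I, by rwa [div_lt_iff₀ (by positivity)] at hI⟩
  have hev : ∀ᶠ h : ℝ in 𝓝[>] 0, ∀ i ∈ Finset.range I,
      ENNReal.ofReal (c * ((2 : ℝ) ^ (i + 1) / h) ^ d) ≤
      ∑' E : ℂ, m h E * {E : ℂ | ‖E‖ ≤ s i ∧ 1 / 2 ≤ E.im}.indicator 1 E := by
    rw [Filter.eventually_all_finset]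
    intro i _
    have h4 : (4 : ℝ) ^ 2 ≤ 4 ^ (i + 2) := pow_le_pow_right₀ (by norm_num) (by omega)
    have h1 := H (s i - 3) (by rw [hs]; simp only; linarith)
    filter_upwards [h1, self_mem_nhdsWithin] with h h2 h3
    rw [sub_add_cancel] at h2
    refine le_trans (ENNReal.ofReal_le_ofReal ?_) h2
    have h3' : (0 : ℝ) < h := h3
    have h5 : (2 : ℝ) ^ (i + 1) ≤ √(s i - 3 - 1) := by
      apply Real.le_sqrt_of_sq_le
      rw [hs]
      simp only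
      have h6 : ((2 : ℝ) ^ (i + 1)) ^ 2 = 4 ^ (i + 1) := by
        rw [← pow_mul, mul_comm, pow_mul]; norm_num
      have h7 : (4 : ℝ) ^ (i + 2) = 4 * 4 ^ (i + 1) := by rw [pow_succ]; ring
      have h8 : (4 : ℝ) ^ 1 ≤ 4 ^ (i + 1) := pow_le_pow_right₀ (by norm_num) (by omega)
      rw [h6, h7]
      linarith
    gcongr
  filter_upwards [hev, self_mem_nhdsWithin] with h h1 h2
  have hh : (0 : ℝ) < h := h2
  have key : ∀ E : ℂ, ∑ i ∈ Finset.range I, ENNReal.ofReal (f (s i) - f (s (i + 1))) *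
      {E : ℂ | ‖E‖ ≤ s i ∧ 1 / 2 ≤ E.im}.indicator 1 E ≤
      ENNReal.ofReal K⁻¹ * ENNReal.ofReal (‖E‖ ^ (-σ) *
        Metric.infDist E {z : ℂ | 0 ≤ z.re ∧ z.im = 0} ^ (γ + σ)) := by
    intro E
    by_cases hE : 1 / 2 ≤ E.im
    · have hE1 : 1 / 2 ≤ ‖E‖ := hE.trans ((le_abs_self _).trans (Complex.abs_im_le_norm E))
      have e1 : ∑ i ∈ Finset.range I, ENNReal.ofReal (f (s i) - f (s (i + 1))) *
          {E : ℂ | ‖E‖ ≤ s i ∧ 1 / 2 ≤ E.im}.indicator 1 E =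
          ENNReal.ofReal (∑ i ∈ Finset.range I, (f (s i) - f (s (i + 1))) *
            (Set.Iic (s i)).indicator 1 ‖E‖) := by
        rw [ENNReal.ofReal_sum_of_nonneg]
        · refine Finset.sum_congr rfl fun i _ => ?_
          rw [ENNReal.ofReal_mul (ha0 i)]
          congr 1
          by_cases h : ‖E‖ ≤ s i
          · rw [Set.indicator_of_mem (by exact ⟨h, hE⟩), Set.indicator_of_mem (by exact h)]
            simp
          · rw [Set.indicator_of_notMem (fun h' => h h'.1), Set.indicator_of_notMem (by exact h)]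
            simp
        · intro i _
          exact mul_nonneg (ha0 i) (Set.indicator_nonneg (fun _ _ => zero_le_one) _)
      rw [e1, ← ENNReal.ofReal_mul (by positivity)]
      apply ENNReal.ofReal_le_ofReal
      refine (layer_aux f s hfm hs0 hsm ‖E‖ (by linarith) I).trans ?_
      have hdn : 0 ≤ Metric.infDist E {z : ℂ | 0 ≤ z.re ∧ z.im = 0} := Metric.infDist_nonneg
      refine max_le ?_ (by positivity)
      have h3 := weight_lower γ σ _ ((d : ℝ) / 2) ‖E‖ hγ hσ0 hσ hE1 (hE.trans (im_le_delta E))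
      rw [← hK] at h3
      have h4 : 0 ≤ f (s I) := by
        rw [hf]
        exact Real.rpow_nonneg (hs0 I).le _
      rw [inv_mul_eq_div, le_div_iff₀ hK0]
      have h5 : K * f ‖E‖ ≤ ‖E‖ ^ (-σ) *
          Metric.infDist E {z : ℂ | 0 ≤ z.re ∧ z.im = 0} ^ (γ + σ) := by
        rw [hf]
        exact h3
      have h6 : 0 ≤ f (s I) * K := mul_nonneg h4 hK0.le
      linarith
    · have e1 : ∑ i ∈ Finset.range I, ENNReal.ofReal (f (s i) - f (s (i + 1))) *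
          {E : ℂ | ‖E‖ ≤ s i ∧ 1 / 2 ≤ E.im}.indicator 1 E = 0 := by
        refine Finset.sum_eq_zero fun i _ => ?_
        rw [Set.indicator_of_notMem (fun h' => hE h'.2), mul_zero]
      rw [e1]
      exact bot_le
  have hsum : ∑ i ∈ Finset.range I, ENNReal.ofReal (f (s i) - f (s (i + 1))) *
      ENNReal.ofReal (c * ((2 : ℝ) ^ (i + 1) / h) ^ d) ≤
      ENNReal.ofReal K⁻¹ * ∑' E : ℂ, m h E * ENNReal.ofReal (‖E‖ ^ (-σ) *
        Metric.infDist E {z : ℂ | 0 ≤ z.re ∧ z.im = 0} ^ (γ + σ)) := by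
    calc ∑ i ∈ Finset.range I, ENNReal.ofReal (f (s i) - f (s (i + 1))) *
          ENNReal.ofReal (c * ((2 : ℝ) ^ (i + 1) / h) ^ d)
        ≤ ∑ i ∈ Finset.range I, ENNReal.ofReal (f (s i) - f (s (i + 1))) *
          ∑' E : ℂ, m h E * {E : ℂ | ‖E‖ ≤ s i ∧ 1 / 2 ≤ E.im}.indicator 1 E :=
          Finset.sum_le_sum fun i hi => mul_le_mul_of_nonneg_left (h1 i hi) bot_le
      _ = ∑' E : ℂ, m h E * ∑ i ∈ Finset.range I, ENNReal.ofReal (f (s i) - f (s (i + 1))) *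
          {E : ℂ | ‖E‖ ≤ s i ∧ 1 / 2 ≤ E.im}.indicator 1 E := by
          simp_rw [← ENNReal.tsum_mul_left]
          rw [← Summable.tsum_finsetSum (fun _ _ => ENNReal.summable)]
          refine tsum_congr fun E => ?_
          rw [Finset.mul_sum]
          refine Finset.sum_congr rfl fun i _ => ?_
          ring
      _ ≤ ∑' E : ℂ, m h E * (ENNReal.ofReal K⁻¹ * ENNReal.ofReal (‖E‖ ^ (-σ) *
          Metric.infDist E {z : ℂ | 0 ≤ z.re ∧ z.im = 0} ^ (γ + σ))) :=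
          ENNReal.tsum_le_tsum fun E => mul_le_mul_of_nonneg_left (key E) bot_le
      _ = _ := by
          rw [← ENNReal.tsum_mul_left]
          refine tsum_congr fun E => ?_
          ring
  have hlow : ∑ i ∈ Finset.range I, ENNReal.ofReal (f (s i) - f (s (i + 1))) *
      ENNReal.ofReal (c * ((2 : ℝ) ^ (i + 1) / h) ^ d) = ENNReal.ofReal (I * (c * κ) / h ^ d) := by
    have e1 : ∀ i ∈ Finset.range I, ENNReal.ofReal (f (s i) - f (s (i + 1))) *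
      ENNReal.ofReal (c * ((2 : ℝ) ^ (i + 1) / h) ^ d) = ENNReal.ofReal (c * κ / h ^ d) := by
      intro i _
      rw [← ENNReal.ofReal_mul (ha0 i), ← hai i, pow_mul]
      congr 1
      rw [div_pow]
      ring
    rw [Finset.sum_congr rfl e1, Finset.sum_const, Finset.card_range, nsmul_eq_mul,
      ← ENNReal.ofReal_natCast, ← ENNReal.ofReal_mul (Nat.cast_nonneg _)]
    congr 1
    ring
  rw [hlow] at hsum
  have h6 : ENNReal.ofReal (K * h ^ d) * ENNReal.ofReal (I * (c * κ) / h ^ d) ≤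
      ENNReal.ofReal (h ^ d) * ∑' E : ℂ, m h E * ENNReal.ofReal (‖E‖ ^ (-σ) *
        Metric.infDist E {z : ℂ | 0 ≤ z.re ∧ z.im = 0} ^ (γ + σ)) := by
    refine (mul_le_mul_of_nonneg_left hsum bot_le).trans (le_of_eq ?_)
    rw [← mul_assoc, ← ENNReal.ofReal_mul (by positivity)]
    congr 2
    field_simp
  refine lt_of_lt_of_le ?_ h6
  rw [← ENNReal.ofReal_mul (by positivity), ← ENNReal.ofReal_natCast]
  apply (ENNReal.ofReal_lt_ofReal_iff (by
    have : 0 ≤ (n : ℝ) := Nat.cast_nonneg _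
    have h7 : K * h ^ d * (I * (c * κ) / h ^ d) = I * (K * c * κ) := by field_simp
    rw [h7]; linarith)).2
  have h7 : K * h ^ d * (I * (c * κ) / h ^ d) = I * (K * c * κ) := by field_simp
  rw [h7]
  exact hI

end Pool.Agent.H3R2.ES
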