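import Mathlib
import Pool.Agent.H3R2.ES.Form
import Pool.Agent.H3R2.ES.Agmon

namespace Pool.Agent.H3R2.ES

open MeasureTheory ENNReal FourierTransform Pool.Agent.Helper209.CX
open scoped InnerProductSpace Topology

/-- coercive bounded operators are onto -/
theorem lax {H : Type*} [NormedAddCommGroup H] [InnerProductSpace ℂ H] [CompleteSpace H]
    (A : H →L[ℂ] H) (c : ℝ) (hc : 0 < c) (h : ∀ x, c * ‖x‖ ^ 2 ≤ (⟪x, A x⟫_ℂ).re) (y : H) :
    ∃ x, A x = y := by
  have hb : ∀ x, c * ‖x‖ ≤ ‖A x‖ := by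
    intro x
    rcases eq_or_ne x 0 with rfl | hx
    · simp
    · have h1 : c * ‖x‖ ^ 2 ≤ ‖x‖ * ‖A x‖ :=
        (h x).trans ((Complex.re_le_norm _).trans (norm_inner_le_norm x (A x)))
      have h2 : 0 < ‖x‖ := norm_pos_iff.2 hx
      nlinarith
  have hanti : AntilipschitzWith (Real.toNNReal c⁻¹) A := by
    refine ContinuousLinearMap.antilipschitz_of_bound A fun x => ?_
    rw [Real.coe_toNNReal _ (by positivity), inv_mul_eq_div, le_div_iff₀ hc]
    linarith [hb x]
  have hclosed : IsClosed (LinearMap.range A.toLinearMap : Set H) := by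
    have := hanti.isClosed_range A.uniformContinuous
    exact this
  have horth : (LinearMap.range A.toLinearMap)ᗮ = ⊥ := by
    rw [Submodule.eq_bot_iff]
    intro z hz
    have h1 := hz (A z) ⟨z, rfl⟩
    have h2 := h z
    have h3 : ⟪z, A z⟫_ℂ = 0 := by rw [← inner_conj_symm, h1, map_zero]
    rw [h3, Complex.zero_re] at h2
    have h4 : ‖z‖ ^ 2 ≤ 0 := by nlinarith
    exact norm_eq_zero.1 (by nlinarith [norm_nonneg z])
  have htop : LinearMap.range A.toLinearMap = ⊤ := by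
    haveI : CompleteSpace (LinearMap.range A.toLinearMap) := hclosed.completeSpace_coe
    rw [← Submodule.orthogonal_eq_bot_iff]
    exact horth
  have : y ∈ LinearMap.range A.toLinearMap := by rw [htop]; trivial
  exact this

/-- `(H + 1) u = f` is solvable -/
theorem surj {d : ℕ} (hd : 1 ≤ d) (h : ℝ) (hh : 0 < h) (hh1 : h ≤ 1) (f : L2d d) :
    ∃ u : L2d d, IsHu h Vb u (f - u) := by
  obtain ⟨G, hG⟩ := exists_G d
  obtain ⟨M, hM⟩ := exists_M hd G hG
  obtain ⟨χ, hχ, -⟩ := exists_mulOp (d := d) (fun x => (UB d).indicator (fun _ => (1 : ℂ)) x)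
    (measurable_const.indicator measurableSet_ball) 1 zero_le_one (fun x => by
      by_cases hx : x ∈ UB d
      · rw [Set.indicator_of_mem hx]; simp
      · rw [Set.indicator_of_notMem hx]; simp)
  obtain ⟨S, hS⟩ := exists_S G M hG h
  have hh2 : h ^ 2 ≤ 1 := by nlinarith
  obtain ⟨g, hg⟩ := lax (S + Complex.I • (G ∘L χ ∘L G)) (h ^ 2) (by positivity) (fun x => by
    have e1 : (S + Complex.I • (G ∘L χ ∘L G)) x = S x + Complex.I • G (χ (G x)) := rfl
    rw [e1, inner_add_right, inner_smul_right, ← G_symm G hG, Complex.add_re]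
    have e2 : ⟪G x, χ (G x)⟫_ℂ = ((‖χ (G x)‖ ^ 2 : ℝ) : ℂ) := by
      rw [← chi_idem χ hχ (G x), ← chi_symm χ hχ, inner_self_eq_norm_sq_to_K, chi_idem χ hχ]
      push_cast
      rfl
    rw [e2]
    have e3 : (Complex.I * ((‖χ (G x)‖ ^ 2 : ℝ) : ℂ)).re = 0 := by
      rw [Complex.I_mul_re, Complex.ofReal_im, neg_zero]
    rw [e3, add_zero]
    exact S_coer G M S hG h hS hh2 x) (G f)
  refine ⟨G g, isHu_of G χ M S hG hχ hM h hS g (f - G g) ?_⟩
  have e1 : S g + Complex.I • G (χ (G g)) = G f := hg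
  rw [map_sub, ← e1]
  abel

/-- the numerical range lies in a half-strip -/
theorem numrange {d : ℕ} (h : ℝ) (u f : L2d d) (huf : IsHu h Vb u f) :
    0 ≤ (⟪u, f⟫_ℂ).re ∧ 0 ≤ (⟪u, f⟫_ℂ).im ∧ (⟪u, f⟫_ℂ).im ≤ ‖u‖ ^ 2 := by
  obtain ⟨hint, heq⟩ := huf.2 u huf.1
  have e4 : ∫ x, f x * (starRingEnd ℂ) (u x) = ⟪u, f⟫_ℂ := by
    rw [L2.inner_def]
    refine integral_congr_ae (Filter.Eventually.of_forall fun x => ?_)
    simp only [RCLike.inner_apply]
  rw [e4] at heq
  have hpt : ∀ x : Ed d, Vb x * u x * (starRingEnd ℂ) (u x) =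
      ((Ub x * ‖u x‖ ^ 2 : ℝ) : ℂ) + Complex.I * ((UB d).indicator (fun _ => (1 : ℝ)) x * ‖u x‖ ^ 2 : ℝ) := by
    intro x
    rw [mul_assoc, Complex.mul_conj, Complex.normSq_eq_norm_sq]
    unfold Vb
    by_cases hx : x ∈ UB d
    · rw [Set.indicator_of_mem hx, Set.indicator_of_mem hx]
      push_cast
      ring
    · rw [Set.indicator_of_notMem hx, Set.indicator_of_notMem hx]
      push_cast
      ring
  have hre : ∀ x : Ed d, (Vb x * u x * (starRingEnd ℂ) (u x)).re = Ub x * ‖u x‖ ^ 2 := by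
    intro x
    rw [hpt, Complex.add_re, Complex.ofReal_re, Complex.I_mul_re, Complex.ofReal_im]
    ring
  have him : ∀ x : Ed d, (Vb x * u x * (starRingEnd ℂ) (u x)).im =
      (UB d).indicator (fun _ => (1 : ℝ)) x * ‖u x‖ ^ 2 := by
    intro x
    rw [hpt, Complex.add_im, Complex.ofReal_im, Complex.I_mul_im, Complex.ofReal_re]
    ring
  have hDre : (dirichlet u u).im = 0 ∧ 0 ≤ (dirichlet u u).re := by
    have e1 : dirichlet u u = ((∫ ξ : Ed d, (2 * Real.pi * ‖ξ‖) ^ 2 * ‖(𝓕 u : L2d d) ξ‖ ^ 2 : ℝ) : ℂ) := by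
      unfold dirichlet
      rw [← integral_complex_ofReal]
      refine integral_congr_ae (Filter.Eventually.of_forall fun ξ => ?_)
      simp only
      rw [mul_assoc, Complex.mul_conj, Complex.normSq_eq_norm_sq, ← Complex.ofReal_mul]
    rw [e1]
    refine ⟨Complex.ofReal_im _, ?_⟩
    rw [Complex.ofReal_re]
    exact integral_nonneg fun ξ => by positivity
  have hIre : (∫ x, Vb x * u x * (starRingEnd ℂ) (u x)).re = ∫ x : Ed d, Ub x * ‖u x‖ ^ 2 := by
    rw [← RCLike.re_eq_complex_re, ← integral_re hint]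
    exact integral_congr_ae (Filter.Eventually.of_forall fun x => hre x)
  have hIim : (∫ x, Vb x * u x * (starRingEnd ℂ) (u x)).im =
      ∫ x : Ed d, (UB d).indicator (fun _ => (1 : ℝ)) x * ‖u x‖ ^ 2 := by
    rw [← RCLike.im_eq_complex_im, ← integral_im hint]
    exact integral_congr_ae (Filter.Eventually.of_forall fun x => him x)
  rw [← heq, Complex.add_re, Complex.add_im, Complex.re_ofReal_mul, Complex.im_ofReal_mul, hDre.1,
    hIre, hIim, mul_zero, zero_add]
  refine ⟨add_nonneg (mul_nonneg (sq_nonneg h) hDre.2)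
    (integral_nonneg fun x => mul_nonneg (Ub_nonneg x) (sq_nonneg _)),
    integral_nonneg fun x => mul_nonneg (Set.indicator_nonneg (fun _ _ => zero_le_one) _)
      (sq_nonneg _), ?_⟩
  rw [norm_sq_int]
  refine integral_mono_of_nonneg (Filter.Eventually.of_forall fun x =>
    mul_nonneg (Set.indicator_nonneg (fun _ _ => zero_le_one) _) (sq_nonneg _)) (int_sq u)
    (Filter.Eventually.of_forall fun x => ?_)
  simp only
  by_cases hx : x ∈ UB d
  · rw [Set.indicator_of_mem hx, one_mul]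
  · rw [Set.indicator_of_notMem hx, zero_mul]
    positivity

end Pool.Agent.H3R2.ES
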