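import Mathlib
import Pool.Agent.Helper209.CX.K30

namespace Pool.Agent.H3R2.ES

open scoped ENNReal
open Pool.Agent.Helper209.CX

/-- every root of the characteristic polynomial of an invariant family is counted by the
generalised eigenspaces -/
theorem count_le {X : Type*} [AddCommGroup X] [Module ℂ X] (R : Submodule ℂ (X × X))
    (G : ℂ → Submodule ℂ X)
    (hG : ∀ E u, u ∈ G E ↔ K30.chainGen (fun a b => (a, b) ∈ R) E u)
    {N : ℕ} (u : Fin N → X) (A : Matrix (Fin N) (Fin N) ℂ) (hu : LinearIndependent ℂ u)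
    (hA : ∀ j, (u j, ∑ l, A l j • u l) ∈ R) (E : ℂ) (hfin : Module.Finite ℂ (G E)) :
    A.charpoly.roots.count E ≤ Module.finrank ℂ (G E) := by
  classical
  obtain ⟨Y, hY⟩ : ∃ Y : Submodule ℂ X, Y = Submodule.span ℂ (Set.range u) := ⟨_, rfl⟩
  obtain ⟨b, hb⟩ : ∃ b : Module.Basis (Fin N) ℂ Y, ∀ i, ((b i : Y) : X) = u i := by
    subst hY
    refine ⟨Module.Basis.span hu, fun i => ?_⟩
    rw [Module.Basis.span_apply]
  haveI hYfin : FiniteDimensional ℂ Y := Module.Finite.of_basis b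
  obtain ⟨T, hTA⟩ : ∃ T : Y →ₗ[ℂ] Y, T = Matrix.toLin b b A := ⟨_, rfl⟩
  have hch : T.charpoly = A.charpoly := by
    rw [← LinearMap.charpoly_toMatrix T b, hTA, LinearMap.toMatrix_toLin]
  have hTb : ∀ j, ((T (b j) : Y) : X) = ∑ l, A l j • u l := by
    intro j
    rw [hTA, Matrix.toLin_self]
    simp only [Submodule.coe_sum, Submodule.coe_smul, hb]
  have hT : ∀ y : Y, ((y : X), ((T y : Y) : X)) ∈ R := by
    intro y
    have h1 : ((y : X), ((T y : Y) : X)) =
        ∑ j, b.repr y j • (((b j : Y) : X), ((T (b j) : Y) : X)) := by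
      have h2 : (∑ j, b.repr y j • b j) = y := b.sum_repr y
      refine Prod.ext ?_ ?_
      · rw [Prod.fst_sum]
        simp only [Prod.smul_fst]
        conv_lhs => rw [← h2]
        simp only [Submodule.coe_sum, Submodule.coe_smul]
      · rw [Prod.snd_sum]
        simp only [Prod.smul_snd]
        conv_lhs => rw [← h2]
        rw [map_sum]
        simp only [map_smul, Submodule.coe_sum, Submodule.coe_smul]
    rw [h1]
    refine Submodule.sum_mem _ fun j _ => Submodule.smul_mem _ _ ?_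
    rw [hTb, hb]
    exact hA j
  have hmap : (Module.End.maxGenEigenspace T E).map Y.subtype ≤ G E := by
    rintro _ ⟨y, hy, rfl⟩
    rw [hG]
    rw [SetLike.mem_coe, Module.End.mem_maxGenEigenspace] at hy
    obtain ⟨n, hn⟩ := hy
    refine ⟨n, fun i => (((T - E • (1 : Module.End ℂ Y)) ^ i) y : Y), by simp, ?_, fun i _ => ?_⟩
    · simp only
      rw [hn]
      rfl
    · have h3 := hT (((T - E • (1 : Module.End ℂ Y)) ^ i) y)
      have h4 : ((((T - E • (1 : Module.End ℂ Y)) ^ (i + 1)) y : Y) : X) +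
          E • ((((T - E • (1 : Module.End ℂ Y)) ^ i) y : Y) : X) =
          ((T (((T - E • (1 : Module.End ℂ Y)) ^ i) y) : Y) : X) := by
        rw [pow_succ', Module.End.mul_apply]
        simp
      simp only
      rw [h4]
      exact h3
  rw [Polynomial.count_roots, ← hch, ← LinearMap.finrank_maxGenEigenspace_eq]
  have h5 : Module.finrank ℂ ((Module.End.maxGenEigenspace T E).map Y.subtype) =
      Module.finrank ℂ (Module.End.maxGenEigenspace T E) :=
    (LinearEquiv.finrank_eq (Submodule.equivMapOfInjective Y.subtype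
      (Submodule.subtype_injective Y) _)).symm
  rw [← h5]
  exact Submodule.finrank_mono hmap

theorem sum_lower {X : Type*} [AddCommGroup X] [Module ℂ X] (R : Submodule ℂ (X × X))
    (G : ℂ → Submodule ℂ X)
    (hG : ∀ E u, u ∈ G E ↔ K30.chainGen (fun a b => (a, b) ∈ R) E u)
    {N : ℕ} (u : Fin N → X) (A : Matrix (Fin N) (Fin N) ℂ) (hu : LinearIndependent ℂ u)
    (hA : ∀ j, (u j, ∑ l, A l j • u l) ∈ R) (𝓡 : Set ℂ) (hroots : ∀ E ∈ A.charpoly.roots, E ∈ 𝓡)
    (hfin : ∀ E ∈ 𝓡, Module.Finite ℂ (G E)) :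
    (N : ℝ≥0∞) ≤ ∑' E : ℂ, ((Module.finrank ℂ (G E) : ℕ) : ℝ≥0∞) * 𝓡.indicator 1 E := by
  classical
  have h1 : A.charpoly.roots.card = N := by
    have h2 := (Polynomial.splits_iff_card_roots.1 (IsAlgClosed.splits A.charpoly))
    rw [h2, Matrix.charpoly_natDegree_eq_dim, Fintype.card_fin]
  have h3 : (N : ℝ≥0∞) = ∑ E ∈ A.charpoly.roots.toFinset, (A.charpoly.roots.count E : ℝ≥0∞) := by
    rw [← Nat.cast_sum, Multiset.toFinset_sum_count_eq, h1]
  rw [h3]
  refine le_trans (Finset.sum_le_sum fun E hE => ?_) (ENNReal.sum_le_tsum A.charpoly.roots.toFinset)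
  rw [Multiset.mem_toFinset] at hE
  have h4 := hroots E hE
  rw [Set.indicator_of_mem h4, Pi.one_apply, mul_one, Nat.cast_le]
  exact count_le R G hG u A hu hA E (hfin E h4)

end Pool.Agent.H3R2.ES
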